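import Pool.Agent.Lib.MP_f2058c_gt_S.Defs

/-!
# Sums over the residues modulo an odd number
-/

set_option autoImplicit false

namespace Pool.MP_f2058c_gt.Spl

open Finset Complex

variable {r : ℕ} [NeZero r]

/-- The additive character. -/
noncomputable def ps (x : ZMod r) : ℂ := ZMod.stdAddChar x

theorem ps_add (x y : ZMod r) : ps (x + y) = ps x * ps y := AddChar.map_add_eq_mul _ x y

theorem ps_zero : ps (0 : ZMod r) = 1 := AddChar.map_zero_eq_one _

theorem ps_neg_mul (x : ZMod r) : ps (-x) * ps x = 1 := by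
  rw [← ps_add, neg_add_cancel, ps_zero]

theorem ps_ne (x : ZMod r) : ps x ≠ 0 := fun h => by
  have := ps_neg_mul x
  rw [h, mul_zero] at this
  exact zero_ne_one this

theorem ps_neg (x : ZMod r) : ps (-x) = (ps x)⁻¹ := eq_inv_of_mul_eq_one_left (ps_neg_mul x)

theorem ps_nat (n : ℕ) : ps (n : ZMod r) = qq r ^ n := by
  have h := ZMod.stdAddChar_coe (N := r) (n : ℤ)
  rw [Int.cast_natCast, Int.cast_natCast] at h
  unfold ps qq
  rw [h, ← Complex.exp_nat_mul]
  refine congrArg Complex.exp ?_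
  ring

theorem ps_inj {x y : ZMod r} (h : ps x = ps y) : x = y := ZMod.injective_stdAddChar h

theorem sum_ps (b : ZMod r) : ∑ x : ZMod r, ps (x * b) = if b = 0 then (r : ℂ) else 0 := by
  have h := AddChar.sum_mulShift b (ZMod.isPrimitive_stdAddChar r)
  rw [ZMod.card] at h
  unfold ps
  rw [h]
  split_ifs <;> simp

/-- One half. -/
def hh (r : ℕ) : ZMod r := (((r + 1) / 2 : ℕ) : ZMod r)

omit [NeZero r] in
theorem two_hh (hr : Odd r) : 2 * hh r = 1 := by
  obtain ⟨N, hN⟩ := hr
  unfold hh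
  have h1 : (r + 1) / 2 = N + 1 := by omega
  rw [h1]
  have h2 : ((r : ℕ) : ZMod r) = 0 := ZMod.natCast_self r
  have h3 : (2 : ZMod r) * ((N + 1 : ℕ) : ZMod r) = ((r : ℕ) : ZMod r) + 1 := by
    have h4 : 2 * (N + 1) = r + 1 := by omega
    exact_mod_cast congrArg (Nat.cast : ℕ → ZMod r) h4
  rw [h3, h2, zero_add]

/-- The bracket. -/
noncomputable def br (x : ZMod r) : ℂ := ps (hh r * x) - ps (-(hh r * x))

theorem br_neg (x : ZMod r) : br (-x) = - br x := by
  unfold br
  rw [mul_neg, neg_neg]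
  ring

theorem br_zero : br (0 : ZMod r) = 0 := by
  unfold br
  rw [mul_zero, neg_zero, sub_self]

/-- `q^x + q^(-x)`. -/
noncomputable def xx (x : ZMod r) : ℂ := ps x + ps (-x)

theorem xx_neg (x : ZMod r) : xx (-x) = xx x := by
  unfold xx
  rw [neg_neg, add_comm]

theorem br_mul_xx (hr : Odd r) (k n : ZMod r) : br (k * n) * xx n = br ((k + 2) * n) + br ((k - 2) * n) := by
  have h2 := two_hh hr
  have e1 : hh r * ((k + 2) * n) = hh r * (k * n) + n := by linear_combination n * h2
  have e2 : hh r * ((k - 2) * n) = hh r * (k * n) + -n := by linear_combination -n * h2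
  have e3 : -(hh r * ((k + 2) * n)) = -(hh r * (k * n)) + -n := by linear_combination -n * h2
  have e4 : -(hh r * ((k - 2) * n)) = -(hh r * (k * n)) + n := by linear_combination n * h2
  unfold br xx
  rw [e3, e4, e1, e2, ps_add, ps_add, ps_add, ps_add]
  ring

theorem br_three (hr : Odd r) : br (3 : ZMod r) = (1 + xx (1 : ZMod r)) * br (1 : ZMod r) := by
  have h := br_mul_xx hr (1 : ZMod r) 1
  rw [mul_one, mul_one, mul_one] at h
  have e1 : (1 : ZMod r) + 2 = 3 := by ring
  have e2 : (1 : ZMod r) - 2 = -1 := by ring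
  rw [e1, e2, br_neg] at h
  linear_combination -h

theorem br_one_ne (hr : Odd r) (h3 : 3 ≤ r) : br (1 : ZMod r) ≠ 0 := by
  intro h
  unfold br at h
  rw [mul_one, sub_eq_zero] at h
  have h1 := ps_inj h
  have h2 := two_hh hr
  have h4 : (1 : ZMod r) = 0 := by
    rw [← h2]
    linear_combination h1
  have h5 : ((1 : ℕ) : ZMod r) = 0 := by exact_mod_cast h4
  rw [ZMod.natCast_eq_zero_iff] at h5
  have := Nat.le_of_dvd one_pos h5
  omega

theorem sum_br (hr : Odd r) (m k : ZMod r) : ∑ n : ZMod r, br (m * n) * br (k * n) =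
    2 * (r : ℂ) * ((if m = -k then 1 else 0) - (if m = k then 1 else 0)) := by
  have h2 := two_hh hr
  have e : ∀ n : ZMod r, br (m * n) * br (k * n) = ps (n * (hh r * (m + k))) - ps (n * (hh r * (m - k))) -
      ps (n * -(hh r * (m - k))) + ps (n * -(hh r * (m + k))) := by
    intro n
    have e1 : n * (hh r * (m + k)) = hh r * (m * n) + hh r * (k * n) := by ring
    have e2 : n * (hh r * (m - k)) = hh r * (m * n) + -(hh r * (k * n)) := by ring
    have e3 : n * -(hh r * (m - k)) = -(hh r * (m * n)) + hh r * (k * n) := by ring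
    have e4 : n * -(hh r * (m + k)) = -(hh r * (m * n)) + -(hh r * (k * n)) := by ring
    rw [e1, e2, e3, e4, ps_add, ps_add, ps_add, ps_add]
    unfold br
    ring
  rw [Finset.sum_congr rfl fun n _ => e n, Finset.sum_add_distrib, Finset.sum_sub_distrib,
    Finset.sum_sub_distrib, sum_ps, sum_ps, sum_ps, sum_ps]
  have f1 : hh r * (m + k) = 0 ↔ m = -k := by
    constructor
    · intro h
      linear_combination -(m + k) * h2 + 2 * h
    · intro h
      rw [h]
      ring
  have f2 : hh r * (m - k) = 0 ↔ m = k := by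
    constructor
    · intro h
      linear_combination -(m - k) * h2 + 2 * h
    · intro h
      rw [h]
      ring
  simp only [neg_eq_zero, f1, f2]
  split_ifs <;> ring

theorem sum_range_eq (f : ZMod r → ℂ) : ∑ x : ZMod r, f x = ∑ n ∈ range r, f (n : ZMod r) := by
  symm
  refine Finset.sum_bij (fun n _ => (n : ZMod r)) (fun n _ => Finset.mem_univ _) ?_ ?_ (fun n _ => rfl)
  · intro n hn m hm h
    rw [Finset.mem_range] at hn hm
    have h1 := (ZMod.natCast_eq_natCast_iff' n m r).1 h
    rwa [Nat.mod_eq_of_lt hn, Nat.mod_eq_of_lt hm] at h1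
  · intro x _
    exact ⟨x.val, Finset.mem_range.2 (ZMod.val_lt x), ZMod.natCast_zmod_val x⟩

theorem sum_odds_aux (g : ℕ → ℂ) (N : ℕ) : ∑ n ∈ odds (2 * N + 1), g n = ∑ j ∈ range N, g (2 * j + 1) := by
  induction N with
  | zero =>
    have : odds (2 * 0 + 1) = ∅ := by decide
    rw [this, Finset.sum_empty, Finset.sum_range_zero]
  | succ N ih =>
    have e : odds (2 * (N + 1) + 1) = insert (2 * N + 1) (odds (2 * N + 1)) := by
      ext n
      simp only [odds, Finset.mem_filter, Finset.mem_range, Finset.mem_insert]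
      constructor
      · rintro ⟨h1, h2⟩
        obtain ⟨k, hk⟩ := h2
        by_cases h3 : n = 2 * N + 1
        · exact Or.inl h3
        · exact Or.inr ⟨by omega, ⟨k, hk⟩⟩
      · rintro (rfl | ⟨h1, h2⟩)
        · exact ⟨by omega, ⟨N, rfl⟩⟩
        · exact ⟨by omega, h2⟩
    have hn : 2 * N + 1 ∉ odds (2 * N + 1) := by
      simp [odds]
    rw [e, Finset.sum_insert hn, ih, Finset.sum_range_succ, add_comm]

theorem sum_all_aux (g : ℕ → ℂ) (N : ℕ) : ∑ n ∈ range (2 * N + 1), g n =
    g 0 + ∑ j ∈ range N, g (2 * j + 1) + ∑ j ∈ range N, g (2 * j + 2) := by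
  induction N with
  | zero => simp
  | succ N ih =>
    rw [show 2 * (N + 1) + 1 = 2 * N + 1 + 1 + 1 by ring, Finset.sum_range_succ, Finset.sum_range_succ, ih,
      Finset.sum_range_succ, Finset.sum_range_succ]
    ring_nf

/-- An even function which vanishes at `0`. -/
theorem sum_odds (hr : Odd r) (f : ZMod r → ℂ) (h0 : f 0 = 0) (he : ∀ x, f (-x) = f x) :
    2 * ∑ n ∈ odds r, f (n : ZMod r) = ∑ x : ZMod r, f x := by
  rw [sum_range_eq]
  obtain ⟨N, hN⟩ := hr
  have h1 := sum_odds_aux (fun n => f (n : ZMod r)) N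
  have h2 := sum_all_aux (fun n => f (n : ZMod r)) N
  have h3 : ∑ j ∈ range N, f ((2 * j + 2 : ℕ) : ZMod r) = ∑ j ∈ range N, f ((2 * j + 1 : ℕ) : ZMod r) := by
    rw [← Finset.sum_range_reflect]
    refine Finset.sum_congr rfl fun j hj => ?_
    rw [Finset.mem_range] at hj
    rw [← he ((2 * j + 1 : ℕ) : ZMod r)]
    refine congrArg f ?_
    have h4 : 2 * (N - 1 - j) + 2 + (2 * j + 1) = r := by omega
    have h5 : ((2 * (N - 1 - j) + 2 : ℕ) : ZMod r) + ((2 * j + 1 : ℕ) : ZMod r) = 0 := by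
      rw [← Nat.cast_add, h4, ZMod.natCast_self]
    exact eq_neg_of_add_eq_zero_left h5
  rw [← hN] at h1 h2
  rw [h1, h2, h3, Nat.cast_zero, h0]
  ring

end Pool.MP_f2058c_gt.Spl
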