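import Pool.Agent.Lib.MP_f2058c_gt_S.Lead

/-!
# Knots whose coloured Jones functions have a common power
-/

set_option autoImplicit false

namespace Pool.MP_f2058c_gt.Spl

open Finset Complex

variable {r : ℕ} [NeZero r]

/-- Functions of weight at least `M`. -/
inductive Wc (r : ℕ) [NeZero r] (M : ℕ) : (ZMod r → ℂ) → Prop
  | term (j : ℕ) (E : ℂ) (h : Dv ((qq r - 1) ^ (M - j)) E) : Wc r M (fun x => E * PP j x)
  | zero : Wc r M (fun _ => 0)
  | add {G H : ZMod r → ℂ} (hG : Wc r M G) (hH : Wc r M H) : Wc r M (fun x => G x + H x)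

theorem Wc_congr {M : ℕ} {G H : ZMod r → ℂ} (hG : Wc r M G) (h : ∀ x, H x = G x) : Wc r M H := by
  have : H = G := funext h
  rw [this]
  exact hG

theorem Wc_mono {M M' : ℕ} (h : M ≤ M') {G : ZMod r → ℂ} (hG : Wc r M' G) : Wc r M G := by
  induction hG with
  | term j E hE => exact Wc.term j E (Dv_mono (by omega) hE)
  | zero => exact Wc.zero
  | add _ _ h1 h2 => exact Wc.add h1 h2

theorem Wc_smul {M s : ℕ} {c : ℂ} (hc : Dv ((qq r - 1) ^ s) c) {G : ZMod r → ℂ} (hG : Wc r M G) :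
    Wc r (M + s) (fun x => c * G x) := by
  induction hG with
  | term j E hE =>
    refine Wc_congr (Wc.term j (c * E) ?_) fun x => by ring
    have h := Dv_mul_mul hc hE
    rw [← pow_add] at h
    exact Dv_mono (by omega) h
  | zero => exact Wc_congr Wc.zero fun x => by ring
  | add _ _ h1 h2 => exact Wc_congr (Wc.add h1 h2) fun x => by ring

theorem Wc_mul_xx {M : ℕ} (i : ZMod r) {G : ZMod r → ℂ} (hG : Wc r M G) :
    Wc r (M + 1) (fun x => G x * (xx x - xx i)) := by
  induction hG with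
  | term j E hE =>
    have h1 : Wc r (M + 1) (fun x => E * PP (j + 1) x) := Wc.term (j + 1) E (by
      have h : M + 1 - (j + 1) = M - j := by omega
      rw [h]
      exact hE)
    have h2 : Wc r (M + 1) (fun x => (E * (xx ((j + 1 : ℕ) : ZMod r) - xx i)) * PP j x) :=
      Wc.term j _ (by
        have h := Dv_mul_mul hE (Dv_xx ((j + 1 : ℕ) : ZMod r) i)
        rw [← pow_add] at h
        exact Dv_mono (by omega) h)
    refine Wc_congr (Wc.add h1 h2) fun x => ?_
    rw [PP_succ]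
    ring
  | zero => exact Wc_congr Wc.zero fun x => by ring
  | add _ _ h1 h2 => exact Wc_congr (Wc.add h1 h2) fun x => by ring

theorem Wc_mul_PP {M : ℕ} (k : ℕ) {G : ZMod r → ℂ} (hG : Wc r M G) :
    Wc r (M + k) (fun x => G x * PP k x) := by
  induction k with
  | zero => exact Wc_congr hG fun x => by rw [PP_zero, mul_one]
  | succ k ih =>
    refine Wc_congr (Wc_mul_xx ((k + 1 : ℕ) : ZMod r) ih) fun x => ?_
    rw [PP_succ]
    ring

theorem Wc_mul {M M' : ℕ} {G H : ZMod r → ℂ} (hG : Wc r M G) (hH : Wc r M' H) :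
    Wc r (M + M') (fun x => G x * H x) := by
  induction hH with
  | term j E hE =>
    have h := Wc_smul hE (Wc_mul_PP j hG)
    exact Wc_congr (Wc_mono (by omega) h) fun x => by ring
  | zero => exact Wc_congr Wc.zero fun x => by ring
  | add _ _ h1 h2 => exact Wc_congr (Wc.add h1 h2) fun x => by ring

theorem Wc_sum {ι : Type*} (s : Finset ι) {M : ℕ} (f : ι → ZMod r → ℂ) (h : ∀ i ∈ s, Wc r M (f i)) :
    Wc r M (fun x => ∑ i ∈ s, f i x) := by
  classical
  induction s using Finset.induction_on with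
  | empty => exact Wc_congr Wc.zero fun x => by rw [Finset.sum_empty]
  | insert i s hi ih =>
    exact Wc_congr (Wc.add (h i (Finset.mem_insert_self i s))
      (ih fun j hj => h j (Finset.mem_insert_of_mem hj))) fun x => by rw [Finset.sum_insert hi]

/-- Powers of `1 + ε`. -/
theorem Wc_pow {N : ℕ} {ε : ZMod r → ℂ} (h : Wc r N ε) (l : ℕ) :
    Wc r (2 * N) (fun x => (1 + ε x) ^ l - 1 - l * ε x) := by
  induction l with
  | zero => exact Wc_congr Wc.zero fun x => by push_cast; ring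
  | succ l ih =>
    have h1 : Wc r (2 * N) (fun x => ε x * ((1 + ε x) ^ l - 1 - l * ε x)) :=
      Wc_mono (by omega) (Wc_mul h ih)
    have h2 : Wc r (2 * N) (fun x => (l : ℂ) * (ε x * ε x)) := by
      have h3 := Wc_smul (r := r) (s := 0) (c := (l : ℂ)) (Dv_one_of_int (by
        have h4 := int_int (l : ℤ)
        push_cast at h4
        exact h4) _) (Wc_mul h h)
      exact Wc_mono (by omega) h3
    refine Wc_congr (Wc.add ih (Wc.add h1 h2)) fun x => ?_
    push_cast
    ring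

/-! ### The functionals -/

theorem It_add (k : ℕ) (P Q : ZMod r → ℂ) (x : ZMod r) :
    It k (fun y => P y + Q y) x = It k P x + It k Q x := by
  induction k generalizing P Q with
  | zero => rfl
  | succ k ih =>
    have h : Dl ((k + 1 : ℕ) : ZMod r) (fun y => P y + Q y) =
        fun y => Dl ((k + 1 : ℕ) : ZMod r) P y + Dl ((k + 1 : ℕ) : ZMod r) Q y := by
      funext y
      unfold Dl
      ring
    show It k (Dl ((k + 1 : ℕ) : ZMod r) (fun y => P y + Q y)) x = _
    rw [h, ih]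
    rfl

theorem It_smul (k : ℕ) (c : ℂ) (P : ZMod r → ℂ) (x : ZMod r) :
    It k (fun y => c * P y) x = c * It k P x := by
  induction k generalizing P with
  | zero => rfl
  | succ k ih =>
    have h : Dl ((k + 1 : ℕ) : ZMod r) (fun y => c * P y) =
        fun y => c * Dl ((k + 1 : ℕ) : ZMod r) P y := by
      funext y
      unfold Dl
      ring
    show It k (Dl ((k + 1 : ℕ) : ZMod r) (fun y => c * P y)) x = _
    rw [h, ih]
    rfl

/-- The pairing with the products. -/
noncomputable def ol (r : ℕ) [NeZero r] (G : ZMod r → ℂ) (k : ℕ) : ℂ :=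
  It k (fun x : ZMod r => br x / br (1 : ZMod r) * G x) 1

theorem ol_add (G H : ZMod r → ℂ) (k : ℕ) : ol r (fun x => G x + H x) k = ol r G k + ol r H k := by
  unfold ol
  rw [← It_add]
  have h : (fun x : ZMod r => br x / br (1 : ZMod r) * (G x + H x)) =
      fun x : ZMod r => br x / br (1 : ZMod r) * G x + br x / br (1 : ZMod r) * H x := by
    funext x
    ring
  rw [h]

theorem ol_smul (c : ℂ) (G : ZMod r → ℂ) (k : ℕ) : ol r (fun x => c * G x) k = c * ol r G k := by
  unfold ol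
  rw [← It_smul]
  have h : (fun x : ZMod r => br x / br (1 : ZMod r) * (c * G x)) =
      fun x : ZMod r => c * (br x / br (1 : ZMod r) * G x) := by
    funext x
    ring
  rw [h]

theorem ol_zero (k : ℕ) : ol r (fun _ => 0) k = 0 := by
  have h := ol_smul (r := r) 0 (fun _ => 0) k
  rw [zero_mul, zero_mul] at h
  exact h

theorem ol_congr {G H : ZMod r → ℂ} (h : ∀ x, br x * G x = br x * H x) (k : ℕ) :
    ol r G k = ol r H k := by
  unfold ol
  have e : (fun x : ZMod r => br x / br (1 : ZMod r) * G x) =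
      fun x : ZMod r => br x / br (1 : ZMod r) * H x := by
    funext x
    rw [div_mul_eq_mul_div, div_mul_eq_mul_div, h]
  rw [e]

theorem ol_sum {ι : Type*} (s : Finset ι) (f : ι → ZMod r → ℂ) (k : ℕ) :
    ol r (fun x => ∑ i ∈ s, f i x) k = ∑ i ∈ s, ol r (f i) k := by
  classical
  induction s using Finset.induction_on with
  | empty =>
    simp only [Finset.sum_empty]
    exact ol_zero k
  | insert i s hi ih =>
    simp only [Finset.sum_insert hi]
    rw [ol_add, ih]

theorem Dv_ol (hr : Odd r) (h3 : 3 ≤ r) {M : ℕ} {G : ZMod r → ℂ} (hG : Wc r M G) (k : ℕ) :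
    Dv ((qq r - 1) ^ (M + k)) (ol r G k) := by
  induction hG with
  | term j E hE =>
    rw [ol_smul]
    have h := Dv_mul_mul hE (Dv_om hr h3 j k)
    rw [← pow_add] at h
    refine Dv_mono ?_ h
    rcases le_total j k with h1 | h1
    · rw [max_eq_right h1]
      omega
    · rw [max_eq_left h1]
      omega
  | zero =>
    rw [ol_zero]
    exact Dv_zero _
  | add _ _ h1 h2 =>
    rw [ol_add]
    exact Dv_add h1 h2

/-- The expansion without its constant term. -/
noncomputable def ep (r : ℕ) [NeZero r] (a : ℕ → LaurentPolynomial ℤ) (x : ZMod r) : ℂ :=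
  ∑ j ∈ Ico 1 r, ev r (a j) * PP j x

theorem Dv_coef {a a' : ℕ → LaurentPolynomial ℤ} {N : ℕ}
    (hA : ∀ k, 1 ≤ k → k ≤ N → a k = (LaurentPolynomial.T 1 - 1) ^ (N - k) * a' k) {k : ℕ}
    (hk : 1 ≤ k) : Dv ((qq r - 1) ^ (N - k)) (ev r (a k)) := by
  rcases Nat.lt_or_ge N k with h | h
  · have h0 : N - k = 0 := by omega
    rw [h0]
    exact Dv_one_of_int (int_ev _) _
  · rw [hA k hk h, ev_mul, ev_lam]
    exact ⟨ev r (a' k), int_ev _, rfl⟩

theorem Wc_ep {a a' : ℕ → LaurentPolynomial ℤ} {N : ℕ}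
    (hA : ∀ k, 1 ≤ k → k ≤ N → a k = (LaurentPolynomial.T 1 - 1) ^ (N - k) * a' k) :
    Wc r N (ep r a) := by
  unfold ep
  refine Wc_sum _ _ fun j hj => ?_
  rw [Finset.mem_Ico] at hj
  exact Wc.term j _ (Dv_coef hA hj.1)

theorem Gr_ol (hr : Odd r) (h3 : 3 ≤ r) {a a' : ℕ → LaurentPolynomial ℤ} {N : ℕ}
    (hA : ∀ k, 1 ≤ k → k ≤ N → a k = (LaurentPolynomial.T 1 - 1) ^ (N - k) * a' k) {k : ℕ}
    (hk : 1 ≤ k) (hkN : k ≤ N) (hkr : k < r) :
    Gr r (N + k) (ol r (ep r a) k) (cc k * ev1 (a' k)) := by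
  unfold ep
  rw [ol_sum]
  have h1 : ∀ j ∈ Ico 1 r, Gr r (N + k) (ol r (fun x => ev r (a j) * PP j x) k)
      (if j = k then cc k * ev1 (a' k) else 0) := by
    intro j hj
    rw [Finset.mem_Ico] at hj
    rw [ol_smul]
    split_ifs with h
    · rw [h, hA k hk hkN, ev_mul, ev_lam]
      have g1 := Gr_mul (Gr_mul (Gr_lam_pow (r := r) (N - k)) (Gr_ev (r := r) (a' k))) (Gr_om hr h3 k)
      have e1 : N - k + 0 + 2 * k = N + k := by omega
      have e2 : 1 * ev1 (a' k) * (4 ^ k * ((2 * k + 1).factorial : ℤ)) = cc k * ev1 (a' k) := by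
        unfold cc
        ring
      rw [e1, e2] at g1
      exact g1
    · refine Gr_of_Dv ?_
      have d1 : Dv ((qq r - 1) ^ (N - j)) (ev r (a j)) := Dv_coef hA hj.1
      have d := Dv_mul_mul d1 (Dv_om hr h3 j k)
      rw [← pow_add] at d
      refine Dv_mono ?_ d
      rcases lt_trichotomy j k with h1 | h1 | h1
      · rw [max_eq_right h1.le]
        omega
      · exact absurd h1 h
      · rw [max_eq_left h1.le]
        omega
  have h2 := Gr_sum (Ico 1 r) _ _ h1
  rw [Finset.sum_ite_eq' (Ico 1 r) k, if_pos (Finset.mem_Ico.2 ⟨hk, hkr⟩)] at h2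
  exact h2

theorem FF_ep {a : ℕ → LaurentPolynomial ℤ} (ha : a 0 = 1) (h3 : 3 ≤ r) (x : ZMod r) :
    FF a x = 1 + ep r a x := by
  unfold FF ep
  rw [Finset.range_eq_Ico, Finset.sum_eq_sum_Ico_succ_bot (by omega), ha, ev_one, PP_zero, one_mul]

/-- The leading coefficients of two knots with a common power. -/
theorem comm_lead {a b : ℕ → LaurentPolynomial ℤ} (ha : a 0 = 1) (hb : b 0 = 1) {l m : ℕ}
    (hJ : ∀ n, 1 ≤ n → J a n ^ l = J b n ^ m) {N : ℕ} {a' b' : ℕ → LaurentPolynomial ℤ}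
    (hA : ∀ k, 1 ≤ k → k ≤ N → a k = (LaurentPolynomial.T 1 - 1) ^ (N - k) * a' k)
    (hB : ∀ k, 1 ≤ k → k ≤ N → b k = (LaurentPolynomial.T 1 - 1) ^ (N - k) * b' k)
    {k : ℕ} (hk : 1 ≤ k) (hkN : k ≤ N) : (l : ℤ) * ev1 (a' k) = m * ev1 (b' k) := by
  set S : ℤ := cc k * ((l : ℤ) * ev1 (a' k) - m * ev1 (b' k)) with hS
  obtain ⟨p, hp1, hp⟩ := Nat.exists_infinite_primes (N + S.natAbs + 3)
  have : NeZero p := ⟨hp.ne_zero⟩
  have hodd : Odd p := hp.odd_of_ne_two (by omega)
  have h3 : 3 ≤ p := by omega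
  have hFF : ∀ x : ZMod p, br x * (1 + ep p a x) ^ l = br x * (1 + ep p b x) ^ m := by
    intro x
    rcases eq_or_ne x 0 with h0 | h0
    · rw [h0, br_zero]
      ring
    · have h1 : 1 ≤ x.val := by
        rw [Nat.one_le_iff_ne_zero]
        intro h2
        exact h0 ((ZMod.val_eq_zero x).1 h2)
      have h2 : x.val < p := ZMod.val_lt x
      have h4 : ((x.val : ℕ) : ZMod p) = x := ZMod.natCast_zmod_val x
      have h5 : cj p a x.val ^ l = cj p b x.val ^ m := by
        rw [← ev_J, ← ev_J]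
        have h6 := congrArg (ev p) (hJ x.val h1)
        unfold ev at h6 ⊢
        rw [map_pow, map_pow] at h6
        exact h6
      rw [cj_eq a h1 h2, cj_eq b h1 h2, h4, FF_ep ha h3, FF_ep hb h3] at h5
      rw [h5]
  have hX : ∀ (c c' : ℕ → LaurentPolynomial ℤ) (s : ℕ),
      (∀ k, 1 ≤ k → k ≤ N → c k = (LaurentPolynomial.T 1 - 1) ^ (N - k) * c' k) →
      Gr p (N + k) (ol p (fun x => (1 + ep p c x) ^ s - 1) k) (s * (cc k * ev1 (c' k))) := by
    intro c c' s hC
    have g1 := Gr_ol (r := p) hodd h3 hC hk hkN (by omega)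
    have w1 := Dv_ol (r := p) hodd h3 (Wc_pow (Wc_ep (r := p) hC) s) k
    have g2 : Gr p (N + k) (ol p (fun x => (1 + ep p c x) ^ s - 1 - s * ep p c x) k) 0 :=
      Gr_of_Dv (Dv_mono (by omega) w1)
    have g3 := Gr_mul (Gr_int (r := p) (s : ℤ)) g1
    rw [zero_add] at g3
    have g4 := Gr_add g2 g3
    have e : ol p (fun x => (1 + ep p c x) ^ s - 1) k =
        ol p (fun x => (1 + ep p c x) ^ s - 1 - s * ep p c x) k + ((s : ℤ) : ℂ) * ol p (ep p c) k := by
      rw [← ol_smul, ← ol_add]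
      refine ol_congr (fun x => ?_) k
      push_cast
      ring
    rw [e]
    rw [zero_add] at g4
    exact g4
  have ga := hX a a' l hA
  have gb := hX b b' m hB
  have hab : ol p (fun x => (1 + ep p a x) ^ l - 1) k = ol p (fun x => (1 + ep p b x) ^ m - 1) k := by
    refine ol_congr (fun x => ?_) k
    rw [mul_sub, mul_sub, hFF]
  rw [hab] at ga
  have g := Gr_sub ga gb
  rw [sub_self] at g
  obtain ⟨w, hw, e⟩ := g
  have hq1 : qq p ≠ 1 := by
    intro h6
    have h7 := (prim p).unique (by rw [h6]; exact IsPrimitiveRoot.one)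
    omega
  have hq1' : (qq p - 1) ^ (N + k) ≠ 0 := pow_ne_zero _ (sub_ne_zero.2 hq1)
  have hS2 : (l : ℤ) * (cc k * ev1 (a' k)) - m * (cc k * ev1 (b' k)) = S := by
    rw [hS]
    ring
  rw [hS2] at e
  have h6 : (S : ℂ) + (qq p - 1) * w = 0 := by
    rcases mul_eq_zero.1 e.symm with h7 | h7
    · exact absurd h7 hq1'
    · exact h7
  have h7 : (p : ℤ) ∣ S := by
    refine p_dvd hp ⟨-w, hw.neg, ?_⟩
    linear_combination h6
  have h8 : S = 0 := by
    refine Int.eq_zero_of_abs_lt_dvd h7 ?_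
    rw [Int.abs_eq_natAbs]
    exact_mod_cast (by omega : S.natAbs < p)
  rw [hS] at h8
  rcases mul_eq_zero.1 h8 with h9 | h9
  · exact absurd h9 (cc_pos k).ne'
  · linarith

/-- **Splices of knots whose coloured Jones functions have a common power.** -/
theorem comm {a b : ℕ → LaurentPolynomial ℤ} (ha : a 0 = 1) (hb : b 0 = 1) {l m : ℕ}
    (hl : 1 ≤ l) (hm : 1 ≤ m) (hJ : ∀ n, 1 ≤ n → J a n ^ l = J b n ^ m)
    (h : ∀ R : ℕ, ∃ p, R ≤ p ∧ p.Prime ∧ tau p a b = 1) : ∀ k, 1 ≤ k → a k = 0 ∧ b k = 0 := by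
  have hN : ∀ N : ℕ, ∀ k, 1 ≤ k → k ≤ N → (LaurentPolynomial.T 1 - 1) ^ (N - k) ∣ a k ∧
      (LaurentPolynomial.T 1 - 1) ^ (N - k) ∣ b k := by
    intro N
    induction N with
    | zero =>
      intro k h1 h2
      omega
    | succ N ih =>
      have h1 : ∀ k, ∃ g, 1 ≤ k → k ≤ N → a k = (LaurentPolynomial.T 1 - 1) ^ (N - k) * g := by
        intro k
        by_cases hk : 1 ≤ k ∧ k ≤ N
        · obtain ⟨g, hg⟩ := (ih k hk.1 hk.2).1
          exact ⟨g, fun _ _ => hg⟩
        · exact ⟨0, fun h2 h3 => absurd ⟨h2, h3⟩ hk⟩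
      have h1' : ∀ k, ∃ g, 1 ≤ k → k ≤ N → b k = (LaurentPolynomial.T 1 - 1) ^ (N - k) * g := by
        intro k
        by_cases hk : 1 ≤ k ∧ k ≤ N
        · obtain ⟨g, hg⟩ := (ih k hk.1 hk.2).2
          exact ⟨g, fun _ _ => hg⟩
        · exact ⟨0, fun h2 h3 => absurd ⟨h2, h3⟩ hk⟩
      choose a' ha' using h1
      choose b' hb' using h1'
      have h2 := lead ha hb N a' b' ha' hb' h
      have hc : ∀ k, 1 ≤ k → k ≤ N → (l : ℤ) * ev1 (a' k) = m * ev1 (b' k) := fun k hk1 hk2 =>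
        comm_lead ha hb hJ ha' hb' hk1 hk2
      have hm0 : (0 : ℤ) < m := by exact_mod_cast hm
      have hl0 : (0 : ℤ) < l := by exact_mod_cast hl
      have h3' : ∑ k ∈ Icc 1 N, cc k * ((l : ℤ) * (ev1 (a' k) * ev1 (a' k))) = 0 := by
        have e : ∑ k ∈ Icc 1 N, cc k * ((l : ℤ) * (ev1 (a' k) * ev1 (a' k))) =
            (m : ℤ) * ∑ k ∈ Icc 1 N, cc k * (ev1 (a' k) * ev1 (b' k)) := by
          rw [Finset.mul_sum]
          refine Finset.sum_congr rfl fun k hk => ?_
          rw [Finset.mem_Icc] at hk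
          have h4 := hc k hk.1 hk.2
          linear_combination (cc k * ev1 (a' k)) * h4
        rw [e, h2, mul_zero]
      have h3 : ∀ k ∈ Icc 1 N, cc k * ((l : ℤ) * (ev1 (a' k) * ev1 (a' k))) = 0 := by
        refine (Finset.sum_eq_zero_iff_of_nonneg fun k _ => ?_).1 h3'
        exact mul_nonneg (cc_pos k).le (mul_nonneg hl0.le (mul_self_nonneg _))
      intro k hk1 hk2
      rcases Nat.lt_or_ge N k with h4 | h4
      · have h5 : N + 1 - k = 0 := by omega
        rw [h5, pow_zero]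
        exact ⟨one_dvd _, one_dvd _⟩
      · have h5 := h3 k (Finset.mem_Icc.2 ⟨hk1, h4⟩)
        have h6 : ev1 (a' k) = 0 := by
          rcases mul_eq_zero.1 h5 with h7 | h7
          · exact absurd h7 (cc_pos k).ne'
          · rcases mul_eq_zero.1 h7 with h8 | h8
            · exact absurd h8 hl0.ne'
            · exact mul_self_eq_zero.1 h8
        have h6' : ev1 (b' k) = 0 := by
          have h7 := hc k hk1 h4
          rw [h6, mul_zero] at h7
          rcases mul_eq_zero.1 h7.symm with h8 | h8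
          · exact absurd h8 hm0.ne'
          · exact h8
        have h7 : N + 1 - k = (N - k) + 1 := by omega
        obtain ⟨g, hg⟩ := lam_dvd h6
        obtain ⟨g', hg'⟩ := lam_dvd h6'
        refine ⟨⟨g, ?_⟩, ⟨g', ?_⟩⟩
        · rw [ha' k hk1 h4, hg, h7, pow_succ]
          ring
        · rw [hb' k hk1 h4, hg', h7, pow_succ]
          ring
  intro k hk
  refine ⟨eq_zero_of_lam fun M => ?_, eq_zero_of_lam fun M => ?_⟩
  · have h1 := (hN (k + M) k hk (by omega)).1
    have h2 : k + M - k = M := by omega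
    rwa [h2] at h1
  · have h1 := (hN (k + M) k hk (by omega)).2
    have h2 : k + M - k = M := by omega
    rwa [h2] at h1

end Pool.MP_f2058c_gt.Spl
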