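import Pool.Agent.Lib.MP_f2058c_gt_S.Num

/-!
# Leading terms at `q = 1`
-/

set_option autoImplicit false

namespace Pool.MP_f2058c_gt.Spl

open Finset Complex

variable {r : ℕ} [NeZero r]

theorem int_int (c : ℤ) : IsIntegral ℤ (c : ℂ) := isIntegral_algebraMap (R := ℤ) (x := c)

theorem int_lam : IsIntegral ℤ (qq r - 1) := int_qq.sub isIntegral_one

/-- `x` is congruent to `(q - 1) ^ d * c` modulo `(q - 1) ^ (d + 1)`. -/
def Gr (r d : ℕ) (x : ℂ) (c : ℤ) : Prop :=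
  ∃ w : ℂ, IsIntegral ℤ w ∧ x = (qq r - 1) ^ d * (c + (qq r - 1) * w)

theorem Gr_mul {d e : ℕ} {x y : ℂ} {c c' : ℤ} (h : Gr r d x c) (h' : Gr r e y c') :
    Gr r (d + e) (x * y) (c * c') := by
  obtain ⟨w, hw, e1⟩ := h
  obtain ⟨w', hw', e2⟩ := h'
  refine ⟨c * w' + c' * w + (qq r - 1) * (w * w'),
    (((int_int c).mul hw').add ((int_int c').mul hw)).add (int_lam.mul (hw.mul hw')), ?_⟩
  rw [e1, e2]
  push_cast
  ring

theorem Gr_add {d : ℕ} {x y : ℂ} {c c' : ℤ} (h : Gr r d x c) (h' : Gr r d y c') :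
    Gr r d (x + y) (c + c') := by
  obtain ⟨w, hw, e1⟩ := h
  obtain ⟨w', hw', e2⟩ := h'
  refine ⟨w + w', hw.add hw', ?_⟩
  rw [e1, e2]
  push_cast
  ring

theorem Gr_neg {d : ℕ} {x : ℂ} {c : ℤ} (h : Gr r d x c) : Gr r d (-x) (-c) := by
  obtain ⟨w, hw, e1⟩ := h
  refine ⟨-w, hw.neg, ?_⟩
  rw [e1]
  push_cast
  ring

theorem Gr_sub {d : ℕ} {x y : ℂ} {c c' : ℤ} (h : Gr r d x c) (h' : Gr r d y c') :
    Gr r d (x - y) (c - c') := by
  rw [sub_eq_add_neg, sub_eq_add_neg]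
  exact Gr_add h (Gr_neg h')

theorem Gr_of_Dv {d : ℕ} {x : ℂ} (h : Dv ((qq r - 1) ^ (d + 1)) x) : Gr r d x 0 := by
  obtain ⟨w, hw, e⟩ := h
  refine ⟨w, hw, ?_⟩
  rw [e]
  push_cast
  ring

theorem Gr_zero (d : ℕ) : Gr r d 0 0 := Gr_of_Dv (Dv_zero _)

theorem Gr_Dv {d : ℕ} {x : ℂ} {c : ℤ} (h : Gr r d x c) : Dv ((qq r - 1) ^ d) x := by
  obtain ⟨w, hw, e⟩ := h
  exact ⟨c + (qq r - 1) * w, (int_int c).add (int_lam.mul hw), e⟩

theorem Gr_int (c : ℤ) : Gr r 0 (c : ℂ) c := ⟨0, isIntegral_zero, by ring⟩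

theorem Gr_sum {ι : Type*} (s : Finset ι) {d : ℕ} (f : ι → ℂ) (c : ι → ℤ)
    (h : ∀ i ∈ s, Gr r d (f i) (c i)) : Gr r d (∑ i ∈ s, f i) (∑ i ∈ s, c i) := by
  classical
  induction s using Finset.induction_on with
  | empty =>
    rw [Finset.sum_empty, Finset.sum_empty]
    exact Gr_zero d
  | insert i s hi ih =>
    rw [Finset.sum_insert hi, Finset.sum_insert hi]
    exact Gr_add (h i (Finset.mem_insert_self i s)) (ih fun j hj => h j (Finset.mem_insert_of_mem hj))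

theorem Gr_lam : Gr r 1 (qq r - 1) 1 := ⟨0, isIntegral_zero, by push_cast; ring⟩

theorem Gr_lam_pow (d : ℕ) : Gr r d ((qq r - 1) ^ d) 1 := ⟨0, isIntegral_zero, by push_cast; ring⟩

/-- The values of the character. -/
theorem Gr_ps0 (x : ZMod r) : Gr r 0 (ps x) 1 := by
  obtain ⟨w, hw, e⟩ := Dv_ps x
  refine ⟨w, hw, ?_⟩
  push_cast
  rw [← e]
  ring

theorem Gr_ps1 (m : ℤ) : Gr r 1 (ps (m : ZMod r) - 1) m := by
  induction m using Int.induction_on with
  | zero =>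
    rw [Int.cast_zero, ps_zero, sub_self]
    exact Gr_zero 1
  | succ i ih =>
    have h1 : ps (((i : ℤ) + 1 : ℤ) : ZMod r) - 1 =
        ps ((i : ℤ) : ZMod r) * (qq r - 1) + (ps ((i : ℤ) : ZMod r) - 1) := by
      rw [Int.cast_add, Int.cast_one, ps_add, ← qq_pow]
      ring
    rw [h1]
    have h2 := Gr_add (Gr_mul (Gr_ps0 (r := r) ((i : ℤ) : ZMod r)) Gr_lam) ih
    rw [show (0 + 1 : ℕ) = 1 from rfl] at h2
    have h3 : (1 * 1 + (i : ℤ)) = (i : ℤ) + 1 := by ring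
    rwa [h3] at h2
  | pred i ih =>
    have h0 : ps ((-(i : ℤ) : ℤ) : ZMod r) = ps ((-(i : ℤ) - 1 : ℤ) : ZMod r) * qq r := by
      rw [qq_pow, ← ps_add]
      refine congrArg ps ?_
      push_cast
      ring
    have h1 : ps ((-(i : ℤ) - 1 : ℤ) : ZMod r) - 1 =
        (ps ((-(i : ℤ) : ℤ) : ZMod r) - 1) - ps ((-(i : ℤ) - 1 : ℤ) : ZMod r) * (qq r - 1) := by
      rw [h0]
      ring
    rw [h1]
    have h2 := Gr_sub ih (Gr_mul (Gr_ps0 (r := r) ((-(i : ℤ) - 1 : ℤ) : ZMod r)) Gr_lam)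
    have h3 : (-(i : ℤ) - 1 * 1) = -(i : ℤ) - 1 := by ring
    rwa [h3] at h2

theorem Gr_xx0 (x : ZMod r) : Gr r 0 (xx x) 2 := Gr_add (Gr_ps0 x) (Gr_ps0 (-x))

theorem Gr_xx (m i : ℤ) : Gr r 2 (xx (m : ZMod r) - xx (i : ZMod r)) ((m - i) * (m + i)) := by
  rw [xx_sub]
  have h1 := Gr_ps1 (r := r) (m - i)
  have h2 := Gr_ps1 (r := r) (m + i)
  rw [Int.cast_sub] at h1
  rw [Int.cast_add] at h2
  have h3 := Gr_mul (Gr_ps0 (r := r) (-(m : ZMod r))) (Gr_mul h1 h2)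
  rw [one_mul] at h3
  exact h3

/-- The polynomial `m (m^2 - 1) ... (m^2 - k^2)`. -/
def ff : ℕ → ℤ → ℤ
  | 0, m => m
  | k + 1, m => ff k m * ((m - (k + 1)) * (m + (k + 1)))

theorem PP_succ (k : ℕ) (x : ZMod r) :
    PP (k + 1) x = PP k x * (xx x - xx ((k + 1 : ℕ) : ZMod r)) := by
  unfold PP
  rw [Finset.prod_Icc_succ_top (by omega)]

/-- The quantum integers. -/
theorem Gr_br (hr : Odd r) (h3 : 3 ≤ r) (m : ℤ) :
    Gr r 0 (br (m : ZMod r) / br (1 : ZMod r)) m := by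
  have hb := br_one_ne hr h3
  obtain ⟨w, hw, e⟩ := Gr_ps1 (r := r) m
  have h1 : Gr r 0 (ps (hh r) * ps (-(hh r * (m : ZMod r)))) 1 := by
    have h := Gr_mul (Gr_ps0 (r := r) (hh r)) (Gr_ps0 (r := r) (-(hh r * (m : ZMod r))))
    rw [one_mul] at h
    exact h
  have h2 : Gr r 0 ((m : ℂ) + (qq r - 1) * w) m := ⟨w, hw, by ring⟩
  have h4 : br (m : ZMod r) / br (1 : ZMod r) =
      (ps (hh r) * ps (-(hh r * (m : ZMod r)))) * ((m : ℂ) + (qq r - 1) * w) := by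
    rw [div_eq_iff hb, br_fac hr (m : ZMod r), br_fac hr (1 : ZMod r), e, mul_one, ← qq_pow, pow_one]
    have h5 := ps_neg_mul (hh r)
    linear_combination (-(ps (-(hh r * (m : ZMod r))) * (qq r - 1) * ((m : ℂ) + (qq r - 1) * w))) * h5
  rw [h4]
  have h6 := Gr_mul h1 h2
  rw [one_mul] at h6
  exact h6

theorem Gr_brPP (hr : Odd r) (h3 : 3 ≤ r) (k : ℕ) (m : ℤ) :
    Gr r (2 * k) (br (m : ZMod r) / br (1 : ZMod r) * PP k (m : ZMod r)) (ff k m) := by
  induction k with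
  | zero =>
    rw [PP_zero, mul_one]
    exact Gr_br hr h3 m
  | succ k ih =>
    rw [PP_succ, ← mul_assoc]
    have h := Gr_mul ih (Gr_xx (r := r) m ((k : ℤ) + 1))
    have e : ((((k : ℤ) + 1 : ℤ)) : ZMod r) = ((k + 1 : ℕ) : ZMod r) := by
      push_cast
      ring
    rw [e] at h
    exact h

/-! ### The difference operators -/

/-- The adjoint of the multiplication by `xx - xx i`. -/
noncomputable def Dl (i : ZMod r) (P : ZMod r → ℂ) (k : ZMod r) : ℂ := P (k + 2) + P (k - 2) - xx i * P k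

/-- The pairing with a function which contains its factor `br`. -/
noncomputable def Bf (P G : ZMod r → ℂ) : ℂ := ∑ x : ZMod r, ∑ y : ZMod r, P x * br (x * y) * (br y * G y)

theorem BB_Bf (F G : ZMod r → ℂ) : BB F G = Bf (fun x => br x * F x) G := by
  unfold BB Bf
  exact Finset.sum_congr rfl fun x _ => Finset.sum_congr rfl fun y _ => by ring

theorem Bf_Dl (hr : Odd r) (P G : ZMod r → ℂ) (i : ZMod r) :
    Bf P (fun y => G y * (xx y - xx i)) = Bf (Dl i P) G := by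
  unfold Bf
  rw [Finset.sum_comm]
  conv_rhs => rw [Finset.sum_comm]
  refine Finset.sum_congr rfl fun y _ => ?_
  have e1 : ∑ x : ZMod r, P (x + 2) * br (x * y) = ∑ x : ZMod r, P x * br ((x - 2) * y) := by
    have h := Equiv.sum_comp (Equiv.subRight (2 : ZMod r)) (fun x => P (x + 2) * br (x * y))
    rw [← h]
    refine Finset.sum_congr rfl fun x _ => ?_
    simp only [Equiv.subRight_apply, sub_add_cancel]
  have e2 : ∑ x : ZMod r, P (x - 2) * br (x * y) = ∑ x : ZMod r, P x * br ((x + 2) * y) := by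
    have h := Equiv.sum_comp (Equiv.addRight (2 : ZMod r)) (fun x => P (x - 2) * br (x * y))
    rw [← h]
    refine Finset.sum_congr rfl fun x _ => ?_
    simp only [Equiv.coe_addRight, add_sub_cancel_right]
  have e3 : ∑ x : ZMod r, Dl i P x * br (x * y) * (br y * G y) =
      (∑ x : ZMod r, P (x + 2) * br (x * y) + ∑ x : ZMod r, P (x - 2) * br (x * y) -
        xx i * ∑ x : ZMod r, P x * br (x * y)) * (br y * G y) := by
    rw [Finset.mul_sum, ← Finset.sum_add_distrib, ← Finset.sum_sub_distrib, Finset.sum_mul]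
    refine Finset.sum_congr rfl fun x _ => ?_
    unfold Dl
    ring
  rw [e3, e1, e2, Finset.mul_sum, ← Finset.sum_add_distrib, ← Finset.sum_sub_distrib, Finset.sum_mul]
  refine Finset.sum_congr rfl fun x _ => ?_
  have h := br_mul_xx hr x y
  linear_combination (P x * br y * G y) * h

theorem Dl_odd {P : ZMod r → ℂ} (hP : ∀ x, P (-x) = -P x) (i : ZMod r) (x : ZMod r) :
    Dl i P (-x) = -Dl i P x := by
  unfold Dl
  have e1 : -x + 2 = -(x - 2) := by ring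
  have e2 : -x - 2 = -(x + 2) := by ring
  rw [e1, e2, hP, hP, hP]
  ring

theorem Bf_one (hr : Odd r) {P : ZMod r → ℂ} (hP : ∀ x, P (-x) = -P x) :
    Bf P (fun _ => 1) = -4 * r * P 1 := by
  unfold Bf
  have h : ∀ x : ZMod r, ∑ y : ZMod r, P x * br (x * y) * (br y * 1) =
      2 * (r : ℂ) * (P x * ((if x = -1 then 1 else 0) - (if x = 1 then 1 else 0))) := by
    intro x
    have h1 := sum_br hr x 1
    have h2 : ∑ y : ZMod r, P x * br (x * y) * (br y * 1) =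
        P x * ∑ y : ZMod r, br (x * y) * br (1 * y) := by
      rw [Finset.mul_sum]
      refine Finset.sum_congr rfl fun y _ => ?_
      rw [one_mul]
      ring
    rw [h2, h1]
    ring
  rw [Finset.sum_congr rfl fun x _ => h x, ← Finset.mul_sum, sum_ite_br P 1, hP]
  ring

/-- The iterated operators. -/
noncomputable def It : ℕ → (ZMod r → ℂ) → (ZMod r → ℂ)
  | 0, P => P
  | k + 1, P => It k (Dl ((k + 1 : ℕ) : ZMod r) P)

theorem Bf_PP (hr : Odd r) (k : ℕ) {P : ZMod r → ℂ} (hP : ∀ x, P (-x) = -P x) :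
    Bf P (PP k) = -4 * r * It k P 1 := by
  induction k generalizing P with
  | zero =>
    have h : (PP 0 : ZMod r → ℂ) = fun _ => 1 := funext fun x => PP_zero x
    rw [h, Bf_one hr hP]
    rfl
  | succ k ih =>
    have h : (PP (k + 1) : ZMod r → ℂ) = fun n => PP k n * (xx n - xx ((k + 1 : ℕ) : ZMod r)) :=
      funext fun x => PP_succ k x
    rw [h, Bf_Dl hr, ih (Dl_odd hP _)]
    rfl

/-- The second difference with step two. -/
def dd (f : ℤ → ℤ) (m : ℤ) : ℤ := f (m + 2) + f (m - 2) - 2 * f m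

theorem Gr_It (k : ℕ) {d : ℕ} {P : ZMod r → ℂ} {f : ℤ → ℤ} (h : ∀ m : ℤ, Gr r d (P (m : ZMod r)) (f m))
    (m : ℤ) : Gr r d (It k P (m : ZMod r)) (dd^[k] f m) := by
  induction k generalizing P f with
  | zero => exact h m
  | succ k ih =>
    rw [Function.iterate_succ_apply]
    refine ih (P := Dl ((k + 1 : ℕ) : ZMod r) P) (f := dd f) fun m => ?_
    have h1 := h (m + 2)
    have h2 := h (m - 2)
    rw [Int.cast_add] at h1
    rw [Int.cast_sub] at h2
    have e : (((2 : ℤ)) : ZMod r) = 2 := by norm_num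
    rw [e] at h1 h2
    have h3 := Gr_mul (Gr_xx0 (r := r) ((k + 1 : ℕ) : ZMod r)) (h m)
    rw [zero_add] at h3
    exact Gr_sub (Gr_add h1 h2) h3

end Pool.MP_f2058c_gt.Spl
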