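import Mathlib

/-!
# The quantum SO(3) invariants of splices of knots in the 3-sphere

`a`, `b` are the coefficient sequences of the cyclotomic expansions of the coloured Jones
polynomials of two knots.
-/

set_option autoImplicit false

namespace Pool.MP_f2058c_gt.Spl

open Finset Complex

/-- `q = exp (2 π i / r)`. -/
noncomputable def qq (r : ℕ) : ℂ := Complex.exp (2 * Real.pi * Complex.I / r)

/-- The quantum integer `[n] = (q^(n/2) - q^(-n/2)) / (q^(1/2) - q^(-1/2))`. -/
noncomputable def qi (r n : ℕ) : ℂ :=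
  (Complex.exp (Real.pi * Complex.I * n / r) - Complex.exp (-(Real.pi * Complex.I * n / r))) /
    (Complex.exp (Real.pi * Complex.I / r) - Complex.exp (-(Real.pi * Complex.I / r)))

/-- The value at `q` of a Laurent polynomial with integral coefficients. -/
noncomputable def ev (r : ℕ) (f : LaurentPolynomial ℤ) : ℂ :=
  LaurentPolynomial.eval₂ (Int.castRingHom ℂ) (Units.mk0 (qq r) (Complex.exp_ne_zero _)) f

/-- The coloured Jones polynomial with cyclotomic coefficients `a`, in dimension `n` (normalised,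
equal to `1` for the unknot). -/
noncomputable def J (a : ℕ → LaurentPolynomial ℤ) (n : ℕ) : LaurentPolynomial ℤ :=
  ∑ k ∈ range n, a k * ∏ i ∈ Icc 1 k, (LaurentPolynomial.T (n : ℤ) + LaurentPolynomial.T (-(n : ℤ)) -
    LaurentPolynomial.T (i : ℤ) - LaurentPolynomial.T (-(i : ℤ)))

/-- The odd numbers in `(0, r)`. -/
def odds (r : ℕ) : Finset ℕ := (range r).filter (fun n => Odd n)

/-- The invariant of the splice, from the surgery on the Hopf link with the two knots tied in its
components and framings `0`, `0`. -/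
noncomputable def tau (r : ℕ) (a b : ℕ → LaurentPolynomial ℤ) : ℂ :=
  (∑ n ∈ odds r, qi r n ^ 2 * qq r ^ ((n ^ 2 - 1) / 4))⁻¹ *
    (∑ n ∈ odds r, qi r n ^ 2 * (qq r ^ ((n ^ 2 - 1) / 4))⁻¹)⁻¹ *
    ∑ m ∈ odds r, ∑ n ∈ odds r, qi r m * qi r n *
      (qi r (m * n) * ev r (J a m) * ev r (J b n))

end Pool.MP_f2058c_gt.Spl
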