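import Pool.Agent.Lib.MP_f2058c_gt_S.Cong

/-!
# The leading terms of the form on the products
-/

set_option autoImplicit false

namespace Pool.MP_f2058c_gt.Spl

open Finset Complex

/-! ### Iterated differences of the products -/

theorem ff_up (j : ℕ) (m : ℤ) : ff (j + 1) (m + 1) = ff j m * ((m + j + 1) * (m + j + 2)) := by
  induction j with
  | zero =>
    show (m + 1) * (((m + 1) - ((0 : ℕ) + 1)) * ((m + 1) + ((0 : ℕ) + 1))) = m * _
    push_cast
    ring
  | succ j ih =>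
    have h1 : ff (j + 1 + 1) (m + 1) =
        ff (j + 1) (m + 1) * (((m + 1) - (((j + 1 : ℕ) : ℤ) + 1)) * ((m + 1) + (((j + 1 : ℕ) : ℤ) + 1))) := rfl
    have h2 : ff (j + 1) m = ff j m * ((m - ((j : ℤ) + 1)) * (m + ((j : ℤ) + 1))) := rfl
    rw [h1, ih, h2]
    push_cast
    ring

theorem ff_down (j : ℕ) (m : ℤ) : ff (j + 1) (m - 1) = ff j m * ((m - j - 1) * (m - j - 2)) := by
  induction j with
  | zero =>
    show (m - 1) * (((m - 1) - ((0 : ℕ) + 1)) * ((m - 1) + ((0 : ℕ) + 1))) = m * _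
    push_cast
    ring
  | succ j ih =>
    have h1 : ff (j + 1 + 1) (m - 1) =
        ff (j + 1) (m - 1) * (((m - 1) - (((j + 1 : ℕ) : ℤ) + 1)) * ((m - 1) + (((j + 1 : ℕ) : ℤ) + 1))) := rfl
    have h2 : ff (j + 1) m = ff j m * ((m - ((j : ℤ) + 1)) * (m + ((j : ℤ) + 1))) := rfl
    rw [h1, ih, h2]
    push_cast
    ring

/-- The second difference. -/
def ss (f : ℤ → ℤ) (m : ℤ) : ℤ := f (m + 1) - 2 * f m + f (m - 1)

theorem ss_ff (j : ℕ) (m : ℤ) : ss (ff (j + 1)) m = (2 * j + 3) * (2 * j + 2) * ff j m := by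
  have h2 : ff (j + 1) m = ff j m * ((m - ((j : ℤ) + 1)) * (m + ((j : ℤ) + 1))) := rfl
  unfold ss
  rw [ff_up, ff_down, h2]
  ring

theorem dd_ss (f : ℤ → ℤ) (m : ℤ) : dd f m = ss (ss f) m + 4 * ss f m := by
  unfold dd ss
  have e1 : m + 1 + 1 = m + 2 := by ring
  have e2 : m + 1 - 1 = m := by ring
  have e3 : m - 1 + 1 = m := by ring
  have e4 : m - 1 - 1 = m - 2 := by ring
  rw [e1, e2, e3, e4]
  ring

theorem dd_ff0 : dd (ff 0) = fun m => 0 * ff 0 m + 0 * ff 0 m := by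
  funext m
  show (m + 2) + (m - 2) - 2 * m = _
  ring

theorem dd_ff1 : dd (ff 1) = fun m => 24 * ff 0 m + 0 * ff 0 m := by
  funext m
  rw [dd_ss]
  have h : ss (ff 1) = fun m => 6 * ff 0 m := by
    funext m
    rw [ss_ff]
    push_cast
    ring
  rw [h]
  show 6 * (m + 1) - 2 * (6 * m) + 6 * (m - 1) + 4 * (6 * m) = 24 * m + 0 * m
  ring

theorem dd_ff2 (j : ℕ) : dd (ff (j + 2)) = fun m =>
    ((2 * j + 5) * (2 * j + 4) * ((2 * j + 3) * (2 * j + 2))) * ff j m +
      (4 * ((2 * j + 5) * (2 * j + 4))) * ff (j + 1) m := by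
  funext m
  rw [dd_ss]
  have h : ss (ff (j + 2)) = fun m => ((2 * j + 5) * (2 * j + 4)) * ff (j + 1) m := by
    funext m
    rw [ss_ff]
    push_cast
    ring
  rw [h]
  have h2 : ss (fun m => ((2 * (j : ℤ) + 5) * (2 * j + 4)) * ff (j + 1) m) m =
      ((2 * (j : ℤ) + 5) * (2 * j + 4)) * ss (ff (j + 1)) m := by
    unfold ss
    ring
  rw [h2, ss_ff]
  ring

theorem dd_lin (k : ℕ) (c d : ℤ) (f g : ℤ → ℤ) :
    dd^[k] (fun m => c * f m + d * g m) = fun m => c * dd^[k] f m + d * dd^[k] g m := by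
  induction k generalizing f g with
  | zero => rfl
  | succ k ih =>
    rw [Function.iterate_succ_apply]
    have h : dd (fun m => c * f m + d * g m) = fun m => c * dd f m + d * dd g m := by
      funext m
      unfold dd
      ring
    rw [h, ih]
    rfl

theorem dd_iter (k : ℕ) : (∀ j, j < k → ∀ m, dd^[k] (ff j) m = 0) ∧
    ∀ m, dd^[k] (ff k) m = 4 ^ k * ((2 * k + 1).factorial : ℤ) * ff 0 m := by
  induction k with
  | zero =>
    refine ⟨fun j hj => absurd hj (Nat.not_lt_zero j), fun m => ?_⟩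
    show ff 0 m = _
    simp
  | succ k ih =>
    obtain ⟨h1, h2⟩ := ih
    refine ⟨?_, ?_⟩
    · intro j hj m
      rw [Function.iterate_succ_apply]
      match j, hj with
      | 0, _ =>
        rw [dd_ff0, dd_lin]
        ring
      | 1, hj =>
        rw [dd_ff1, dd_lin]
        show 24 * dd^[k] (ff 0) m + 0 * dd^[k] (ff 0) m = 0
        rw [h1 0 (by omega)]
        ring
      | j + 2, hj =>
        rw [dd_ff2, dd_lin]
        show _ * dd^[k] (ff j) m + _ * dd^[k] (ff (j + 1)) m = 0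
        rw [h1 j (by omega), h1 (j + 1) (by omega)]
        ring
    · intro m
      rw [Function.iterate_succ_apply]
      match k with
      | 0 =>
        rw [dd_ff1]
        show 24 * ff 0 m + 0 * ff 0 m = _
        have h3 : (2 * (0 + 1) + 1).factorial = 6 := by decide
        rw [h3]
        push_cast
        ring
      | k + 1 =>
        rw [dd_ff2, dd_lin]
        show _ * dd^[k + 1] (ff k) m + _ * dd^[k + 1] (ff (k + 1)) m = _
        rw [h1 k (by omega), h2]
        have h3 : (2 * (k + 1 + 1) + 1).factorial =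
            (2 * k + 5) * (2 * k + 4) * (2 * (k + 1) + 1).factorial := by
          rw [show 2 * (k + 1 + 1) + 1 = (2 * (k + 1) + 1) + 1 + 1 by ring, Nat.factorial_succ,
            Nat.factorial_succ]
          ring
        rw [h3]
        push_cast
        ring

/-! ### The values of the form -/

variable {r : ℕ} [NeZero r]

/-- The normalised values of the form on the products. -/
noncomputable def om (r : ℕ) [NeZero r] (j k : ℕ) : ℂ :=
  It k (fun x : ZMod r => br x / br (1 : ZMod r) * PP j x) 1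

theorem BB_om (hr : Odd r) (h3 : 3 ≤ r) (j k : ℕ) :
    BB (r := r) (PP j) (PP k) = -4 * r * br (1 : ZMod r) * om r j k := by
  have hb := br_one_ne hr h3
  have hodd : ∀ x : ZMod r, br (-x) / br (1 : ZMod r) * PP j (-x) =
      -(br x / br (1 : ZMod r) * PP j x) := by
    intro x
    rw [br_neg, PP_neg]
    ring
  have h1 : Bf (fun x : ZMod r => br x / br (1 : ZMod r) * PP j x) (PP k) = -4 * r * om r j k :=
    Bf_PP hr k hodd
  have h2 : BB (r := r) (PP j) (PP k) =
      br (1 : ZMod r) * Bf (fun x : ZMod r => br x / br (1 : ZMod r) * PP j x) (PP k) := by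
    unfold BB Bf
    rw [Finset.mul_sum]
    refine Finset.sum_congr rfl fun x _ => ?_
    rw [Finset.mul_sum]
    refine Finset.sum_congr rfl fun y _ => ?_
    field_simp
  rw [h2, h1]
  ring

theorem Gr_om1 (hr : Odd r) (h3 : 3 ≤ r) (j k : ℕ) : Gr r (2 * j) (om r j k) (dd^[k] (ff j) 1) := by
  have h := Gr_It (r := r) (P := fun x : ZMod r => br x / br (1 : ZMod r) * PP j x) (f := ff j) k
    (Gr_brPP hr h3 j) 1
  rw [Int.cast_one] at h
  exact h

theorem Gr_om (hr : Odd r) (h3 : 3 ≤ r) (k : ℕ) :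
    Gr r (2 * k) (om r k k) (4 ^ k * ((2 * k + 1).factorial : ℤ)) := by
  have h := Gr_om1 hr h3 k k
  rw [(dd_iter k).2 1] at h
  have h1 : (4 : ℤ) ^ k * ((2 * k + 1).factorial : ℤ) * ff 0 1 = 4 ^ k * ((2 * k + 1).factorial : ℤ) := by
    show _ * (1 : ℤ) = _
    ring
  rwa [h1] at h

theorem om_symm (hr : Odd r) (h3 : 3 ≤ r) (j k : ℕ) : om r j k = om r k j := by
  have hb := br_one_ne hr h3
  have h0 : (r : ℂ) ≠ 0 := Nat.cast_ne_zero.2 (NeZero.ne r)
  have h1 := BB_om hr h3 j k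
  rw [BB_comm, BB_om hr h3 k j] at h1
  have h2 : (-4 * (r : ℂ) * br (1 : ZMod r)) ≠ 0 := by
    refine mul_ne_zero (mul_ne_zero (by norm_num) h0) hb
  exact (mul_left_cancel₀ h2 h1).symm

theorem Dv_om (hr : Odd r) (h3 : 3 ≤ r) (j k : ℕ) : Dv ((qq r - 1) ^ (2 * max j k)) (om r j k) := by
  rcases le_total j k with h | h
  · rw [max_eq_right h, om_symm hr h3]
    exact Gr_Dv (Gr_om1 hr h3 k j)
  · rw [max_eq_left h]
    exact Gr_Dv (Gr_om1 hr h3 j k)

/-! ### The invariant as a double sum -/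

theorem BB_sum {ι : Type*} (s : Finset ι) (F : ZMod r → ℂ) (c : ι → ℂ) (G : ι → ZMod r → ℂ) :
    BB F (fun x => ∑ i ∈ s, c i * G i x) = ∑ i ∈ s, c i * BB F (G i) := by
  classical
  induction s using Finset.induction_on with
  | empty =>
    simp only [Finset.sum_empty]
    unfold BB
    simp
  | insert i s hi ih =>
    simp only [Finset.sum_insert hi]
    rw [BB_add, BB_smul, ih]

theorem tau_sum (hr : Odd r) (h3 : 3 ≤ r) {a b : ℕ → LaurentPolynomial ℤ} (ha : a 0 = 1)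
    (hb : b 0 = 1) : tau r a b = 1 + ∑ j ∈ Ico 1 r, ∑ k ∈ Ico 1 r,
      ev r (a j) * ev r (b k) * om r j k := by
  have h0 : (r : ℂ) ≠ 0 := Nat.cast_ne_zero.2 (NeZero.ne r)
  have hb1 := br_one_ne hr h3
  have hFF : ∀ (c : ℕ → LaurentPolynomial ℤ), c 0 = 1 → ∀ x : ZMod r,
      FF c x = 1 + ∑ k ∈ Ico 1 r, ev r (c k) * PP k x := by
    intro c hc x
    unfold FF
    rw [Finset.range_eq_Ico, Finset.sum_eq_sum_Ico_succ_bot (by omega), hc, ev_one, PP_zero, one_mul]
  have hneg : ∀ (c : ℕ → LaurentPolynomial ℤ) (x : ZMod r),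
      ∑ k ∈ Ico 1 r, ev r (c k) * PP k (-x) = ∑ k ∈ Ico 1 r, ev r (c k) * PP k x := fun c x =>
    Finset.sum_congr rfl fun k _ => by rw [PP_neg]
  have hone : ∀ (c : ℕ → LaurentPolynomial ℤ),
      ∑ k ∈ Ico 1 r, ev r (c k) * PP k (1 : ZMod r) = 0 := by
    intro c
    refine Finset.sum_eq_zero fun k hk => ?_
    rw [Finset.mem_Ico] at hk
    rw [PP_at_one hk.1, mul_zero]
  have hB : BB (r := r) (FF a) (FF b) = -4 * r * br (1 : ZMod r) +
      ∑ j ∈ Ico 1 r, ∑ k ∈ Ico 1 r, ev r (a j) * ev r (b k) *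
        (-4 * r * br (1 : ZMod r) * om r j k) := by
    rw [BB_congr (F := FF a) (hFF b hb), BB_add (FF a) (fun _ => 1)
      (fun x => ∑ k ∈ Ico 1 r, ev r (b k) * PP k x), BB_one hr _ (FF_neg a), hFF a ha 1, hone,
      BB_comm (FF a), BB_congr (hFF a ha), BB_add _ (fun _ => 1)
      (fun x => ∑ k ∈ Ico 1 r, ev r (a k) * PP k x), BB_one hr _ (hneg b), hone,
      BB_sum (Ico 1 r) _ (fun k => ev r (a k)) (fun k => PP k)]
    have h5 : ∀ j, BB (r := r) (fun x => ∑ k ∈ Ico 1 r, ev r (b k) * PP k x) (PP j) =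
        ∑ k ∈ Ico 1 r, ev r (b k) * (-4 * r * br (1 : ZMod r) * om r j k) := by
      intro j
      rw [BB_comm, BB_sum (Ico 1 r) _ (fun k => ev r (b k)) (fun k => PP k)]
      exact Finset.sum_congr rfl fun k _ => by rw [BB_om hr h3]
    have h6 : ∑ j ∈ Ico 1 r, ev r (a j) *
        BB (r := r) (fun x => ∑ k ∈ Ico 1 r, ev r (b k) * PP k x) (PP j) =
        ∑ j ∈ Ico 1 r, ∑ k ∈ Ico 1 r, ev r (a j) * ev r (b k) *
        (-4 * r * br (1 : ZMod r) * om r j k) := by
      refine Finset.sum_congr rfl fun j _ => ?_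
      rw [h5, Finset.mul_sum]
      exact Finset.sum_congr rfl fun k _ => by ring
    rw [h6]
    ring
  rw [tau_eq hr h3, hB]
  have h7 : ∑ j ∈ Ico 1 r, ∑ k ∈ Ico 1 r, ev r (a j) * ev r (b k) *
        (-4 * r * br (1 : ZMod r) * om r j k) = (-4 * r * br (1 : ZMod r)) *
      ∑ j ∈ Ico 1 r, ∑ k ∈ Ico 1 r, ev r (a j) * ev r (b k) * om r j k := by
    rw [Finset.mul_sum]
    refine Finset.sum_congr rfl fun j _ => ?_
    rw [Finset.mul_sum]
    exact Finset.sum_congr rfl fun k _ => by ring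
  rw [h7]
  field_simp
  ring

end Pool.MP_f2058c_gt.Spl
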