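import Pool.Agent.Lib.MP_f2058c_gt_S.Form

/-!
# The evaluation of the bilinear form up to algebraic integers
-/

set_option autoImplicit false

namespace Pool.MP_f2058c_gt.Spl

open Finset Complex

variable {r : ℕ} [NeZero r]

theorem sum_ite_br (F : ZMod r → ℂ) (k : ZMod r) :
    ∑ x : ZMod r, F x * ((if x = -k then 1 else 0) - (if x = k then 1 else 0)) = F (-k) - F k := by
  simp only [mul_sub, mul_ite, mul_one, mul_zero, Finset.sum_sub_distrib]
  rw [Finset.sum_ite_eq' Finset.univ (-k) F, Finset.sum_ite_eq' Finset.univ k F]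
  simp

theorem BB_eval (hr : Odd r) (F G : ZMod r → ℂ) (hF : ∀ x, F (-x) = F x) (c : ZMod r → ℂ)
    (hG : ∀ y, br y * G y = ∑ k : ZMod r, c k * br (k * y)) :
    BB F G = ∑ k : ZMod r, c k * (-4 * r * br k * F k) := by
  have h1 : BB F G = ∑ x : ZMod r, ∑ y : ZMod r, ∑ k : ZMod r,
      c k * (br x * F x * (br (x * y) * br (k * y))) := by
    unfold BB
    refine Finset.sum_congr rfl fun x _ => Finset.sum_congr rfl fun y _ => ?_
    have h2 : br x * br y * br (x * y) * F x * G y = br x * br (x * y) * F x * (br y * G y) := by ring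
    rw [h2, hG y, Finset.mul_sum]
    exact Finset.sum_congr rfl fun k _ => by ring
  have h3 : BB F G = ∑ k : ZMod r, c k * ∑ x : ZMod r, br x * F x *
      ∑ y : ZMod r, br (x * y) * br (k * y) := by
    rw [h1]
    have h4 : ∀ x : ZMod r, ∑ y : ZMod r, ∑ k : ZMod r,
        c k * (br x * F x * (br (x * y) * br (k * y))) =
        ∑ k : ZMod r, c k * (br x * F x * ∑ y : ZMod r, br (x * y) * br (k * y)) := by
      intro x
      rw [Finset.sum_comm]
      refine Finset.sum_congr rfl fun k _ => ?_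
      rw [← Finset.mul_sum, ← Finset.mul_sum]
    rw [Finset.sum_congr rfl fun x _ => h4 x, Finset.sum_comm]
    refine Finset.sum_congr rfl fun k _ => ?_
    rw [← Finset.mul_sum]
  rw [h3]
  refine Finset.sum_congr rfl fun k _ => ?_
  refine congrArg (fun z => c k * z) ?_
  have h5 : ∀ x : ZMod r, br x * F x * ∑ y : ZMod r, br (x * y) * br (k * y) =
      2 * (r : ℂ) * (br x * F x * ((if x = -k then 1 else 0) - (if x = k then 1 else 0))) := by
    intro x
    rw [sum_br hr]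
    ring
  rw [Finset.sum_congr rfl fun x _ => h5 x, ← Finset.mul_sum, sum_ite_br (fun x => br x * F x) k]
  show 2 * (r : ℂ) * (br (-k) * F (-k) - br k * F k) = -4 * r * br k * F k
  rw [br_neg, hF]
  ring

theorem BB_one (hr : Odd r) (F : ZMod r → ℂ) (hF : ∀ x, F (-x) = F x) :
    BB F (fun _ => 1) = -4 * r * br (1 : ZMod r) * F 1 := by
  rw [BB_eval hr F (fun _ => 1) hF (fun k => if k = 1 then 1 else 0)]
  · simp only [ite_mul, one_mul, zero_mul]
    rw [Finset.sum_ite_eq' Finset.univ (1 : ZMod r)]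
    simp
  · intro y
    simp only [ite_mul, one_mul, zero_mul]
    rw [Finset.sum_ite_eq' Finset.univ (1 : ZMod r)]
    simp

theorem br_mul_PP_one (hr : Odd r) (y : ZMod r) :
    br y * PP 1 y = br (3 * y) - (1 + xx (1 : ZMod r)) * br (1 * y) := by
  have h := br_mul_xx hr (1 : ZMod r) y
  have e1 : (1 + 2 : ZMod r) * y = 3 * y := by ring
  have e2 : (1 - 2 : ZMod r) * y = -(1 * y) := by ring
  rw [e1, e2, br_neg] at h
  rw [PP_one]
  rw [one_mul] at h ⊢
  linear_combination h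

theorem BB_PP_one (hr : Odd r) (F : ZMod r → ℂ) (hF : ∀ x, F (-x) = F x) :
    BB F (PP 1) = -4 * r * br (3 : ZMod r) * (F 3 - F 1) := by
  have h3 := br_three hr
  rw [BB_eval hr F (PP 1) hF
    (fun k => (if k = 3 then 1 else 0) - (1 + xx (1 : ZMod r)) * (if k = 1 then 1 else 0))]
  · simp only [sub_mul, ite_mul, mul_ite, one_mul, zero_mul, mul_one, mul_zero, Finset.sum_sub_distrib]
    rw [Finset.sum_ite_eq' Finset.univ (3 : ZMod r), Finset.sum_ite_eq' Finset.univ (1 : ZMod r)]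
    simp only [Finset.mem_univ, if_true]
    rw [h3]
    ring
  · intro y
    rw [br_mul_PP_one hr]
    simp only [sub_mul, ite_mul, mul_ite, one_mul, zero_mul, mul_one, mul_zero, Finset.sum_sub_distrib]
    rw [Finset.sum_ite_eq' Finset.univ (3 : ZMod r), Finset.sum_ite_eq' Finset.univ (1 : ZMod r)]
    simp only [Finset.mem_univ, if_true, one_mul]

/-! ### Integrality -/

theorem int_ps (x : ZMod r) : IsIntegral ℤ (ps x) := by
  refine IsIntegral.of_pow (Nat.pos_of_ne_zero (NeZero.ne r)) ?_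
  have h : ps x ^ r = 1 := by
    unfold ps
    rw [← AddChar.map_nsmul_eq_pow, nsmul_eq_mul, ZMod.natCast_self, zero_mul, AddChar.map_zero_eq_one]
  rw [h]
  exact isIntegral_one

theorem int_br (x : ZMod r) : IsIntegral ℤ (br x) := (int_ps _).sub (int_ps _)

theorem int_xx (x : ZMod r) : IsIntegral ℤ (xx x) := (int_ps _).add (int_ps _)

theorem qq_pow (r : ℕ) [NeZero r] : qq r = ps (1 : ZMod r) := by
  have h := ps_nat (r := r) 1
  rw [pow_one, Nat.cast_one] at h
  exact h.symm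

theorem int_qq : IsIntegral ℤ (qq r) := by
  rw [qq_pow]
  exact int_ps _

theorem int_PP (k : ℕ) (x : ZMod r) : IsIntegral ℤ (PP k x) :=
  IsIntegral.prod _ fun _ _ => (int_xx _).sub (int_xx _)

theorem int_ev (f : LaurentPolynomial ℤ) : IsIntegral ℤ (ev r f) := by
  induction f using LaurentPolynomial.induction_on' with
  | add p q hp hq =>
    have h : ev r (p + q) = ev r p + ev r q := by
      unfold ev
      rw [map_add]
    rw [h]
    exact hp.add hq
  | C_mul_T n a =>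
    have h : ev r (LaurentPolynomial.C a * LaurentPolynomial.T n) = (a : ℂ) * qq r ^ n := by
      unfold ev
      rw [LaurentPolynomial.eval₂_C_mul_T]
      simp
    rw [h]
    refine IsIntegral.mul (isIntegral_algebraMap (R := ℤ) (x := a)) ?_
    obtain ⟨m, rfl | rfl⟩ := n.eq_nat_or_neg
    · rw [zpow_natCast]
      exact int_qq.pow m
    · rw [zpow_neg, zpow_natCast, ← ps_nat, ← ps_neg]
      exact int_ps _

/-- Divisibility by `ρ` among the algebraic integers. -/
def Dv (ρ z : ℂ) : Prop := ∃ w : ℂ, IsIntegral ℤ w ∧ z = ρ * w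

theorem Dv_mul {ρ z : ℂ} (h : Dv ρ z) {u : ℂ} (hu : IsIntegral ℤ u) : Dv ρ (z * u) := by
  obtain ⟨w, h1, h2⟩ := h
  exact ⟨w * u, h1.mul hu, by rw [h2, mul_assoc]⟩

theorem Dv_mul_left {ρ z : ℂ} (h : Dv ρ z) {u : ℂ} (hu : IsIntegral ℤ u) : Dv ρ (u * z) := by
  rw [mul_comm]
  exact Dv_mul h hu

theorem Dv_zero (ρ : ℂ) : Dv ρ 0 := ⟨0, isIntegral_zero, by rw [mul_zero]⟩

theorem Dv_add {ρ z z' : ℂ} (h : Dv ρ z) (h' : Dv ρ z') : Dv ρ (z + z') := by
  obtain ⟨w, h1, h2⟩ := h
  obtain ⟨w', h1', h2'⟩ := h'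
  exact ⟨w + w', h1.add h1', by rw [h2, h2', mul_add]⟩

theorem Dv_neg {ρ z : ℂ} (h : Dv ρ z) : Dv ρ (-z) := by
  obtain ⟨w, h1, h2⟩ := h
  exact ⟨-w, h1.neg, by rw [h2, mul_neg]⟩

theorem Dv_sum {ι : Type*} (s : Finset ι) (ρ : ℂ) (f : ι → ℂ) (h : ∀ i ∈ s, Dv ρ (f i)) :
    Dv ρ (∑ i ∈ s, f i) := by
  classical
  induction s using Finset.induction_on with
  | empty =>
    rw [Finset.sum_empty]
    exact Dv_zero ρ
  | insert i s hi ih =>
    rw [Finset.sum_insert hi]
    exact Dv_add (h i (Finset.mem_insert_self i s)) (ih fun j hj => h j (Finset.mem_insert_of_mem hj))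

theorem Dv_mul_mul {ρ ρ' z z' : ℂ} (h : Dv ρ z) (h' : Dv ρ' z') : Dv (ρ * ρ') (z * z') := by
  obtain ⟨w, h1, h2⟩ := h
  obtain ⟨w', h1', h2'⟩ := h'
  exact ⟨w * w', h1.mul h1', by rw [h2, h2']; ring⟩

theorem Dv_ps (n : ZMod r) : Dv (qq r - 1) (ps n - 1) := by
  refine ⟨∑ i ∈ range n.val, qq r ^ i, IsIntegral.sum _ fun i _ => int_qq.pow i, ?_⟩
  rw [mul_comm, geom_sum_mul, ← ps_nat, ZMod.natCast_zmod_val]

theorem br_fac (hr : Odd r) (k : ZMod r) : br k = ps (-(hh r * k)) * (ps k - 1) := by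
  have h2 := two_hh hr
  unfold br
  rw [mul_sub, mul_one, ← ps_add]
  refine congrArg (fun z => ps z - ps (-(hh r * k))) ?_
  linear_combination k * h2

theorem Dv_br (hr : Odd r) (k : ZMod r) : Dv (br (1 : ZMod r)) (br k) := by
  obtain ⟨w, h1, h2⟩ := Dv_ps k
  refine ⟨ps (hh r) * ps (-(hh r * k)) * w, ((int_ps _).mul (int_ps _)).mul h1, ?_⟩
  rw [br_fac hr k, br_fac hr (1 : ZMod r), h2, mul_one, ← qq_pow]
  have h3 := ps_neg_mul (hh r)
  linear_combination -(ps (-(hh r * k))) * (qq r - 1) * w * h3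

theorem xx_sub (x y : ZMod r) : xx x - xx y = ps (-x) * ((ps (x - y) - 1) * (ps (x + y) - 1)) := by
  have e1 : ps (x - y) = ps x * ps (-y) := by rw [← ps_add, sub_eq_add_neg]
  have e2 : ps (x + y) = ps x * ps y := ps_add x y
  have h3 := ps_neg_mul x
  have h4 := ps_neg_mul y
  rw [e1, e2]
  unfold xx
  linear_combination (ps (-y) + ps y - ps x * ps y * ps (-y)) * h3 - ps x * h4

theorem Dv_xx (x y : ZMod r) : Dv ((qq r - 1) ^ 2) (xx x - xx y) := by
  rw [xx_sub, pow_two]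
  exact Dv_mul_left (Dv_mul_mul (Dv_ps _) (Dv_ps _)) (int_ps _)

theorem Dv_PP {k : ℕ} (hk : 2 ≤ k) (x : ZMod r) : Dv ((qq r - 1) ^ 4) (PP k x) := by
  have h1 : Icc 1 k = insert 1 (insert 2 (Icc 3 k)) := by
    ext i
    simp only [Finset.mem_Icc, Finset.mem_insert]
    omega
  have h2 : PP k x = ((xx x - xx ((1 : ℕ) : ZMod r)) * (xx x - xx ((2 : ℕ) : ZMod r))) *
      ∏ i ∈ Icc 3 k, (xx x - xx (i : ZMod r)) := by
    unfold PP
    rw [h1, Finset.prod_insert (by simp), Finset.prod_insert (by simp), mul_assoc]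
  rw [h2, show (qq r - 1) ^ 4 = (qq r - 1) ^ 2 * (qq r - 1) ^ 2 by ring]
  exact Dv_mul (Dv_mul_mul (Dv_xx _ _) (Dv_xx _ _))
    (IsIntegral.prod _ fun _ _ => (int_xx _).sub (int_xx _))

/-! ### Functions with integral coefficients -/

/-- Functions whose product with `br` is an integral combination of the functions `br (k n)`. -/
def Sp (G : ZMod r → ℂ) : Prop := ∃ c : ZMod r → ℂ, (∀ k, IsIntegral ℤ (c k)) ∧
  ∀ n, br n * G n = ∑ k : ZMod r, c k * br (k * n)

theorem Sp_one : Sp (fun _ : ZMod r => (1 : ℂ)) := by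
  refine ⟨fun k => if k = 1 then 1 else 0, fun k => ?_, fun n => ?_⟩
  · dsimp only
    split_ifs
    · exact isIntegral_one
    · exact isIntegral_zero
  · simp only [ite_mul, one_mul, zero_mul]
    rw [Finset.sum_ite_eq' Finset.univ (1 : ZMod r)]
    simp

theorem Sp_add {G H : ZMod r → ℂ} (hG : Sp G) (hH : Sp H) : Sp (fun n => G n + H n) := by
  obtain ⟨c, h1, h2⟩ := hG
  obtain ⟨d, h3, h4⟩ := hH
  refine ⟨fun k => c k + d k, fun k => (h1 k).add (h3 k), fun n => ?_⟩
  rw [mul_add, h2, h4, ← Finset.sum_add_distrib]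
  exact Finset.sum_congr rfl fun k _ => by ring

theorem Sp_smul {G : ZMod r → ℂ} (hG : Sp G) {z : ℂ} (hz : IsIntegral ℤ z) :
    Sp (fun n => z * G n) := by
  obtain ⟨c, h1, h2⟩ := hG
  refine ⟨fun k => z * c k, fun k => hz.mul (h1 k), fun n => ?_⟩
  rw [mul_left_comm, h2, Finset.mul_sum]
  exact Finset.sum_congr rfl fun k _ => by ring

theorem Sp_zero : Sp (fun _ : ZMod r => (0 : ℂ)) := by
  have h := Sp_smul (Sp_one (r := r)) isIntegral_zero
  simpa using h

theorem Sp_sum {ι : Type*} (s : Finset ι) (f : ι → ZMod r → ℂ) (h : ∀ i ∈ s, Sp (f i)) :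
    Sp (fun n => ∑ i ∈ s, f i n) := by
  classical
  induction s using Finset.induction_on with
  | empty =>
    simp only [Finset.sum_empty]
    exact Sp_zero
  | insert i s hi ih =>
    simp only [Finset.sum_insert hi]
    exact Sp_add (h i (Finset.mem_insert_self i s)) (ih fun j hj => h j (Finset.mem_insert_of_mem hj))

theorem Sp_mul (hr : Odd r) {G : ZMod r → ℂ} (hG : Sp G) (i : ZMod r) :
    Sp (fun n => G n * (xx n - xx i)) := by
  obtain ⟨c, h1, h2⟩ := hG
  refine ⟨fun k => c (k - 2) + c (k + 2) - xx i * c k,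
    fun k => ((h1 _).add (h1 _)).sub ((int_xx i).mul (h1 k)), fun n => ?_⟩
  have e1 : ∑ k : ZMod r, c (k - 2) * br (k * n) = ∑ k : ZMod r, c k * br ((k + 2) * n) := by
    have h := Equiv.sum_comp (Equiv.addRight (2 : ZMod r)) (fun k => c (k - 2) * br (k * n))
    rw [← h]
    refine Finset.sum_congr rfl fun k _ => ?_
    simp only [Equiv.coe_addRight, add_sub_cancel_right]
  have e2 : ∑ k : ZMod r, c (k + 2) * br (k * n) = ∑ k : ZMod r, c k * br ((k - 2) * n) := by
    have h := Equiv.sum_comp (Equiv.subRight (2 : ZMod r)) (fun k => c (k + 2) * br (k * n))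
    rw [← h]
    refine Finset.sum_congr rfl fun k _ => ?_
    simp only [Equiv.subRight_apply, sub_add_cancel]
  have e3 : ∑ k : ZMod r, (c (k - 2) + c (k + 2) - xx i * c k) * br (k * n) =
      ∑ k : ZMod r, c k * br ((k + 2) * n) + ∑ k : ZMod r, c k * br ((k - 2) * n) -
        xx i * ∑ k : ZMod r, c k * br (k * n) := by
    rw [← e1, ← e2, Finset.mul_sum, ← Finset.sum_add_distrib, ← Finset.sum_sub_distrib]
    exact Finset.sum_congr rfl fun k _ => by ring
  have e4 : (∑ k : ZMod r, c k * br (k * n)) * xx n =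
      ∑ k : ZMod r, c k * br ((k + 2) * n) + ∑ k : ZMod r, c k * br ((k - 2) * n) := by
    rw [Finset.sum_mul, ← Finset.sum_add_distrib]
    refine Finset.sum_congr rfl fun k _ => ?_
    have h3 := br_mul_xx hr k n
    linear_combination c k * h3
  show br n * (G n * (xx n - xx i)) = ∑ k : ZMod r, (c (k - 2) + c (k + 2) - xx i * c k) * br (k * n)
  rw [e3, ← e4, ← h2]
  ring

theorem Sp_PP (hr : Odd r) (k : ℕ) : Sp (PP k : ZMod r → ℂ) := by
  induction k with
  | zero =>
    have h : (PP 0 : ZMod r → ℂ) = fun _ => 1 := funext fun x => PP_zero x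
    rw [h]
    exact Sp_one
  | succ k ih =>
    have h : (PP (k + 1) : ZMod r → ℂ) = fun n => PP k n * (xx n - xx ((k + 1 : ℕ) : ZMod r)) := by
      funext n
      unfold PP
      rw [Finset.prod_Icc_succ_top (by omega)]
    rw [h]
    exact Sp_mul hr ih _

/-- The values of the form are divisible. -/
theorem Dv_BB (hr : Odd r) {ρ : ℂ} {F G : ZMod r → ℂ} (hF : ∀ x, F (-x) = F x) (hG : Sp G)
    (hρ : ∀ k, Dv ρ (F k)) : Dv (-4 * r * br (1 : ZMod r) * ρ) (BB F G) := by
  obtain ⟨c, h1, h2⟩ := hG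
  rw [BB_eval hr F G hF c h2]
  refine Dv_sum _ _ _ fun k _ => ?_
  have h3 : Dv (br (1 : ZMod r) * ρ) (br k * F k) := Dv_mul_mul (Dv_br hr k) (hρ k)
  obtain ⟨w, h4, h5⟩ := h3
  refine ⟨c k * w, (h1 k).mul h4, ?_⟩
  linear_combination c k * (-4 * r) * h5

end Pool.MP_f2058c_gt.Spl
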