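import Pool.Agent.Lib.MP_f2058c_gt_S.Defs

/-!
# Gluings of two knot exteriors with a framing
-/

set_option autoImplicit false

namespace Pool.MP_f2058c_gt.Spl

open Finset Complex

/-- The invariant of the surgery on the Hopf link with two knots tied in its components, with
framing `n` on the first and `0` on the second component. -/
noncomputable def tauF (r : ℕ) (n : ℤ) (a b : ℕ → LaurentPolynomial ℤ) : ℂ :=
  (∑ k ∈ odds r, qi r k ^ 2 * qq r ^ ((k ^ 2 - 1) / 4))⁻¹ *
    (∑ k ∈ odds r, qi r k ^ 2 * (qq r ^ ((k ^ 2 - 1) / 4))⁻¹)⁻¹ *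
    ∑ m ∈ odds r, ∑ k ∈ odds r, qi r m * qi r k *
      ((qq r ^ ((m ^ 2 - 1) / 4)) ^ n * qi r (m * k) * ev r (J a m) * ev r (J b k))

end Pool.MP_f2058c_gt.Spl
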