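import Pool.Agent.Lib.MP_f2058c_gt_S.Comm

/-!
# Final statements
-/

set_option autoImplicit false

namespace Pool.MP_f2058c_gt.Spl

open Finset Complex

theorem J_one {a : ℕ → LaurentPolynomial ℤ} (ha : a 0 = 1) (h : ∀ k, 1 ≤ k → a k = 0) {n : ℕ}
    (hn : 1 ≤ n) : J a n = 1 := by
  unfold J
  rw [Finset.sum_eq_single 0]
  · rw [ha, one_mul]
    simp
  · intro k _ hk
    rw [h k (Nat.one_le_iff_ne_zero.2 hk), zero_mul]
  · intro h0
    exact absurd (Finset.mem_range.2 hn) h0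

/-- The splice of two knots with trivial coloured Jones polynomials. -/
theorem triv {r : ℕ} (hr : Odd r) (h3 : 3 ≤ r) {a b : ℕ → LaurentPolynomial ℤ}
    (h : ∀ n, 1 ≤ n → J a n = 1 ∧ J b n = 1) : tau r a b = 1 := by
  have : NeZero r := ⟨by omega⟩
  set e : ℕ → LaurentPolynomial ℤ := fun k => if k = 0 then 1 else 0 with he
  have he0 : e 0 = 1 := if_pos rfl
  have hek : ∀ k, 1 ≤ k → e k = 0 := fun k hk => if_neg (Nat.one_le_iff_ne_zero.1 hk)
  have h1 : tau r a b = tau r e e := by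
    have hs : ∑ m ∈ odds r, ∑ n ∈ odds r, qi r m * qi r n *
          (qi r (m * n) * ev r (J a m) * ev r (J b n)) =
        ∑ m ∈ odds r, ∑ n ∈ odds r, qi r m * qi r n *
          (qi r (m * n) * ev r (J e m) * ev r (J e n)) := by
      refine Finset.sum_congr rfl fun m hm => Finset.sum_congr rfl fun n hn => ?_
      have hodd : ∀ s ∈ odds r, 1 ≤ s := by
        intro s hs
        unfold odds at hs
        rw [Finset.mem_filter] at hs
        obtain ⟨k, hk⟩ := hs.2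
        omega
      rw [(h m (hodd m hm)).1, (h n (hodd n hn)).2, J_one he0 hek (hodd m hm),
        J_one he0 hek (hodd n hn)]
    unfold tau
    rw [hs]
  rw [h1, tau_sum hr h3 he0 he0, Finset.sum_eq_zero, add_zero]
  intro j hj
  refine Finset.sum_eq_zero fun k _ => ?_
  rw [Finset.mem_Ico] at hj
  have h2 : ev r (0 : LaurentPolynomial ℤ) = 0 := by
    unfold ev
    rw [map_zero]
  rw [hek j hj.1, h2, zero_mul, zero_mul]

theorem final {a b : ℕ → LaurentPolynomial ℤ} (ha : a 0 = 1) (hb : b 0 = 1) {l m : ℕ}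
    (hl : 1 ≤ l) (hm : 1 ≤ m) (hJ : ∀ n, 1 ≤ n → J a n ^ l = J b n ^ m) :
    ((∀ n, 1 ≤ n → J a n = 1 ∧ J b n = 1) → ∀ r, Odd r → 3 ≤ r → tau r a b = 1) ∧
    ((∃ n, 1 ≤ n ∧ ¬(J a n = 1 ∧ J b n = 1)) →
      ∃ p₀ : ℕ, ∀ p : ℕ, p.Prime → p₀ ≤ p → tau p a b ≠ 1) := by
  refine ⟨fun h r hr h3 => triv hr h3 h, ?_⟩
  rintro ⟨n, hn, h⟩
  by_contra hc
  rw [not_exists] at hc
  have h1 : ∀ R : ℕ, ∃ p, R ≤ p ∧ p.Prime ∧ tau p a b = 1 := by
    intro R
    by_contra h2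
    refine hc R fun p hp hR ht => h2 ⟨p, hR, hp, ht⟩
  have h2 := comm ha hb hl hm hJ h1
  exact h ⟨J_one ha (fun k hk => (h2 k hk).1) hn, J_one hb (fun k hk => (h2 k hk).2) hn⟩

end Pool.MP_f2058c_gt.Spl
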