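import Pool.Agent.Lib.MP_f2058c_gt_S.FQ
import Pool.Agent.Lib.MP_f2058c_gt_S.Fin

/-!
# Surgeries on knots and framed gluings: finiteness
-/

set_option autoImplicit false

namespace Pool.MP_f2058c_gt.Spl

open Finset Complex

/-- The coefficients of the leading polynomial. -/
def ek (k : ℕ) : ℤ := (2 * (k : ℤ) + 1) * wq k

theorem ek_pos (k : ℕ) : 0 < ek k := by
  unfold ek
  have h := wq_pos k
  positivity

theorem leadF {a b : ℕ → LaurentPolynomial ℤ} (ha : a 0 = 1) (hb : b 0 = 1) (N : ℕ)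
    (b' : ℕ → LaurentPolynomial ℤ)
    (hB : ∀ k, 1 ≤ k → k ≤ N → b k = (LaurentPolynomial.T 1 - 1) ^ (N - k) * b' k) (n : ℤ)
    (h : ∀ R : ℕ, ∃ p, R ≤ p ∧ p.Prime ∧ tauF p n a b = 1) :
    ∑ k ∈ Icc 1 N, ek k * ev1 (b' k) * n ^ k = 0 := by
  set S : ℤ := ∑ k ∈ Icc 1 N, ev1 (b' k) * (2 * (2 * k + 1) * (wq k * n ^ k)) with hS
  have hS2 : S = 2 * ∑ k ∈ Icc 1 N, ek k * ev1 (b' k) * n ^ k := by
    rw [hS, Finset.mul_sum]
    refine Finset.sum_congr rfl fun k _ => ?_
    unfold ek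
    ring
  have hS0 : S = 0 := by
    obtain ⟨p, hp1, hp, ht⟩ := h (N + S.natAbs + 3)
    have : NeZero p := ⟨hp.ne_zero⟩
    have hodd : Odd p := hp.odd_of_ne_two (by omega)
    have h3 : 3 ≤ p := by omega
    have h1 := tauF_sum (r := p) hodd h3 n ha hb
    rw [ht] at h1
    have h2 : Gr p N (∑ k ∈ Ico 1 p, ev p (b k) * (2 * ol p (fun x : ZMod p => th n x * FF a x) k))
        (∑ k ∈ Ico 1 p, if k ≤ N then ev1 (b' k) * (2 * (2 * k + 1) * (wq k * n ^ k)) else 0) := by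
      refine Gr_sum _ _ _ fun k hk => ?_
      rw [Finset.mem_Ico] at hk
      have g1 := Gr_olF (r := p) hodd h3 n ha k
      split_ifs with hkN
      · rw [hB k hk.1 hkN, ev_mul, ev_lam]
        have g2 := Gr_mul (Gr_mul (Gr_lam_pow (r := p) (N - k)) (Gr_ev (r := p) (b' k))) g1
        have e1 : N - k + 0 + k = N := by omega
        rw [e1, one_mul] at g2
        exact g2
      · exact Gr_of_Dv (Dv_mul_left (Dv_mono (by omega) (Gr_Dv g1)) (int_ev _))
    have h4 : ∑ k ∈ Ico 1 p, (if k ≤ N then ev1 (b' k) * (2 * (2 * k + 1) * (wq k * n ^ k)) else 0) =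
        S := by
      rw [← Finset.sum_filter, hS]
      refine Finset.sum_congr ?_ fun _ _ => rfl
      ext k
      rw [Finset.mem_filter, Finset.mem_Ico, Finset.mem_Icc]
      constructor
      · rintro ⟨h6, h7⟩
        exact ⟨h6.1, h7⟩
      · rintro ⟨h6, h7⟩
        exact ⟨⟨h6, by omega⟩, h7⟩
    rw [h4] at h2
    have h5 : ∑ k ∈ Ico 1 p, ev p (b k) * (2 * ol p (fun x : ZMod p => th n x * FF a x) k) = 0 := by
      have e : ∑ k ∈ Ico 1 p, ev p (b k) * (2 * ol p (fun x : ZMod p => th n x * FF a x) k) =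
          2 * ∑ k ∈ Ico 1 p, ev p (b k) * ol p (fun x : ZMod p => th n x * FF a x) k := by
        rw [Finset.mul_sum]
        exact Finset.sum_congr rfl fun k _ => by ring
      rw [e]
      linear_combination -2 * h1
    rw [h5] at h2
    obtain ⟨w, hw, e⟩ := h2
    have hq1 : qq p ≠ 1 := by
      intro h6
      have h7 := (prim p).unique (by rw [h6]; exact IsPrimitiveRoot.one)
      omega
    have hq1' : (qq p - 1) ^ N ≠ 0 := pow_ne_zero _ (sub_ne_zero.2 hq1)
    have h6 : (S : ℂ) + (qq p - 1) * w = 0 := by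
      rcases mul_eq_zero.1 e.symm with h7 | h7
      · exact absurd h7 hq1'
      · exact h7
    have h7 : (p : ℤ) ∣ S := by
      refine p_dvd hp ⟨-w, hw.neg, ?_⟩
      linear_combination h6
    refine Int.eq_zero_of_abs_lt_dvd h7 ?_
    rw [Int.abs_eq_natAbs]
    exact_mod_cast (by omega : S.natAbs < p)
  rw [hS0] at hS2
  linarith

/-- The exceptional framings. -/
def Ex (a b : ℕ → LaurentPolynomial ℤ) : Set ℤ :=
  {n | n ≠ 0 ∧ ∀ R : ℕ, ∃ p, R ≤ p ∧ p.Prime ∧ tauF p n a b = 1}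

theorem bound {a b : ℕ → LaurentPolynomial ℤ} (ha : a 0 = 1) (hb : b 0 = 1) {k M : ℕ} (hk : 1 ≤ k)
    (hM : ¬ (LaurentPolynomial.T 1 - 1) ^ (M + 1) ∣ b k) :
    (Ex a b).Finite ∧ (Ex a b).ncard ≤ M + k - 1 := by
  set P : ℕ → Prop := fun N => ∀ j, 1 ≤ j → j ≤ N → (LaurentPolynomial.T 1 - 1) ^ (N - j) ∣ b j with hP
  have h1 : P 1 := by
    intro j hj1 hj2
    have e : 1 - j = 0 := by omega
    rw [e, pow_zero]
    exact one_dvd _
  have h2 : ¬ P (M + k + 1) := by
    intro h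
    have h3 := h k hk (by omega)
    have e : M + k + 1 - k = M + 1 := by omega
    rw [e] at h3
    exact hM h3
  obtain ⟨N, hN1, hN2, hPN, hPN'⟩ : ∃ N, 1 ≤ N ∧ N < M + k + 1 ∧ P N ∧ ¬ P (N + 1) := by
    by_contra hc
    refine h2 ?_
    have h3 : ∀ N, 1 ≤ N → N ≤ M + k + 1 → P N := by
      intro N hN
      induction N, hN using Nat.le_induction with
      | base => exact fun _ => h1
      | succ N hN ih =>
        intro h4
        by_contra h5
        exact hc ⟨N, hN, by omega, ih (by omega), h5⟩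
    exact h3 (M + k + 1) (by omega) (le_refl _)
  have hx : ∀ j, ∃ g, 1 ≤ j → j ≤ N → b j = (LaurentPolynomial.T 1 - 1) ^ (N - j) * g := by
    intro j
    by_cases hj : 1 ≤ j ∧ j ≤ N
    · obtain ⟨g, hg⟩ := hPN j hj.1 hj.2
      exact ⟨g, fun _ _ => hg⟩
    · exact ⟨0, fun h2 h3 => absurd ⟨h2, h3⟩ hj⟩
  choose b' hb' using hx
  obtain ⟨j, hj1, hj2, hj3⟩ : ∃ j, 1 ≤ j ∧ j ≤ N ∧ ev1 (b' j) ≠ 0 := by
    by_contra hc
    refine hPN' fun j hj1 hj2 => ?_
    rcases Nat.lt_or_ge N j with h3 | h3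
    · have e : N + 1 - j = 0 := by omega
      rw [e, pow_zero]
      exact one_dvd _
    · have h4 : ev1 (b' j) = 0 := by
        by_contra h5
        exact hc ⟨j, hj1, h3, h5⟩
      obtain ⟨g, hg⟩ := lam_dvd h4
      refine ⟨g, ?_⟩
      have h7 : N + 1 - j = (N - j) + 1 := by omega
      rw [hb' j hj1 h3, hg, h7, pow_succ]
      ring
  -- the leading polynomial
  set L : Polynomial ℤ := ∑ i ∈ Icc 1 N, Polynomial.C (ek i * ev1 (b' i)) * Polynomial.X ^ (i - 1) with hL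
  have hcoef : L.coeff (j - 1) = ek j * ev1 (b' j) := by
    rw [hL, Polynomial.finsetSum_coeff]
    rw [Finset.sum_eq_single j]
    · rw [Polynomial.coeff_C_mul, Polynomial.coeff_X_pow, if_pos rfl, mul_one]
    · intro i hi hij
      rw [Finset.mem_Icc] at hi
      rw [Polynomial.coeff_C_mul, Polynomial.coeff_X_pow, if_neg (by omega), mul_zero]
    · intro h
      exact absurd (Finset.mem_Icc.2 ⟨hj1, hj2⟩) h
  have hL0 : L ≠ 0 := by
    intro h
    rw [h, Polynomial.coeff_zero] at hcoef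
    exact (mul_ne_zero (ek_pos j).ne' hj3) hcoef.symm
  have hdeg : L.natDegree ≤ N - 1 := by
    refine Polynomial.natDegree_sum_le_of_forall_le _ _ fun i hi => ?_
    rw [Finset.mem_Icc] at hi
    refine (Polynomial.natDegree_C_mul_X_pow_le _ _).trans ?_
    omega
  have hsub : Ex a b ⊆ ↑(L.roots.toFinset) := by
    rintro n ⟨hn0, hn⟩
    have h3 := leadF ha hb N b' hb' n hn
    have h4 : L.eval n * n = 0 := by
      rw [← h3, hL, Polynomial.eval_finsetSum, Finset.sum_mul]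
      refine Finset.sum_congr rfl fun i hi => ?_
      rw [Finset.mem_Icc] at hi
      rw [Polynomial.eval_mul, Polynomial.eval_C, Polynomial.eval_pow, Polynomial.eval_X]
      have e : n ^ i = n ^ (i - 1) * n := by
        rw [← pow_succ]
        congr 1
        omega
      rw [e]
      ring
    have h5 : L.eval n = 0 := (mul_eq_zero.1 h4).resolve_right hn0
    rw [Finset.mem_coe, Multiset.mem_toFinset, Polynomial.mem_roots hL0]
    exact h5
  refine ⟨(Finset.finite_toSet _).subset hsub, ?_⟩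
  have h3 := Set.ncard_le_ncard hsub (Finset.finite_toSet _)
  rw [Set.ncard_coe_finset] at h3
  have h4 := Multiset.toFinset_card_le L.roots
  have h5 := Polynomial.card_roots' L
  omega

theorem finalF {a b : ℕ → LaurentPolynomial ℤ} (ha : a 0 = 1) (hb : b 0 = 1)
    (h : ∃ m, 1 ≤ m ∧ J b m ≠ 1) : (Ex a b).Finite := by
  obtain ⟨m, hm, hJ⟩ := h
  obtain ⟨k, hk, hbk⟩ : ∃ k, 1 ≤ k ∧ b k ≠ 0 := by
    by_contra hc
    refine hJ (J_one hb (fun k hk => ?_) hm)
    by_contra h1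
    exact hc ⟨k, hk, h1⟩
  obtain ⟨M, hM⟩ : ∃ M : ℕ, ¬ (LaurentPolynomial.T 1 - 1) ^ M ∣ b k := by
    by_contra hc
    refine hbk (eq_zero_of_lam fun M => ?_)
    by_contra h1
    exact hc ⟨M, h1⟩
  refine (bound ha hb (k := k) (M := M) hk fun h1 => hM ?_).1
  exact (pow_dvd_pow _ (Nat.le_succ M)).trans h1

end Pool.MP_f2058c_gt.Spl
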