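import Pool.Agent.Lib.MP_f2058c_gt_S.FDefs
import Pool.Agent.Lib.MP_f2058c_gt_S.Comm

/-!
# The invariant of the framed gluings as a sum over the residues modulo `r`
-/

set_option autoImplicit false

namespace Pool.MP_f2058c_gt.Spl

open Finset Complex

variable {r : ℕ} [NeZero r]

/-- The normalised double sum of two even functions. -/
theorem gen_eq (hr : Odd r) (f g : ZMod r → ℂ) (hf : ∀ x, f (-x) = f x) (hg : ∀ x, g (-x) = g x) :
    4 * ∑ m ∈ odds r, ∑ n ∈ odds r, qi r m * qi r n *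
      (qi r (m * n) * f (m : ZMod r) * g (n : ZMod r)) = BB f g / br (1 : ZMod r) ^ 3 := by
  set T : ZMod r → ZMod r → ℂ := fun x y =>
    br x * br y * br (x * y) * f x * g y / br (1 : ZMod r) ^ 3 with hT
  have hm : ∀ n ∈ odds r, Odd n := by
    intro n hn
    unfold odds at hn
    rw [Finset.mem_filter] at hn
    exact hn.2
  have h2 : ∑ m ∈ odds r, ∑ n ∈ odds r, qi r m * qi r n *
      (qi r (m * n) * f (m : ZMod r) * g (n : ZMod r)) =
      ∑ m ∈ odds r, ∑ n ∈ odds r, T (m : ZMod r) (n : ZMod r) := by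
    refine Finset.sum_congr rfl fun m hm1 => Finset.sum_congr rfl fun n hn1 => ?_
    have a3 := hm m hm1
    have b3 := hm n hn1
    rw [qi_eq hr a3, qi_eq hr b3, qi_eq hr (a3.mul b3), hT, Nat.cast_mul]
    ring
  rw [h2]
  have h3 : ∀ x : ZMod r, 2 * ∑ n ∈ odds r, T x (n : ZMod r) = ∑ y : ZMod r, T x y := by
    intro x
    refine sum_odds hr (fun y => T x y) ?_ ?_
    · show br x * br (0 : ZMod r) * br (x * 0) * f x * g (0 : ZMod r) / br (1 : ZMod r) ^ 3 = 0
      rw [br_zero]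
      ring
    · intro y
      show br x * br (-y) * br (x * -y) * f x * g (-y) / br (1 : ZMod r) ^ 3 =
        br x * br y * br (x * y) * f x * g y / br (1 : ZMod r) ^ 3
      rw [mul_neg x y, br_neg, br_neg, hg]
      ring
  have h4 : 2 * ∑ m ∈ odds r, (∑ y : ZMod r, T (m : ZMod r) y) = ∑ x : ZMod r, ∑ y : ZMod r, T x y := by
    refine sum_odds hr (fun x => ∑ y : ZMod r, T x y) ?_ ?_
    · refine Finset.sum_eq_zero fun y _ => ?_
      show br (0 : ZMod r) * br y * br (0 * y) * f (0 : ZMod r) * g y / br (1 : ZMod r) ^ 3 = 0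
      rw [br_zero]
      ring
    · intro x
      refine Finset.sum_congr rfl fun y _ => ?_
      show br (-x) * br y * br (-x * y) * f (-x) * g y / br (1 : ZMod r) ^ 3 =
        br x * br y * br (x * y) * f x * g y / br (1 : ZMod r) ^ 3
      rw [neg_mul x y, br_neg, br_neg, hf]
      ring
  have h5 : ∑ x : ZMod r, ∑ y : ZMod r, T x y = BB f g / br (1 : ZMod r) ^ 3 := by
    unfold BB
    rw [Finset.sum_div]
    refine Finset.sum_congr rfl fun x _ => ?_
    rw [Finset.sum_div]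
  rw [← h5, ← h4]
  have h6 : ∑ m ∈ odds r, (∑ y : ZMod r, T (m : ZMod r) y) =
      2 * ∑ m ∈ odds r, ∑ n ∈ odds r, T (m : ZMod r) (n : ZMod r) := by
    rw [Finset.mul_sum]
    exact Finset.sum_congr rfl fun m _ => (h3 _).symm
  rw [h6]
  ring

/-- The framing factor. -/
noncomputable def th (n : ℤ) (x : ZMod r) : ℂ := ps (hh r * hh r * (x * x) - hh r * hh r) ^ n

theorem th_neg (n : ℤ) (x : ZMod r) : th n (-x) = th n x := by
  unfold th
  rw [neg_mul_neg]

theorem th_one (n : ℤ) : th n (1 : ZMod r) = 1 := by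
  unfold th
  rw [mul_one, mul_one, sub_self, ps_zero, one_zpow]

theorem norm_eq (hr : Odd r) (h3 : 3 ≤ r) :
    (∑ n ∈ odds r, qi r n ^ 2 * qq r ^ ((n ^ 2 - 1) / 4)) *
      (∑ n ∈ odds r, qi r n ^ 2 * (qq r ^ ((n ^ 2 - 1) / 4))⁻¹) = -(r : ℂ) / br (1 : ZMod r) ^ 2 := by
  have hb := br_one_ne hr h3
  rw [gplus hr h3, gminus hr h3]
  have h5 := gs_mul hr
  have h6 := br_sq hr (1 : ZMod r)
  have h7 := ps_neg_mul (hh r * hh r)
  have h8 := ps_neg_mul (1 : ZMod r)
  have h9 : (ps (-1 : ZMod r) - 1) * (ps (1 : ZMod r) - 1) = - br (1 : ZMod r) ^ 2 := by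
    rw [h6]
    linear_combination h8
  rw [div_mul_div_comm]
  have h10 : gs r * ps (-(hh r * hh r)) * (ps (-1 : ZMod r) - 1) *
      (gs' r * ps (hh r * hh r) * (ps (1 : ZMod r) - 1)) =
      (gs r * gs' r) * (ps (-(hh r * hh r)) * ps (hh r * hh r)) *
      ((ps (-1 : ZMod r) - 1) * (ps (1 : ZMod r) - 1)) := by
    ring
  rw [h10, h5, h7, h9]
  field_simp

theorem tauF_eq (hr : Odd r) (h3 : 3 ≤ r) (n : ℤ) (a b : ℕ → LaurentPolynomial ℤ) :
    tauF r n a b = - BB (fun x : ZMod r => th n x * FF a x) (FF b) / (4 * r * br (1 : ZMod r)) := by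
  have hb := br_one_ne hr h3
  have h0 : (r : ℂ) ≠ 0 := Nat.cast_ne_zero.2 (NeZero.ne r)
  have h4 := gen_eq hr (fun x : ZMod r => th n x * FF a x) (FF b)
    (fun x => by rw [th_neg, FF_neg]) (FF_neg b)
  have hs : ∑ m ∈ odds r, ∑ k ∈ odds r, qi r m * qi r k *
      ((qq r ^ ((m ^ 2 - 1) / 4)) ^ n * qi r (m * k) * ev r (J a m) * ev r (J b k)) =
      ∑ m ∈ odds r, ∑ k ∈ odds r, qi r m * qi r k *
      (qi r (m * k) * (th n (m : ZMod r) * FF a (m : ZMod r)) * FF b (k : ZMod r)) := by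
    have hm : ∀ n ∈ odds r, 1 ≤ n ∧ n < r ∧ Odd n := by
      intro n hn
      unfold odds at hn
      rw [Finset.mem_filter, Finset.mem_range] at hn
      refine ⟨?_, hn.1, hn.2⟩
      obtain ⟨k, hk⟩ := hn.2
      omega
    refine Finset.sum_congr rfl fun m hm1 => Finset.sum_congr rfl fun k hk1 => ?_
    obtain ⟨a1, a2, a3⟩ := hm m hm1
    obtain ⟨b1, b2, b3⟩ := hm k hk1
    have e : (qq r ^ ((m ^ 2 - 1) / 4)) =
        ps (hh r * hh r * ((m : ZMod r) * (m : ZMod r)) - hh r * hh r) := by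
      rw [← ps_nat, quarter hr a3]
    rw [ev_J, ev_J, cj_eq a a1 a2, cj_eq b b1 b2, e]
    unfold th
    ring
  unfold tauF
  rw [← mul_inv, norm_eq hr h3, hs]
  have h5 : ∑ m ∈ odds r, ∑ k ∈ odds r, qi r m * qi r k *
      (qi r (m * k) * (th n (m : ZMod r) * FF a (m : ZMod r)) * FF b (k : ZMod r)) =
      BB (fun x : ZMod r => th n x * FF a x) (FF b) / (4 * br (1 : ZMod r) ^ 3) := by
    field_simp at h4 ⊢
    linear_combination h4
  rw [h5]
  field_simp

theorem BB_ol (hr : Odd r) (h3 : 3 ≤ r) {F : ZMod r → ℂ} (hF : ∀ x, F (-x) = F x) (k : ℕ) :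
    BB (r := r) F (PP k) = -4 * r * br (1 : ZMod r) * ol r F k := by
  have hb := br_one_ne hr h3
  have hodd : ∀ x : ZMod r, br (-x) / br (1 : ZMod r) * F (-x) = -(br x / br (1 : ZMod r) * F x) := by
    intro x
    rw [br_neg, hF]
    ring
  have h1 : Bf (fun x : ZMod r => br x / br (1 : ZMod r) * F x) (PP k) = -4 * r * ol r F k :=
    Bf_PP hr k hodd
  have h2 : BB (r := r) F (PP k) =
      br (1 : ZMod r) * Bf (fun x : ZMod r => br x / br (1 : ZMod r) * F x) (PP k) := by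
    unfold BB Bf
    rw [Finset.mul_sum]
    refine Finset.sum_congr rfl fun x _ => ?_
    rw [Finset.mul_sum]
    refine Finset.sum_congr rfl fun y _ => ?_
    field_simp
  rw [h2, h1]
  ring

theorem tauF_sum (hr : Odd r) (h3 : 3 ≤ r) (n : ℤ) {a b : ℕ → LaurentPolynomial ℤ} (ha : a 0 = 1)
    (hb : b 0 = 1) : tauF r n a b = 1 + ∑ k ∈ Ico 1 r,
      ev r (b k) * ol r (fun x : ZMod r => th n x * FF a x) k := by
  have h0 : (r : ℂ) ≠ 0 := Nat.cast_ne_zero.2 (NeZero.ne r)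
  have hb1 := br_one_ne hr h3
  have hev : ∀ x : ZMod r, th n (-x) * FF a (-x) = th n x * FF a x := fun x => by rw [th_neg, FF_neg]
  have hFF : ∀ x : ZMod r, FF b x = 1 + ∑ k ∈ Ico 1 r, ev r (b k) * PP k x := by
    intro x
    unfold FF
    rw [Finset.range_eq_Ico, Finset.sum_eq_sum_Ico_succ_bot (by omega), hb, ev_one, PP_zero, one_mul]
  have hone : FF a (1 : ZMod r) = 1 := by
    rw [FF_eq ha h3, PP_at_one (le_refl 1), RR_at_one]
    ring
  have hB : BB (r := r) (fun x : ZMod r => th n x * FF a x) (FF b) = -4 * r * br (1 : ZMod r) +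
      ∑ k ∈ Ico 1 r, ev r (b k) * (-4 * r * br (1 : ZMod r) *
        ol r (fun x : ZMod r => th n x * FF a x) k) := by
    rw [BB_congr (F := fun x : ZMod r => th n x * FF a x) hFF, BB_add _ (fun _ => 1)
      (fun x => ∑ k ∈ Ico 1 r, ev r (b k) * PP k x), BB_one hr _ hev, th_one, hone,
      BB_sum (Ico 1 r) _ (fun k => ev r (b k)) (fun k => PP k), mul_one, mul_one]
    refine congrArg _ (Finset.sum_congr rfl fun k _ => ?_)
    rw [BB_ol hr h3 hev]
  rw [tauF_eq hr h3, hB]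
  have h7 : ∑ k ∈ Ico 1 r, ev r (b k) * (-4 * r * br (1 : ZMod r) *
        ol r (fun x : ZMod r => th n x * FF a x) k) = (-4 * r * br (1 : ZMod r)) *
      ∑ k ∈ Ico 1 r, ev r (b k) * ol r (fun x : ZMod r => th n x * FF a x) k := by
    rw [Finset.mul_sum]
    exact Finset.sum_congr rfl fun k _ => by ring
  rw [h7]
  field_simp
  ring

end Pool.MP_f2058c_gt.Spl
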