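import Pool.Agent.Lib.MP_f2058c_gt_S.KD

/-!
# The leading terms of the invariants of the framed gluings
-/

set_option autoImplicit false

namespace Pool.MP_f2058c_gt.Spl

open Finset Complex

variable {r : ℕ} [NeZero r]

/-! ### Exponential functions -/

/-- The function `q ^ (α y + β)`. -/
noncomputable def pe (r : ℕ) [NeZero r] (α β : ℤ) (y : ℤ) : ℂ := ps ((α * y + β : ℤ) : ZMod r)

theorem pe_succ (α β : ℤ) (y : ℤ) : pe r α β (y + 1) = ps (α : ZMod r) * pe r α β y := by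
  unfold pe
  rw [← ps_add]
  refine congrArg ps ?_
  push_cast
  ring

theorem Df_pe (α β : ℤ) (i : ℕ) (y : ℤ) :
    Df^[i] (pe r α β) y = (ps (α : ZMod r) - 1) ^ i * pe r α β y := by
  induction i with
  | zero => rw [pow_zero, one_mul]; rfl
  | succ i ih =>
    rw [Function.iterate_succ_apply]
    have h : Df (pe r α β) = fun y => (ps (α : ZMod r) - 1) * pe r α β y := by
      funext y
      unfold Df
      rw [pe_succ]
      ring
    rw [h, Df_smul, ih]
    ring

theorem Dv_pe (α β : ℤ) (i : ℕ) (y : ℤ) : Dv ((qq r - 1) ^ i) (Df^[i] (pe r α β) y) := by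
  rw [Df_pe]
  refine Dv_mul ?_ (int_ps _)
  induction i with
  | zero =>
    rw [pow_zero, pow_zero]
    exact ⟨1, isIntegral_one, by ring⟩
  | succ i ih =>
    rw [pow_succ, pow_succ]
    exact Dv_mul_mul ih (Dv_ps _)

theorem Gr_pe (α β : ℤ) (y : ℤ) : Gr r 1 (Df (pe r α β) y) α := by
  have h := Df_pe (r := r) α β 1 y
  rw [pow_one] at h
  have h1 : Df (pe r α β) y = Df^[1] (pe r α β) y := rfl
  rw [h1, h]
  have h2 := Gr_mul (Gr_ps1 (r := r) α) (Gr_ps0 (r := r) ((α * y + β : ℤ) : ZMod r))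
  rw [mul_one] at h2
  exact h2

theorem Df_const (i : ℕ) (c : ℂ) (y : ℤ) : Df^[i + 1] (fun _ => c) y = 0 := by
  rw [Function.iterate_succ_apply]
  have h : Df (fun _ : ℤ => c) = fun _ => 0 := by
    funext y
    unfold Df
    ring
  rw [h]
  have h2 := Df_smul i 0 (fun _ => 0) y
  rw [zero_mul, zero_mul] at h2
  exact h2

theorem Df_add_const (i : ℕ) (c : ℂ) (f : ℤ → ℂ) (y : ℤ) :
    Df^[i + 1] (fun y => f y + c) y = Df^[i + 1] f y := by
  have h := Df_add (i + 1) f (fun _ => c) y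
  rw [Df_const, add_zero] at h
  exact h

/-! ### The factors -/

/-- The restriction to the odd integers. -/
def Yf (P : ZMod r → ℂ) (y : ℤ) : ℂ := P ((2 * y + 1 : ℤ) : ZMod r)

/-- The quantum integers. -/
noncomputable def XX (r : ℕ) [NeZero r] : ℤ → ℂ := Yf (fun x : ZMod r => br x / br (1 : ZMod r))

theorem Df_XX (hr : Odd r) (h3 : 3 ≤ r) : Df (XX r) = fun y => pe r 1 1 y + pe r (-1) (-1) y := by
  funext y
  have hb := br_one_ne hr h3
  have h2 := two_hh hr
  have e1 : br ((2 * (y + 1) + 1 : ℤ) : ZMod r) - br ((2 * y + 1 : ℤ) : ZMod r) =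
      br (1 : ZMod r) * (pe r 1 1 y + pe r (-1) (-1) y) := by
    unfold br pe
    have a1 : hh r * ((2 * (y + 1) + 1 : ℤ) : ZMod r) = hh r * 1 + ((1 * y + 1 : ℤ) : ZMod r) := by
      push_cast
      linear_combination ((y : ZMod r) + 1) * h2
    have a2 : -(hh r * ((2 * (y + 1) + 1 : ℤ) : ZMod r)) =
        -(hh r * 1) + ((-1 * y + -1 : ℤ) : ZMod r) := by
      push_cast
      linear_combination (-(y : ZMod r) - 1) * h2
    have a3 : hh r * ((2 * y + 1 : ℤ) : ZMod r) = -(hh r * 1) + ((1 * y + 1 : ℤ) : ZMod r) := by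
      push_cast
      linear_combination ((y : ZMod r) + 1) * h2
    have a4 : -(hh r * ((2 * y + 1 : ℤ) : ZMod r)) = hh r * 1 + ((-1 * y + -1 : ℤ) : ZMod r) := by
      push_cast
      linear_combination (-(y : ZMod r) - 1) * h2
    rw [a2, a1, a4, a3, ps_add, ps_add, ps_add, ps_add]
    ring
  show br ((2 * (y + 1) + 1 : ℤ) : ZMod r) / br (1 : ZMod r) -
    br ((2 * y + 1 : ℤ) : ZMod r) / br (1 : ZMod r) = _
  rw [← sub_div, e1, mul_div_cancel_left₀ _ hb]

theorem Dv_XX (hr : Odd r) (h3 : 3 ≤ r) (i : ℕ) (y : ℤ) :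
    Dv ((qq r - 1) ^ i) (Df^[i + 1] (XX r) y) := by
  rw [Function.iterate_succ_apply, Df_XX hr h3, Df_add]
  exact Dv_add (Dv_pe _ _ _ _) (Dv_pe _ _ _ _)

theorem Dv_XX' (hr : Odd r) (h3 : 3 ≤ r) (i : ℕ) (y : ℤ) :
    Dv ((qq r - 1) ^ (i - 1)) (Df^[i] (XX r) y) := by
  rcases i with _ | i
  · have hb := br_one_ne hr h3
    refine Dv_one_of_int ?_ _
    obtain ⟨w, hw, e⟩ := Dv_br hr ((2 * y + 1 : ℤ) : ZMod r)
    show IsIntegral ℤ (br ((2 * y + 1 : ℤ) : ZMod r) / br (1 : ZMod r))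
    rw [e, mul_div_cancel_left₀ _ hb]
    exact hw
  · exact Dv_XX hr h3 i y

theorem KD_XX (hr : Odd r) (h3 : 3 ≤ r) : KD r 0 (XX r) := fun i y =>
  Dv_mono (by omega) (Dv_XX' hr h3 i y)

theorem KS_XX (hr : Odd r) (h3 : 3 ≤ r) (m : ℕ) : KS r m 0 (XX r) (dl 1 2) := by
  intro i _
  refine ⟨fun h => ?_, fun y => ⟨Dv_mono (by omega) (Dv_XX' hr h3 i y), fun h => ?_⟩⟩
  · unfold dl
    rw [if_neg (by omega)]
  · unfold dl
    split_ifs with h1
    · subst h1
      show Gr r ((1 + 0) / 2) (Df (XX r) y) 2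
      rw [Df_XX hr h3]
      exact Gr_add (Gr_ps0 _) (Gr_ps0 _)
    · exact Gr_of_Dv (Dv_mono (by omega) (Dv_XX' hr h3 i y))

/-- The difference quotient of the framing factor. -/
noncomputable def uu (r : ℕ) [NeZero r] (n : ℤ) (y : ℤ) : ℂ := pe r (2 * n) (2 * n) y + -1

theorem Dv_uu (n : ℤ) (i : ℕ) (y : ℤ) : Dv ((qq r - 1) ^ (i + 1)) (Df^[i + 1] (uu r n) y) := by
  have h : Df^[i + 1] (uu r n) y = Df^[i + 1] (pe r (2 * n) (2 * n)) y := Df_add_const i (-1) _ y
  rw [h]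
  exact Dv_pe _ _ _ _

theorem KS_uu (n : ℤ) (m : ℕ) : KS r m (1 + 1) (uu r n) (dl 1 (2 * n)) := by
  intro i _
  refine ⟨fun h => ?_, fun y => ?_⟩
  · unfold dl
    rw [if_neg (by omega)]
  · rcases i with _ | i
    · refine ⟨?_, fun h => by omega⟩
      show Dv ((qq r - 1) ^ 1) (uu r n y)
      rw [pow_one]
      have h := Dv_ps (r := r) ((2 * n * y + 2 * n : ℤ) : ZMod r)
      have e : uu r n y = ps ((2 * n * y + 2 * n : ℤ) : ZMod r) - 1 := by
        unfold uu pe
        ring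
      rw [e]
      exact h
    · refine ⟨Dv_mono (by omega) (Dv_uu n i y), fun h => ?_⟩
      unfold dl
      split_ifs with h1
      · have h2 : i = 0 := by omega
        subst h2
        have h3 : Df^[0 + 1] (uu r n) y = Df^[0 + 1] (pe r (2 * n) (2 * n)) y := Df_add_const 0 (-1) _ y
        rw [h3]
        exact Gr_pe _ _ _
      · exact Gr_of_Dv (Dv_mono (by omega) (Dv_uu n i y))

/-- The framing factor. -/
noncomputable def TT (r : ℕ) [NeZero r] (n : ℤ) (y : ℤ) : ℂ := ps ((n * (y * (y + 1)) : ℤ) : ZMod r)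

theorem Df_TT (n : ℤ) : Df (TT r n) = fun y => TT r n y * uu r n y := by
  funext y
  unfold Df TT uu pe
  have e : ps ((n * ((y + 1) * (y + 1 + 1)) : ℤ) : ZMod r) =
      ps ((n * (y * (y + 1)) : ℤ) : ZMod r) * ps ((2 * n * y + 2 * n : ℤ) : ZMod r) := by
    rw [← ps_add]
    refine congrArg ps ?_
    push_cast
    ring
  rw [e]
  ring

theorem KS_TT (n : ℤ) (m : ℕ) : KS r m 1 (TT r n) (cT n) := by
  induction m with
  | zero =>
    intro i hi
    have h0 : i = 0 := by omega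
    subst h0
    refine ⟨fun h => by omega, fun y => ⟨Dv_one_of_int (int_ps _) _, fun _ => ?_⟩⟩
    show Gr r 0 (TT r n y) 1
    exact Gr_ps0 _
  | succ m ih =>
    intro i hi
    rcases Nat.lt_or_ge m i with h | h
    · have hi2 : i = m + 1 := by omega
      subst hi2
      obtain ⟨p, q⟩ := KS_mul (r := r) m 1 1 (TT r n) (uu r n) (cT n) (dl 1 (2 * n)) ih (KS_uu n m)
      rw [cv_dl1_right] at p q
      rw [cT_succ]
      refine ⟨p, fun y => ?_⟩
      rw [Function.iterate_succ_apply, Df_TT]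
      exact q y
    · exact ih i h

theorem KD_TT (n : ℤ) : KD r (0 + 1) (TT r n) := fun i y => ((KS_TT n i i (le_refl i)).2 y).1

theorem Yf_th (hr : Odd r) (n : ℤ) : Yf (th n : ZMod r → ℂ) = TT r n := by
  funext y
  have h2 := two_hh hr
  unfold Yf th TT
  have e : hh r * hh r * (((2 * y + 1 : ℤ) : ZMod r) * ((2 * y + 1 : ℤ) : ZMod r)) - hh r * hh r =
      ((y * (y + 1) : ℤ) : ZMod r) := by
    push_cast
    linear_combination ((y : ZMod r) * (y + 1) * (2 * hh r + 1)) * h2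
  rw [e]
  have hz : ∀ x : ZMod r, ∀ k : ℤ, ps x ^ k = ps ((k : ZMod r) * x) := by
    intro x k
    obtain ⟨m, rfl | rfl⟩ := k.eq_nat_or_neg
    · rw [zpow_natCast]
      unfold ps
      rw [← AddChar.map_nsmul_eq_pow, nsmul_eq_mul]
      push_cast
      rfl
    · rw [zpow_neg, zpow_natCast]
      have h4 : ps x ^ m = ps ((m : ZMod r) * x) := by
        unfold ps
        rw [← AddChar.map_nsmul_eq_pow, nsmul_eq_mul]
      rw [h4, ← ps_neg]
      refine congrArg ps ?_
      push_cast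
      ring
  rw [hz]
  refine congrArg ps ?_
  push_cast
  ring

/-! ### The coloured Jones function -/

theorem KD_xx (i : ZMod r) : KD r (2 + 1) (Yf fun x : ZMod r => xx x - xx i) := by
  have h0 : (Yf fun x : ZMod r => xx x - xx i) =
      fun y => (pe r 2 1 y + pe r (-2) (-1) y) + -xx i := by
    funext y
    show xx ((2 * y + 1 : ℤ) : ZMod r) - xx i = _
    unfold pe
    have e1 : xx ((2 * y + 1 : ℤ) : ZMod r) = ps ((2 * y + 1 : ℤ) : ZMod r) +
      ps (-((2 * y + 1 : ℤ) : ZMod r)) := rfl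
    have e2 : -((2 * y + 1 : ℤ) : ZMod r) = ((-2 * y + -1 : ℤ) : ZMod r) := by
      push_cast
      ring
    rw [e1, e2]
    ring
  intro k y
  match k with
  | 0 =>
    show Dv ((qq r - 1) ^ 1) (xx ((2 * y + 1 : ℤ) : ZMod r) - xx i)
    exact Dv_mono (by omega) (Dv_xx _ _)
  | 1 =>
    show Dv ((qq r - 1) ^ 2) ((xx ((2 * (y + 1) + 1 : ℤ) : ZMod r) - xx i) -
      (xx ((2 * y + 1 : ℤ) : ZMod r) - xx i))
    have e : (xx ((2 * (y + 1) + 1 : ℤ) : ZMod r) - xx i) - (xx ((2 * y + 1 : ℤ) : ZMod r) - xx i) =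
        xx ((2 * (y + 1) + 1 : ℤ) : ZMod r) - xx ((2 * y + 1 : ℤ) : ZMod r) := by ring
    rw [e]
    exact Dv_xx _ _
  | k + 2 =>
    rw [h0]
    have h1 := Df_add_const (k + 1) (-xx i) (fun y => pe r 2 1 y + pe r (-2) (-1) y) y
    have e : k + 2 = k + 1 + 1 := rfl
    rw [e, h1, Df_add]
    exact Dv_mono (by omega) (Dv_add (Dv_pe (r := r) _ _ _ _) (Dv_pe (r := r) _ _ _ _))

theorem KD_PP {j : ℕ} (hj : 1 ≤ j) : KD r 3 (Yf (PP j : ZMod r → ℂ)) := by
  induction j, hj using Nat.le_induction with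
  | base =>
    have h : (Yf (PP 1 : ZMod r → ℂ)) = Yf fun x : ZMod r => xx x - xx (1 : ZMod r) := by
      funext y
      exact PP_one _
    rw [h]
    exact KD_xx _
  | succ j hj ih =>
    have h : (Yf (PP (j + 1) : ZMod r → ℂ)) = fun y => Yf (PP j : ZMod r → ℂ) y *
        (Yf fun x : ZMod r => xx x - xx ((j + 1 : ℕ) : ZMod r)) y := by
      funext y
      exact PP_succ _ _
    rw [h]
    exact KD_mono (by omega) (KD_mul ih (KD_xx _))

theorem KD_ep (a : ℕ → LaurentPolynomial ℤ) : KD r 3 (Yf (ep r a)) := by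
  have h : ∀ s : Finset ℕ, (∀ j ∈ s, 1 ≤ j) →
      KD r 3 (fun y => ∑ j ∈ s, ev r (a j) * Yf (PP j : ZMod r → ℂ) y) := by
    intro s
    induction s using Finset.induction_on with
    | empty =>
      intro _
      simp only [Finset.sum_empty]
      exact KD_zero 3
    | insert i s hi ih =>
      intro hs
      simp only [Finset.sum_insert hi]
      exact KD_add (KD_smul (int_ev (a i)) (KD_PP (hs i (Finset.mem_insert_self i s))))
        (ih fun j hj => hs j (Finset.mem_insert_of_mem hj))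
  exact h (Ico 1 r) fun j hj => (Finset.mem_Ico.1 hj).1

end Pool.MP_f2058c_gt.Spl
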