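import Pool.Agent.Lib.MP_f2058c_gt_S.FLead

/-!
# The functionals and the central differences
-/

set_option autoImplicit false

namespace Pool.MP_f2058c_gt.Spl

open Finset Complex

variable {r : ℕ} [NeZero r]

/-- The central second difference. -/
def sC (f : ℤ → ℂ) (y : ℤ) : ℂ := f (y + 1) - 2 * f y + f (y - 1)

theorem Df_shift' (i : ℕ) (f : ℤ → ℂ) (c y : ℤ) : Df^[i] (fun z => f (z + c)) y = Df^[i] f (y + c) := by
  induction i generalizing f y with
  | zero => rfl
  | succ i ih =>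
    rw [Function.iterate_succ_apply, Function.iterate_succ_apply]
    have h : Df (fun z => f (z + c)) = fun z => Df f (z + c) := by
      funext z
      show f (z + 1 + c) - f (z + c) = f (z + c + 1) - f (z + c)
      have e : z + 1 + c = z + c + 1 := by ring
      rw [e]
    rw [h, ih]

theorem sC_iter (i : ℕ) (f : ℤ → ℂ) (y : ℤ) : sC^[i] f y = Df^[2 * i] f (y + -(i : ℤ)) := by
  induction i generalizing f with
  | zero =>
    show f y = f (y + -((0 : ℕ) : ℤ))
    simp
  | succ i ih =>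
    rw [Function.iterate_succ_apply]
    have h : sC f = fun z => Df (Df f) (z + -1) := by
      funext z
      unfold sC Df
      have e1 : z + -1 + 1 + 1 = z + 1 := by ring
      have e2 : z + -1 + 1 = z := by ring
      have e3 : z + -1 = z - 1 := by ring
      rw [e1, e2, e3]
      ring
    rw [h, ih, Df_shift']
    have e1 : 2 * (i + 1) = 2 * i + 1 + 1 := by ring
    rw [e1, Function.iterate_succ_apply, Function.iterate_succ_apply]
    refine congrArg _ ?_
    push_cast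
    ring

theorem sC_lin (i : ℕ) (c d : ℂ) (f g : ℤ → ℂ) :
    sC^[i] (fun y => c * f y + d * g y) = fun y => c * sC^[i] f y + d * sC^[i] g y := by
  induction i generalizing f g with
  | zero => rfl
  | succ i ih =>
    rw [Function.iterate_succ_apply]
    have h : sC (fun y => c * f y + d * g y) = fun y => c * sC f y + d * sC g y := by
      funext y
      unfold sC
      ring
    rw [h, ih]
    rfl

/-- The central differences are divisible. -/
def QC (r w : ℕ) (f : ℤ → ℂ) : Prop := ∀ (i : ℕ) (y : ℤ), Dv ((qq r - 1) ^ (w + i)) (sC^[i] f y)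

theorem QC_of_KD {f : ℤ → ℂ} (h : KD r 0 f) : QC r 0 f := fun i y => by
  rw [sC_iter]
  exact Dv_mono (by omega) (h (2 * i) _)

theorem Yf_Dl (i : ZMod r) (P : ZMod r → ℂ) :
    Yf (Dl i P) = fun y => 1 * sC (Yf P) y + (2 - xx i) * Yf P y := by
  funext y
  unfold Yf Dl sC
  have e1 : ((2 * y + 1 : ℤ) : ZMod r) + 2 = ((2 * (y + 1) + 1 : ℤ) : ZMod r) := by
    push_cast
    ring
  have e2 : ((2 * y + 1 : ℤ) : ZMod r) - 2 = ((2 * (y - 1) + 1 : ℤ) : ZMod r) := by
    push_cast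
    ring
  rw [e1, e2]
  ring

theorem Dv_mu (i : ZMod r) : Dv ((qq r - 1) ^ 2) (2 - xx i) := by
  have h := Dv_xx (0 : ZMod r) i
  have e : xx (0 : ZMod r) = 2 := by
    unfold xx
    rw [neg_zero, ps_zero]
    norm_num
  rwa [e] at h

theorem It_sC (k : ℕ) : ∀ (w : ℕ) (P : ZMod r → ℂ), QC r w (Yf P) →
    ∃ R : ℤ → ℂ, QC r (w + k + 1) R ∧ ∀ y, Yf (It k P) y = sC^[k] (Yf P) y + R y := by
  induction k with
  | zero =>
    intro w P _
    refine ⟨fun _ => 0, fun i y => ?_, fun y => ?_⟩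
    · have h := congrFun (sC_lin i 0 0 (fun _ => 0) (fun _ => 0)) y
      have e : (fun y : ℤ => (0 : ℂ) * (fun _ : ℤ => (0 : ℂ)) y + 0 * (fun _ : ℤ => (0 : ℂ)) y) =
          fun _ => 0 := by
        funext y
        ring
      rw [e] at h
      rw [h, zero_mul, zero_add]
      exact Dv_zero _
    · show Yf P y = Yf P y + 0
      ring
  | succ k ih =>
    intro w P hP
    set μ : ℂ := 2 - xx ((k + 1 : ℕ) : ZMod r) with hμ
    have hμ2 : Dv ((qq r - 1) ^ 2) μ := Dv_mu _
    have hY : Yf (Dl ((k + 1 : ℕ) : ZMod r) P) = fun y => 1 * sC (Yf P) y + μ * Yf P y := Yf_Dl _ _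
    have hQ : QC r (w + 1) (Yf (Dl ((k + 1 : ℕ) : ZMod r) P)) := by
      intro i y
      rw [hY, sC_lin]
      have h1 := hP (i + 1) y
      rw [Function.iterate_succ_apply] at h1
      have h2 := Dv_mul_mul hμ2 (hP i y)
      rw [← pow_add] at h2
      have e : w + 1 + i = w + (i + 1) := by ring
      show Dv _ (1 * sC^[i] (sC (Yf P)) y + μ * sC^[i] (Yf P) y)
      rw [one_mul]
      exact Dv_add (Dv_mono (by omega) h1) (Dv_mono (by omega) h2)
    obtain ⟨R', hR', hI⟩ := ih (w + 1) _ hQ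
    refine ⟨fun y => μ * sC^[k] (Yf P) y + 1 * R' y, fun i y => ?_, fun y => ?_⟩
    · rw [sC_lin]
      have h1 := hP (k + i) y
      have h2 : sC^[i] (sC^[k] (Yf P)) y = sC^[k + i] (Yf P) y := by
        rw [add_comm, Function.iterate_add_apply]
      have h3 := Dv_mul_mul hμ2 h1
      rw [← pow_add] at h3
      show Dv _ (μ * sC^[i] (sC^[k] (Yf P)) y + 1 * sC^[i] R' y)
      rw [h2, one_mul]
      exact Dv_add (Dv_mono (by omega) h3) (Dv_mono (by omega) (hR' i y))
    · show Yf (It k (Dl ((k + 1 : ℕ) : ZMod r) P)) y = _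
      rw [hI, hY, sC_lin]
      show 1 * sC^[k] (sC (Yf P)) y + μ * sC^[k] (Yf P) y + R' y = _
      rw [Function.iterate_succ_apply]
      ring

/-- Odd functions. -/
theorem sC_odd (k : ℕ) (f : ℤ → ℂ) (h : ∀ y, f (-1 - y) = -f y) (y : ℤ) :
    sC^[k] f (-1 - y) = -sC^[k] f y := by
  induction k generalizing f with
  | zero => exact h y
  | succ k ih =>
    rw [Function.iterate_succ_apply]
    refine ih (sC f) fun y => ?_
    unfold sC
    have e1 : -1 - y + 1 = -1 - (y - 1) := by ring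
    have e2 : -1 - y - 1 = -1 - (y + 1) := by ring
    rw [e1, e2, h, h, h]
    ring

theorem sC_zero (k : ℕ) (f : ℤ → ℂ) (h : ∀ y, f (-1 - y) = -f y) :
    2 * sC^[k] f 0 = Df^[2 * k + 1] f (-1 + -(k : ℤ)) := by
  have h1 := sC_odd k f h 0
  rw [sub_zero] at h1
  have h2 : Df^[2 * k + 1] f (-1 + -(k : ℤ)) = sC^[k] f 0 - sC^[k] f (-1) := by
    rw [sC_iter, sC_iter, Function.iterate_succ_apply']
    unfold Df
    have e : -1 + -(k : ℤ) + 1 = 0 + -(k : ℤ) := by ring
    rw [e]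
  rw [h2, h1]
  ring

/-- The leading terms of the functionals. -/
theorem Gr_olF (hr : Odd r) (h3 : 3 ≤ r) (n : ℤ) {a : ℕ → LaurentPolynomial ℤ} (ha : a 0 = 1)
    (k : ℕ) : Gr r k (2 * ol r (fun x : ZMod r => th n x * FF a x) k)
      (2 * (2 * k + 1) * (wq k * n ^ k)) := by
  set P : ZMod r → ℂ := fun x : ZMod r => br x / br (1 : ZMod r) * (th n x * FF a x) with hP
  set G : ℤ → ℂ := fun y => XX r y * TT r n y with hG
  set E : ℤ → ℂ := fun y => G y * Yf (ep r a) y with hE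
  have hYP : Yf P = fun y => G y + E y := by
    funext y
    have h1 : Yf P y = XX r y * (Yf (th n : ZMod r → ℂ) y * Yf (FF a : ZMod r → ℂ) y) := rfl
    have h2 : Yf (FF a : ZMod r → ℂ) y = 1 + Yf (ep r a) y := FF_ep ha h3 _
    rw [h1, h2, Yf_th hr, hE, hG]
    ring
  have hKG : KD r (0 + 0) G := KD_mul (KD_XX hr h3) (KD_TT n)
  have hKE : KD r (0 + 0 + 2) E := KD_mul hKG (KD_ep a)
  have hKP : KD r 0 (Yf P) := by
    rw [hYP]
    exact KD_add hKG (KD_mono (by omega) hKE)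
  obtain ⟨R, hR, hI⟩ := It_sC (r := r) k 0 P (QC_of_KD hKP)
  have hodd : ∀ y, Yf P (-1 - y) = -Yf P y := by
    intro y
    show P ((2 * (-1 - y) + 1 : ℤ) : ZMod r) = -P ((2 * y + 1 : ℤ) : ZMod r)
    have e : ((2 * (-1 - y) + 1 : ℤ) : ZMod r) = -((2 * y + 1 : ℤ) : ZMod r) := by
      push_cast
      ring
    rw [e, hP]
    show br (-((2 * y + 1 : ℤ) : ZMod r)) / br (1 : ZMod r) *
      (th n (-((2 * y + 1 : ℤ) : ZMod r)) * FF a (-((2 * y + 1 : ℤ) : ZMod r))) = _
    rw [br_neg, th_neg, FF_neg]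
    ring
  have h0 : 2 * ol r (fun x : ZMod r => th n x * FF a x) k =
      (Df^[2 * k + 1] G (-1 + -(k : ℤ)) + Df^[2 * k + 1] E (-1 + -(k : ℤ))) + 2 * R 0 := by
    have h1 : ol r (fun x : ZMod r => th n x * FF a x) k = Yf (It k P) 0 := by
      show It k P 1 = It k P ((2 * 0 + 1 : ℤ) : ZMod r)
      refine congrArg _ ?_
      push_cast
      ring
    have h2 := sC_zero k (Yf P) hodd
    have h4 : Df^[2 * k + 1] (Yf P) (-1 + -(k : ℤ)) =
        Df^[2 * k + 1] G (-1 + -(k : ℤ)) + Df^[2 * k + 1] E (-1 + -(k : ℤ)) := by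
      rw [hYP, Df_add]
    rw [h1, hI, mul_add, h2, h4]
  rw [h0]
  have g1 : Gr r k (Df^[2 * k + 1] G (-1 + -(k : ℤ))) (2 * (2 * k + 1) * (wq k * n ^ k)) := by
    obtain ⟨_, q⟩ := KS_mul (r := r) (2 * k + 1) 0 0 (XX r) (TT r n) (dl 1 2) (cT n)
      (KS_XX hr h3 _) (KS_TT n _)
    have h1 := (q (-1 + -(k : ℤ))).2 (by omega)
    have e1 : (2 * k + 1 + 0 + 0) / 2 = k := by omega
    have e2 : cv (2 * k + 1) (dl 1 2) (cT n) = 2 * (2 * k + 1) * (wq k * n ^ k) := by
      rw [cv_dl1_left]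
      have e3 : 2 * k + 1 - 1 = 2 * k := by omega
      rw [e3, cT_even]
      push_cast
      ring
    rw [e1, e2] at h1
    exact h1
  have g2 : Gr r k (Df^[2 * k + 1] E (-1 + -(k : ℤ))) 0 :=
    Gr_of_Dv (Dv_mono (by omega) (hKE (2 * k + 1) _))
  have g3 : Gr r k (2 * R 0) 0 := by
    refine Gr_of_Dv (Dv_mul_left (Dv_mono (by omega) (hR 0 0)) ?_)
    have h4 := int_int 2
    push_cast at h4
    exact h4
  have g := Gr_add (Gr_add g1 g2) g3
  rw [add_zero, add_zero] at g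
  exact g

end Pool.MP_f2058c_gt.Spl
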