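import Pool.Agent.Lib.MP_f2058c_gt_S.Chi

/-!
# The invariant of a splice as a sum over the residues modulo `r`
-/

set_option autoImplicit false

namespace Pool.MP_f2058c_gt.Spl

open Finset Complex

variable {r : ℕ} [NeZero r]

/-- The value of the coloured Jones polynomial. -/
noncomputable def cj (r : ℕ) (a : ℕ → LaurentPolynomial ℤ) (n : ℕ) : ℂ :=
  ∑ k ∈ range n, ev r (a k) *
    ∏ i ∈ Icc 1 k, (qq r ^ n + (qq r ^ n)⁻¹ - qq r ^ i - (qq r ^ i)⁻¹)

omit [NeZero r] in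
theorem ev_J (a : ℕ → LaurentPolynomial ℤ) (n : ℕ) : ev r (J a n) = cj r a n := by
  have h : ∀ m : ℕ, ev r (LaurentPolynomial.T (-(m : ℤ))) = (qq r ^ m)⁻¹ := by
    intro m
    unfold ev
    rw [LaurentPolynomial.eval₂_T_neg_n]
    simp
  have h' : ∀ m : ℕ, ev r (LaurentPolynomial.T (m : ℤ)) = qq r ^ m := by
    intro m
    unfold ev
    rw [LaurentPolynomial.eval₂_T_n]
    rfl
  unfold J cj
  unfold ev at h h' ⊢
  rw [map_sum]
  refine Finset.sum_congr rfl fun k _ => ?_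
  rw [map_mul, map_prod]
  refine congrArg _ (Finset.prod_congr rfl fun i _ => ?_)
  rw [map_sub, map_sub, map_add, h, h, h', h']

theorem exp_odd (hr : Odd r) {n : ℕ} (hn : Odd n) :
    Complex.exp (Real.pi * Complex.I * n / r) = - ps (hh r * (n : ZMod r)) := by
  obtain ⟨N, hN⟩ := hr
  obtain ⟨k, hk⟩ := hn
  have h0 : (r : ℂ) ≠ 0 := Nat.cast_ne_zero.2 (NeZero.ne r)
  have h1 : hh r * (n : ZMod r) = (((N + 1) * n : ℕ) : ZMod r) := by
    unfold hh
    rw [show (r + 1) / 2 = N + 1 by omega, Nat.cast_mul]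
  rw [h1, ps_nat]
  unfold qq
  rw [← Complex.exp_nat_mul]
  have h2 : (((N + 1) * n : ℕ) : ℂ) * (2 * Real.pi * Complex.I / r) =
      (k : ℂ) * (2 * Real.pi * Complex.I) + Real.pi * Complex.I + Real.pi * Complex.I * n / r := by
    have h3 : (r : ℂ) = 2 * N + 1 := by rw [hN]; push_cast; ring
    have h4 : (n : ℂ) = 2 * k + 1 := by rw [hk]; push_cast; ring
    field_simp
    push_cast
    rw [h3, h4]
    ring
  rw [h2, Complex.exp_add, Complex.exp_add, Complex.exp_nat_mul_two_pi_mul_I, Complex.exp_pi_mul_I]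
  ring

theorem qi_eq (hr : Odd r) {n : ℕ} (hn : Odd n) :
    qi r n = br (n : ZMod r) / br (1 : ZMod r) := by
  have h : ∀ m : ℕ, Odd m → Complex.exp (Real.pi * Complex.I * m / r) -
      Complex.exp (-(Real.pi * Complex.I * m / r)) = - br (m : ZMod r) := by
    intro m hm
    rw [Complex.exp_neg, exp_odd hr hm]
    unfold br
    rw [ps_neg, inv_neg]
    ring
  have h1 := h 1 odd_one
  rw [Nat.cast_one, mul_one] at h1
  rw [Nat.cast_one] at h1
  unfold qi
  rw [h n hn, h1, neg_div_neg_eq]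

/-- The products. -/
noncomputable def PP (k : ℕ) (x : ZMod r) : ℂ := ∏ i ∈ Icc 1 k, (xx x - xx (i : ZMod r))

/-- The coloured Jones polynomial as a function on the residues. -/
noncomputable def FF (a : ℕ → LaurentPolynomial ℤ) (x : ZMod r) : ℂ :=
  ∑ k ∈ range r, ev r (a k) * PP k x

theorem PP_neg (k : ℕ) (x : ZMod r) : PP k (-x) = PP k x := by
  unfold PP
  rw [xx_neg]

theorem FF_neg (a : ℕ → LaurentPolynomial ℤ) (x : ZMod r) : FF a (-x) = FF a x := by
  unfold FF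
  exact Finset.sum_congr rfl fun k _ => by rw [PP_neg]

theorem PP_vanish {k n : ℕ} (h1 : 1 ≤ n) (h2 : n ≤ k) : PP k (n : ZMod r) = 0 := by
  unfold PP
  exact Finset.prod_eq_zero (Finset.mem_Icc.2 ⟨h1, h2⟩) (sub_self _)

theorem PP_zero (x : ZMod r) : PP 0 x = 1 := by
  unfold PP
  simp

theorem PP_one (x : ZMod r) : PP 1 x = xx x - xx (1 : ZMod r) := by
  unfold PP
  simp

theorem xx_nat (n : ℕ) : xx (n : ZMod r) = qq r ^ n + (qq r ^ n)⁻¹ := by
  unfold xx
  rw [ps_neg, ps_nat]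

theorem cj_eq (a : ℕ → LaurentPolynomial ℤ) {n : ℕ} (h1 : 1 ≤ n) (h2 : n < r) :
    cj r a n = FF a (n : ZMod r) := by
  unfold cj FF
  have e : ∀ k, PP k (n : ZMod r) =
      ∏ i ∈ Icc 1 k, (qq r ^ n + (qq r ^ n)⁻¹ - qq r ^ i - (qq r ^ i)⁻¹) := by
    intro k
    unfold PP
    refine Finset.prod_congr rfl fun i _ => ?_
    rw [xx_nat, xx_nat]
    ring
  have hs : range n ⊆ range r := Finset.range_subset_range.2 h2.le
  rw [← Finset.sum_subset hs]
  · exact Finset.sum_congr rfl fun k _ => by rw [e]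
  · intro k hk hk2
    rw [Finset.mem_range, not_lt] at hk2
    rw [PP_vanish h1 hk2, mul_zero]

/-- The bilinear form. -/
noncomputable def BB (F G : ZMod r → ℂ) : ℂ :=
  ∑ x : ZMod r, ∑ y : ZMod r, br x * br y * br (x * y) * F x * G y

theorem BB_comm (F G : ZMod r → ℂ) : BB F G = BB G F := by
  unfold BB
  rw [Finset.sum_comm]
  refine Finset.sum_congr rfl fun x _ => Finset.sum_congr rfl fun y _ => ?_
  rw [mul_comm y x]
  ring

theorem BB_add (F G H : ZMod r → ℂ) : BB F (fun x => G x + H x) = BB F G + BB F H := by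
  unfold BB
  rw [← Finset.sum_add_distrib]
  refine Finset.sum_congr rfl fun x _ => ?_
  rw [← Finset.sum_add_distrib]
  exact Finset.sum_congr rfl fun y _ => by ring

theorem BB_smul (F G : ZMod r → ℂ) (c : ℂ) : BB F (fun x => c * G x) = c * BB F G := by
  unfold BB
  rw [Finset.mul_sum]
  refine Finset.sum_congr rfl fun x _ => ?_
  rw [Finset.mul_sum]
  exact Finset.sum_congr rfl fun y _ => by ring

/-- The numerator. -/
theorem num_eq (hr : Odd r) (a b : ℕ → LaurentPolynomial ℤ) :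
    4 * ∑ m ∈ odds r, ∑ n ∈ odds r, qi r m * qi r n *
      (qi r (m * n) * ev r (J a m) * ev r (J b n)) =
      BB (r := r) (FF a) (FF b) / br (1 : ZMod r) ^ 3 := by
  set T : ZMod r → ZMod r → ℂ := fun x y =>
    br x * br y * br (x * y) * FF a x * FF b y / br (1 : ZMod r) ^ 3 with hT
  have hm : ∀ n ∈ odds r, 1 ≤ n ∧ n < r ∧ Odd n := by
    intro n hn
    unfold odds at hn
    rw [Finset.mem_filter, Finset.mem_range] at hn
    refine ⟨?_, hn.1, hn.2⟩
    obtain ⟨k, hk⟩ := hn.2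
    omega
  have h1 : ∀ m ∈ odds r, ∀ n ∈ odds r,
      qi r m * qi r n *
      (qi r (m * n) * ev r (J a m) * ev r (J b n)) = T (m : ZMod r) (n : ZMod r) := by
    intro m hm1 n hn1
    obtain ⟨a1, a2, a3⟩ := hm m hm1
    obtain ⟨b1, b2, b3⟩ := hm n hn1
    rw [qi_eq hr a3, qi_eq hr b3, qi_eq hr (a3.mul b3), ev_J, ev_J, cj_eq a a1 a2, cj_eq b b1 b2, hT, Nat.cast_mul]
    ring
  have h2 : ∑ m ∈ odds r, ∑ n ∈ odds r, qi r m * qi r n *
      (qi r (m * n) * ev r (J a m) * ev r (J b n)) =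
      ∑ m ∈ odds r, ∑ n ∈ odds r, T (m : ZMod r) (n : ZMod r) :=
    Finset.sum_congr rfl fun m hm1 => Finset.sum_congr rfl fun n hn1 => h1 m hm1 n hn1
  rw [h2]
  have h3 : ∀ x : ZMod r, 2 * ∑ n ∈ odds r, T x (n : ZMod r) = ∑ y : ZMod r, T x y := by
    intro x
    refine sum_odds hr (fun y => T x y) ?_ ?_
    · show br x * br (0 : ZMod r) * br (x * 0) * FF a x * FF b (0 : ZMod r) / br (1 : ZMod r) ^ 3 = 0
      rw [br_zero]
      ring
    · intro y
      show br x * br (-y) * br (x * -y) * FF a x * FF b (-y) / br (1 : ZMod r) ^ 3 =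
        br x * br y * br (x * y) * FF a x * FF b y / br (1 : ZMod r) ^ 3
      rw [mul_neg x y, br_neg, br_neg, FF_neg]
      ring
  have h4 : 2 * ∑ m ∈ odds r, (∑ y : ZMod r, T (m : ZMod r) y) = ∑ x : ZMod r, ∑ y : ZMod r, T x y := by
    refine sum_odds hr (fun x => ∑ y : ZMod r, T x y) ?_ ?_
    · refine Finset.sum_eq_zero fun y _ => ?_
      show br (0 : ZMod r) * br y * br (0 * y) * FF a (0 : ZMod r) * FF b y / br (1 : ZMod r) ^ 3 = 0
      rw [br_zero]
      ring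
    · intro x
      refine Finset.sum_congr rfl fun y _ => ?_
      show br (-x) * br y * br (-x * y) * FF a (-x) * FF b y / br (1 : ZMod r) ^ 3 =
        br x * br y * br (x * y) * FF a x * FF b y / br (1 : ZMod r) ^ 3
      rw [neg_mul x y, br_neg, br_neg, FF_neg]
      ring
  have h5 : ∑ x : ZMod r, ∑ y : ZMod r, T x y = BB (r := r) (FF a) (FF b) / br (1 : ZMod r) ^ 3 := by
    unfold BB
    rw [Finset.sum_div]
    refine Finset.sum_congr rfl fun x _ => ?_
    rw [Finset.sum_div]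
  rw [← h5, ← h4]
  have h6 : ∑ m ∈ odds r, (∑ y : ZMod r, T (m : ZMod r) y) =
      2 * ∑ m ∈ odds r, ∑ n ∈ odds r, T (m : ZMod r) (n : ZMod r) := by
    rw [Finset.mul_sum]
    exact Finset.sum_congr rfl fun m _ => (h3 _).symm
  rw [h6]
  ring

/-- The Gauss sum. -/
noncomputable def gs (r : ℕ) [NeZero r] : ℂ := ∑ y : ZMod r, ps (y * y)

/-- The conjugate Gauss sum. -/
noncomputable def gs' (r : ℕ) [NeZero r] : ℂ := ∑ y : ZMod r, ps (-(y * y))

theorem gs_mul (hr : Odd r) : gs r * gs' r = r := by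
  have h2 := two_hh hr
  unfold gs gs'
  rw [Finset.sum_mul_sum, ← Finset.sum_product']
  have h1 : ∑ p : ZMod r × ZMod r, ps (p.1 * p.2) = r := by
    rw [← Finset.univ_product_univ, Finset.sum_product]
    have h3 : ∀ x : ZMod r, ∑ y : ZMod r, ps (x * y) = if x = 0 then (r : ℂ) else 0 := by
      intro x
      rw [← sum_ps]
      exact Finset.sum_congr rfl fun y _ => by rw [mul_comm]
    simp only [h3]
    simp
  rw [← h1, Finset.univ_product_univ]
  refine Finset.sum_bij (fun p _ => (p.1 - p.2, p.1 + p.2)) (fun p _ => Finset.mem_univ _) ?_ ?_ ?_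
  · intro p _ p' _ h
    have e1 : p.1 - p.2 = p'.1 - p'.2 := congrArg Prod.fst h
    have e2 : p.1 + p.2 = p'.1 + p'.2 := congrArg Prod.snd h
    refine Prod.ext ?_ ?_
    · linear_combination (p.1 - p'.1) * (-h2) + hh r * (e1 + e2)
    · linear_combination (p.2 - p'.2) * (-h2) + hh r * (e2 - e1)
  · intro p _
    refine ⟨(hh r * (p.1 + p.2), hh r * (p.2 - p.1)), Finset.mem_univ _, ?_⟩
    refine Prod.ext ?_ ?_
    · show hh r * (p.1 + p.2) - hh r * (p.2 - p.1) = p.1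
      linear_combination p.1 * h2
    · show hh r * (p.1 + p.2) + hh r * (p.2 - p.1) = p.2
      linear_combination p.2 * h2
  · intro p _
    show ps (p.1 * p.1) * ps (-(p.2 * p.2)) = ps ((p.1 - p.2) * (p.1 + p.2))
    rw [← ps_add]
    refine congrArg ps ?_
    ring

theorem br_sq (hr : Odd r) (x : ZMod r) : br x ^ 2 = ps x + ps (-x) - 2 := by
  have h2 := two_hh hr
  have e1 : x = hh r * x + hh r * x := by linear_combination -x * h2
  have e2 : -x = -(hh r * x) + -(hh r * x) := by linear_combination x * h2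
  have h3 := ps_neg_mul (hh r * x)
  have h4 : ps x = ps (hh r * x) * ps (hh r * x) := by
    rw [← ps_add, ← e1]
  have h5 : ps (-x) = ps (-(hh r * x)) * ps (-(hh r * x)) := by
    rw [← ps_add, ← e2]
  rw [h4, h5]
  unfold br
  linear_combination -2 * h3

/-- Completing the square. -/
theorem gs_shift (hr : Odd r) (c : ZMod r) :
    ∑ x : ZMod r, ps (hh r * hh r * (x * x) + c * x) = ps (-(c * c)) * gs r := by
  have h2 := two_hh hr
  unfold gs
  rw [Finset.mul_sum]
  refine Finset.sum_bij (fun x _ => hh r * x + c) (fun x _ => Finset.mem_univ _) ?_ ?_ ?_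
  · intro x _ y _ h
    linear_combination (x - y) * (-h2) + 2 * h
  · intro y _
    refine ⟨2 * (y - c), Finset.mem_univ _, ?_⟩
    linear_combination (y - c) * h2
  · intro x _
    rw [← ps_add]
    refine congrArg ps ?_
    linear_combination -c * x * h2

theorem gs_shift' (hr : Odd r) (c : ZMod r) :
    ∑ x : ZMod r, ps (-(hh r * hh r * (x * x)) + c * x) = ps (c * c) * gs' r := by
  have h2 := two_hh hr
  unfold gs'
  rw [Finset.mul_sum]
  refine Finset.sum_bij (fun x _ => hh r * x - c) (fun x _ => Finset.mem_univ _) ?_ ?_ ?_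
  · intro x _ y _ h
    linear_combination (x - y) * (-h2) + 2 * h
  · intro y _
    refine ⟨2 * (y + c), Finset.mem_univ _, ?_⟩
    linear_combination (y + c) * h2
  · intro x _
    rw [← ps_add]
    refine congrArg ps ?_
    linear_combination -c * x * h2

omit [NeZero r] in
theorem quarter (hr : Odd r) {n : ℕ} (hn : Odd n) :
    (((n ^ 2 - 1) / 4 : ℕ) : ZMod r) = hh r * hh r * ((n : ZMod r) * n) - hh r * hh r := by
  have h2 := two_hh hr
  obtain ⟨k, hk⟩ := hn
  have h3 : n ^ 2 - 1 = 4 * (k * (k + 1)) := by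
    have : n ^ 2 = 4 * (k * (k + 1)) + 1 := by rw [hk]; ring
    omega
  rw [h3, Nat.mul_div_cancel_left _ (by norm_num : 0 < 4), hk]
  push_cast
  linear_combination -(k : ZMod r) * (k + 1) * (1 + 2 * hh r) * h2

theorem gplus (hr : Odd r) (h3 : 3 ≤ r) :
    ∑ n ∈ odds r, qi r n ^ 2 * qq r ^ ((n ^ 2 - 1) / 4) =
      gs r * ps (-(hh r * hh r)) * (ps (-1 : ZMod r) - 1) / br (1 : ZMod r) ^ 2 := by
  have hb := br_one_ne hr h3
  set f : ZMod r → ℂ := fun x => br x ^ 2 / br (1 : ZMod r) ^ 2 *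
    ps (hh r * hh r * (x * x) - hh r * hh r) with hf
  have h1 : ∑ n ∈ odds r, qi r n ^ 2 * qq r ^ ((n ^ 2 - 1) / 4) = ∑ n ∈ odds r, f (n : ZMod r) := by
    refine Finset.sum_congr rfl fun n hn => ?_
    unfold odds at hn
    rw [Finset.mem_filter] at hn
    rw [qi_eq hr hn.2, ← ps_nat, quarter hr hn.2, hf, div_pow]
  have h4 : 2 * ∑ n ∈ odds r, f (n : ZMod r) = ∑ x : ZMod r, f x := by
    refine sum_odds hr f ?_ ?_
    · show br (0 : ZMod r) ^ 2 / br (1 : ZMod r) ^ 2 * _ = 0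
      rw [br_zero]
      ring
    · intro x
      show br (-x) ^ 2 / br (1 : ZMod r) ^ 2 * ps (hh r * hh r * (-x * -x) - hh r * hh r) = _
      rw [br_neg, neg_sq, neg_mul_neg]
  have h5 : ∑ x : ZMod r, f x = (ps (-(hh r * hh r)) / br (1 : ZMod r) ^ 2) *
      (∑ x : ZMod r, ps (hh r * hh r * (x * x) + 1 * x) +
        ∑ x : ZMod r, ps (hh r * hh r * (x * x) + (-1) * x) -
        2 * ∑ x : ZMod r, ps (hh r * hh r * (x * x) + 0 * x)) := by
    rw [Finset.mul_sum, ← Finset.sum_add_distrib, ← Finset.sum_sub_distrib, Finset.mul_sum]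
    refine Finset.sum_congr rfl fun x _ => ?_
    rw [hf]
    show br x ^ 2 / br (1 : ZMod r) ^ 2 * ps (hh r * hh r * (x * x) - hh r * hh r) = _
    rw [br_sq hr x, sub_eq_add_neg (hh r * hh r * (x * x)), ps_add, ps_add, ps_add, ps_add, one_mul,
      neg_one_mul, zero_mul, ps_zero]
    ring
  rw [gs_shift hr, gs_shift hr, gs_shift hr] at h5
  rw [h1]
  have h6 : ∑ n ∈ odds r, f (n : ZMod r) = (∑ x : ZMod r, f x) / 2 := by
    rw [← h4]
    ring
  rw [h6, h5]
  have e1 : -((1 : ZMod r) * 1) = -1 := by ring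
  have e2 : -((-1 : ZMod r) * -1) = -1 := by ring
  have e3 : -((0 : ZMod r) * 0) = 0 := by ring
  rw [e1, e2, e3, ps_zero]
  ring

theorem gminus (hr : Odd r) (h3 : 3 ≤ r) :
    ∑ n ∈ odds r, qi r n ^ 2 * (qq r ^ ((n ^ 2 - 1) / 4))⁻¹ =
      gs' r * ps (hh r * hh r) * (ps (1 : ZMod r) - 1) / br (1 : ZMod r) ^ 2 := by
  have hb := br_one_ne hr h3
  set f : ZMod r → ℂ := fun x => br x ^ 2 / br (1 : ZMod r) ^ 2 *
    ps (-(hh r * hh r * (x * x)) + hh r * hh r) with hf
  have h1 : ∑ n ∈ odds r, qi r n ^ 2 * (qq r ^ ((n ^ 2 - 1) / 4))⁻¹ = ∑ n ∈ odds r, f (n : ZMod r) := by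
    refine Finset.sum_congr rfl fun n hn => ?_
    unfold odds at hn
    rw [Finset.mem_filter] at hn
    rw [qi_eq hr hn.2, ← ps_nat, quarter hr hn.2, hf, div_pow, ← ps_neg, neg_sub, sub_eq_neg_add]
  have h4 : 2 * ∑ n ∈ odds r, f (n : ZMod r) = ∑ x : ZMod r, f x := by
    refine sum_odds hr f ?_ ?_
    · show br (0 : ZMod r) ^ 2 / br (1 : ZMod r) ^ 2 * _ = 0
      rw [br_zero]
      ring
    · intro x
      show br (-x) ^ 2 / br (1 : ZMod r) ^ 2 * ps (-(hh r * hh r * (-x * -x)) + hh r * hh r) = _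
      rw [br_neg, neg_sq, neg_mul_neg]
  have h5 : ∑ x : ZMod r, f x = (ps (hh r * hh r) / br (1 : ZMod r) ^ 2) *
      (∑ x : ZMod r, ps (-(hh r * hh r * (x * x)) + 1 * x) +
        ∑ x : ZMod r, ps (-(hh r * hh r * (x * x)) + (-1) * x) -
        2 * ∑ x : ZMod r, ps (-(hh r * hh r * (x * x)) + 0 * x)) := by
    rw [Finset.mul_sum, ← Finset.sum_add_distrib, ← Finset.sum_sub_distrib, Finset.mul_sum]
    refine Finset.sum_congr rfl fun x _ => ?_
    rw [hf]
    show br x ^ 2 / br (1 : ZMod r) ^ 2 * ps (-(hh r * hh r * (x * x)) + hh r * hh r) = _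
    rw [br_sq hr x, ps_add, ps_add, ps_add, ps_add, one_mul, neg_one_mul, zero_mul, ps_zero]
    ring
  rw [gs_shift' hr, gs_shift' hr, gs_shift' hr] at h5
  rw [h1]
  have h6 : ∑ n ∈ odds r, f (n : ZMod r) = (∑ x : ZMod r, f x) / 2 := by
    rw [← h4]
    ring
  rw [h6, h5]
  have e1 : (1 : ZMod r) * 1 = 1 := by ring
  have e2 : (-1 : ZMod r) * -1 = 1 := by ring
  have e3 : (0 : ZMod r) * 0 = 0 := by ring
  rw [e1, e2, e3, ps_zero]
  ring

theorem tau_eq (hr : Odd r) (h3 : 3 ≤ r) (a b : ℕ → LaurentPolynomial ℤ) :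
    tau r a b = - BB (r := r) (FF a) (FF b) / (4 * r * br (1 : ZMod r)) := by
  have hb := br_one_ne hr h3
  have h0 : (r : ℂ) ≠ 0 := Nat.cast_ne_zero.2 (NeZero.ne r)
  have h4 := num_eq hr a b
  have hG : (∑ n ∈ odds r, qi r n ^ 2 * qq r ^ ((n ^ 2 - 1) / 4)) *
      (∑ n ∈ odds r, qi r n ^ 2 * (qq r ^ ((n ^ 2 - 1) / 4))⁻¹) = -(r : ℂ) / br (1 : ZMod r) ^ 2 := by
    rw [gplus hr h3, gminus hr h3]
    have h5 := gs_mul hr
    have h6 := br_sq hr (1 : ZMod r)
    have h7 := ps_neg_mul (hh r * hh r)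
    have h8 := ps_neg_mul (1 : ZMod r)
    have h9 : (ps (-1 : ZMod r) - 1) * (ps (1 : ZMod r) - 1) = - br (1 : ZMod r) ^ 2 := by
      rw [h6]
      linear_combination h8
    rw [div_mul_div_comm]
    have h10 : gs r * ps (-(hh r * hh r)) * (ps (-1 : ZMod r) - 1) *
        (gs' r * ps (hh r * hh r) * (ps (1 : ZMod r) - 1)) =
        (gs r * gs' r) * (ps (-(hh r * hh r)) * ps (hh r * hh r)) *
        ((ps (-1 : ZMod r) - 1) * (ps (1 : ZMod r) - 1)) := by
      ring
    rw [h10, h5, h7, h9]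
    field_simp
  unfold tau
  rw [← mul_inv, hG]
  have h5 : ∑ m ∈ odds r, ∑ n ∈ odds r, qi r m * qi r n *
      (qi r (m * n) * ev r (J a m) * ev r (J b n)) =
      BB (r := r) (FF a) (FF b) / (4 * br (1 : ZMod r) ^ 3) := by
    field_simp at h4 ⊢
    linear_combination h4
  rw [h5]
  field_simp

end Pool.MP_f2058c_gt.Spl
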