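import Pool.Agent.Lib.MP_f2058c_gt_S.FForm

/-!
# Difference calculus for functions with values in the algebraic integers
-/

set_option autoImplicit false

namespace Pool.MP_f2058c_gt.Spl

open Finset Complex

variable {r : ℕ} [NeZero r]

/-- The forward difference. -/
def Df (f : ℤ → ℂ) (y : ℤ) : ℂ := f (y + 1) - f y

theorem Df_shift (i : ℕ) (f : ℤ → ℂ) (y : ℤ) : Df^[i] (fun z => f (z + 1)) y = Df^[i] f (y + 1) := by
  induction i generalizing f y with
  | zero => rfl
  | succ i ih =>
    rw [Function.iterate_succ_apply, Function.iterate_succ_apply]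
    have h : Df (fun z => f (z + 1)) = fun z => Df f (z + 1) := rfl
    rw [h, ih]

theorem Df_lin (i : ℕ) (c d : ℂ) (f g : ℤ → ℂ) :
    Df^[i] (fun y => c * f y + d * g y) = fun y => c * Df^[i] f y + d * Df^[i] g y := by
  induction i generalizing f g with
  | zero => rfl
  | succ i ih =>
    rw [Function.iterate_succ_apply]
    have h : Df (fun y => c * f y + d * g y) = fun y => c * Df f y + d * Df g y := by
      funext y
      unfold Df
      ring
    rw [h, ih]
    rfl

theorem Df_add (i : ℕ) (f g : ℤ → ℂ) (y : ℤ) :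
    Df^[i] (fun y => f y + g y) y = Df^[i] f y + Df^[i] g y := by
  have h := congrFun (Df_lin i 1 1 f g) y
  have e : (fun y => (1 : ℂ) * f y + 1 * g y) = fun y => f y + g y := by
    funext y
    ring
  rw [e] at h
  rw [h]
  ring

theorem Df_smul (i : ℕ) (c : ℂ) (f : ℤ → ℂ) (y : ℤ) :
    Df^[i] (fun y => c * f y) y = c * Df^[i] f y := by
  have h := congrFun (Df_lin i c 0 f f) y
  have e : (fun y => c * f y + 0 * f y) = fun y => c * f y := by
    funext y
    ring
  rw [e] at h
  rw [h]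
  ring

theorem Df_mul (f g : ℤ → ℂ) :
    Df (fun y => f y * g y) = fun y => (fun z => f (z + 1)) y * Df g y + Df f y * g y := by
  funext y
  unfold Df
  ring

/-- The differences are divisible. -/
def KD (r s : ℕ) (f : ℤ → ℂ) : Prop := ∀ (i : ℕ) (y : ℤ), Dv ((qq r - 1) ^ ((i + s) / 2)) (Df^[i] f y)

theorem KD_mono {s s' : ℕ} (h : s ≤ s') {f : ℤ → ℂ} (hf : KD r s' f) : KD r s f := fun i y =>
  Dv_mono (by omega) (hf i y)

theorem KD_add {s : ℕ} {f g : ℤ → ℂ} (hf : KD r s f) (hg : KD r s g) : KD r s (fun y => f y + g y) :=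
  fun i y => by
    rw [Df_add]
    exact Dv_add (hf i y) (hg i y)

theorem KD_smul {s : ℕ} {c : ℂ} (hc : IsIntegral ℤ c) {f : ℤ → ℂ} (hf : KD r s f) :
    KD r s (fun y => c * f y) := fun i y => by
  rw [Df_smul]
  exact Dv_mul_left (hf i y) hc

theorem KD_zero (s : ℕ) : KD r s (fun _ => 0) := fun i y => by
  have h := Df_smul i 0 (fun _ => 0) y
  rw [zero_mul, zero_mul] at h
  rw [h]
  exact Dv_zero _

theorem KD_mul_aux (i : ℕ) : ∀ (s s' : ℕ) (f g : ℤ → ℂ), KD r s f → KD r (s' + 1) g → ∀ y : ℤ,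
    Dv ((qq r - 1) ^ ((i + s + s') / 2)) (Df^[i] (fun y => f y * g y) y) := by
  induction i with
  | zero =>
    intro s s' f g hf hg y
    have h := Dv_mul_mul (hf 0 y) (hg 0 y)
    rw [← pow_add] at h
    exact Dv_mono (by omega) h
  | succ i ih =>
    intro s s' f g hf hg y
    rw [Function.iterate_succ_apply, Df_mul, Df_add]
    have h1 : KD r s (fun z => f (z + 1)) := fun i y => by
      rw [Df_shift]
      exact hf i (y + 1)
    have h2 : KD r (s' + 1 + 1) (Df g) := fun i y => by
      have h := hg (i + 1) y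
      rw [Function.iterate_succ_apply] at h
      exact Dv_mono (by omega) h
    have h3 : KD r (s + 1) (Df f) := fun i y => by
      have h := hf (i + 1) y
      rw [Function.iterate_succ_apply] at h
      exact Dv_mono (by omega) h
    exact Dv_add (Dv_mono (by omega) (ih s (s' + 1) _ _ h1 h2 y))
      (Dv_mono (by omega) (ih (s + 1) s' _ _ h3 hg y))

theorem KD_mul {s s' : ℕ} {f g : ℤ → ℂ} (hf : KD r s f) (hg : KD r (s' + 1) g) :
    KD r (s + s') (fun y => f y * g y) := fun i y =>
  Dv_mono (by omega) (KD_mul_aux i s s' f g hf hg y)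

/-! ### Leading terms -/

/-- The product of exponential generating functions. -/
def cv : ℕ → (ℕ → ℤ) → (ℕ → ℤ) → ℤ
  | 0, c, c' => c 0 * c' 0
  | i + 1, c, c' => cv i c (fun k => c' (k + 1)) + cv i (fun k => c (k + 1)) c'

/-- The differences up to index `m` are divisible and have the leading terms `c`. -/
def KS (r m s : ℕ) (f : ℤ → ℂ) (c : ℕ → ℤ) : Prop := ∀ i, i ≤ m →
  ((i + s) % 2 = 0 → c i = 0) ∧ ∀ y : ℤ, Dv ((qq r - 1) ^ ((i + s) / 2)) (Df^[i] f y) ∧
    ((i + s) % 2 = 1 → Gr r ((i + s) / 2) (Df^[i] f y) (c i))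

theorem KS_mul (i : ℕ) : ∀ (s s' : ℕ) (f g : ℤ → ℂ) (c c' : ℕ → ℤ), KS r i s f c →
    KS r i (s' + 1) g c' →
    ((i + s + s') % 2 = 0 → cv i c c' = 0) ∧ ∀ y : ℤ,
      Dv ((qq r - 1) ^ ((i + s + s') / 2)) (Df^[i] (fun y => f y * g y) y) ∧
      ((i + s + s') % 2 = 1 → Gr r ((i + s + s') / 2) (Df^[i] (fun y => f y * g y) y) (cv i c c')) := by
  induction i with
  | zero =>
    intro s s' f g c c' hf hg
    obtain ⟨p1, q1⟩ := hf 0 (le_refl 0)
    obtain ⟨p2, q2⟩ := hg 0 (le_refl 0)
    refine ⟨?_, fun y => ⟨?_, ?_⟩⟩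
    · intro h
      show c 0 * c' 0 = 0
      rcases Nat.mod_two_eq_zero_or_one s with h1 | h1
      · rw [p1 (by omega), zero_mul]
      · rw [p2 (by omega), mul_zero]
    · have h := Dv_mul_mul (q1 y).1 (q2 y).1
      rw [← pow_add] at h
      exact Dv_mono (by omega) h
    · intro h
      show Gr r _ _ (c 0 * c' 0)
      rcases Nat.mod_two_eq_zero_or_one s with h1 | h1
      · rw [p1 (by omega), zero_mul]
        have h2 := Dv_mul_mul (q1 y).1 (q2 y).1
        rw [← pow_add] at h2
        exact Gr_of_Dv (Dv_mono (by omega) h2)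
      · have h2 := Gr_mul ((q1 y).2 (by omega)) ((q2 y).2 (by omega))
        have e : (0 + s) / 2 + (0 + (s' + 1)) / 2 = (0 + s + s') / 2 := by omega
        rw [e] at h2
        exact h2
  | succ i ih =>
    intro s s' f g c c' hf hg
    have h1 : KS r i s (fun z => f (z + 1)) c := by
      intro k hk
      obtain ⟨p, q⟩ := hf k (by omega)
      refine ⟨p, fun y => ?_⟩
      rw [Df_shift]
      exact q (y + 1)
    have h1' : KS r i (s' + 1) g c' := fun k hk => hg k (by omega)
    have h2 : KS r i (s' + 1 + 1) (Df g) (fun k => c' (k + 1)) := by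
      intro k hk
      obtain ⟨p, q⟩ := hg (k + 1) (by omega)
      have e : k + (s' + 1 + 1) = k + 1 + (s' + 1) := by omega
      rw [e]
      refine ⟨p, fun y => ?_⟩
      have h := q y
      rw [Function.iterate_succ_apply] at h
      exact h
    have h3 : KS r i (s + 1) (Df f) (fun k => c (k + 1)) := by
      intro k hk
      obtain ⟨p, q⟩ := hf (k + 1) (by omega)
      have e : k + (s + 1) = k + 1 + s := by omega
      rw [e]
      refine ⟨p, fun y => ?_⟩
      have h := q y
      rw [Function.iterate_succ_apply] at h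
      exact h
    obtain ⟨a1, a2⟩ := ih s (s' + 1) _ _ c _ h1 h2
    obtain ⟨b1, b2⟩ := ih (s + 1) s' _ _ _ c' h3 h1'
    have e1 : i + s + (s' + 1) = i + 1 + s + s' := by omega
    have e2 : i + (s + 1) + s' = i + 1 + s + s' := by omega
    rw [e1] at a1 a2
    rw [e2] at b1 b2
    refine ⟨fun h => ?_, fun y => ⟨?_, fun h => ?_⟩⟩
    · show cv i c (fun k => c' (k + 1)) + cv i (fun k => c (k + 1)) c' = 0
      rw [a1 h, b1 h, add_zero]
    · rw [Function.iterate_succ_apply, Df_mul, Df_add]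
      exact Dv_add (a2 y).1 (b2 y).1
    · rw [Function.iterate_succ_apply, Df_mul, Df_add]
      exact Gr_add ((a2 y).2 h) ((b2 y).2 h)

/-- A sequence with one term. -/
def dl (j : ℕ) (b : ℤ) (k : ℕ) : ℤ := if k = j then b else 0

theorem cv_zero_left (i : ℕ) (c : ℕ → ℤ) : cv i (fun _ => 0) c = 0 := by
  induction i generalizing c with
  | zero =>
    show 0 * c 0 = 0
    rw [zero_mul]
  | succ i ih =>
    show cv i (fun _ => 0) _ + cv i (fun _ => 0) c = 0
    rw [ih, ih, add_zero]

theorem cv_zero_right (i : ℕ) (c : ℕ → ℤ) : cv i c (fun _ => 0) = 0 := by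
  induction i generalizing c with
  | zero =>
    show c 0 * 0 = 0
    rw [mul_zero]
  | succ i ih =>
    show cv i c (fun _ => 0) + cv i _ (fun _ => 0) = 0
    rw [ih, ih, add_zero]

theorem dl_zero_succ (b : ℤ) : (fun k => dl 0 b (k + 1)) = fun _ => 0 := by
  funext k
  unfold dl
  rw [if_neg (Nat.succ_ne_zero k)]

theorem dl_one_succ (b : ℤ) : (fun k => dl 1 b (k + 1)) = dl 0 b := by
  funext k
  unfold dl
  by_cases h : k = 0
  · rw [if_pos h, if_pos (by omega)]
  · rw [if_neg h, if_neg (by omega)]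

theorem cv_dl0_left (i : ℕ) (b : ℤ) (c : ℕ → ℤ) : cv i (dl 0 b) c = b * c i := by
  induction i generalizing c with
  | zero => rfl
  | succ i ih =>
    show cv i (dl 0 b) (fun k => c (k + 1)) + cv i (fun k => dl 0 b (k + 1)) c = _
    rw [ih, dl_zero_succ, cv_zero_left, add_zero]

theorem cv_dl0_right (i : ℕ) (b : ℤ) (c : ℕ → ℤ) : cv i c (dl 0 b) = b * c i := by
  induction i generalizing c with
  | zero =>
    show c 0 * b = b * c 0
    ring
  | succ i ih =>
    show cv i c (fun k => dl 0 b (k + 1)) + cv i (fun k => c (k + 1)) (dl 0 b) = _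
    rw [ih, dl_zero_succ, cv_zero_right, zero_add]

theorem cv_dl1_left (i : ℕ) (b : ℤ) (c : ℕ → ℤ) : cv i (dl 1 b) c = b * i * c (i - 1) := by
  induction i generalizing c with
  | zero =>
    show 0 * c 0 = _
    push_cast
    ring
  | succ i ih =>
    show cv i (dl 1 b) (fun k => c (k + 1)) + cv i (fun k => dl 1 b (k + 1)) c = _
    rw [ih, dl_one_succ, cv_dl0_left]
    rcases Nat.eq_zero_or_pos i with h | h
    · subst h
      push_cast
      ring_nf
    · have e1 : i - 1 + 1 = i := by omega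
      have e2 : i + 1 - 1 = i := by omega
      show b * (i : ℤ) * c (i - 1 + 1) + b * c i = _
      rw [e1, e2]
      push_cast
      ring

theorem cv_dl1_right (i : ℕ) (b : ℤ) (c : ℕ → ℤ) : cv i c (dl 1 b) = b * i * c (i - 1) := by
  induction i generalizing c with
  | zero =>
    show c 0 * 0 = _
    push_cast
    ring
  | succ i ih =>
    show cv i c (fun k => dl 1 b (k + 1)) + cv i (fun k => c (k + 1)) (dl 1 b) = _
    rw [ih, dl_one_succ, cv_dl0_right]
    rcases Nat.eq_zero_or_pos i with h | h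
    · subst h
      push_cast
      ring_nf
    · have e1 : i - 1 + 1 = i := by omega
      have e2 : i + 1 - 1 = i := by omega
      show b * c i + b * (i : ℤ) * c (i - 1 + 1) = _
      rw [e1, e2]
      push_cast
      ring

/-- The leading terms of `q ^ (n y (y + 1))`. -/
def cT (n : ℤ) : ℕ → ℤ
  | 0 => 1
  | 1 => 0
  | i + 2 => 2 * n * ((i : ℤ) + 1) * cT n i

theorem cT_succ (n : ℤ) (m : ℕ) : cT n (m + 1) = 2 * n * m * cT n (m - 1) := by
  rcases m with _ | m
  · show 0 = _
    push_cast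
    ring
  · show 2 * n * ((m : ℤ) + 1) * cT n m = _
    have e : m + 1 - 1 = m := by omega
    rw [e]
    push_cast
    ring

theorem cT_odd (n : ℤ) (m : ℕ) : cT n (2 * m + 1) = 0 := by
  induction m with
  | zero => rfl
  | succ m ih =>
    have e : 2 * (m + 1) + 1 = (2 * m + 1) + 2 := by ring
    rw [e]
    show 2 * n * (((2 * m + 1 : ℕ) : ℤ) + 1) * cT n (2 * m + 1) = 0
    rw [ih, mul_zero]

/-- The coefficient of `n ^ k`. -/
def wq : ℕ → ℤ
  | 0 => 1
  | k + 1 => 2 * (2 * (k : ℤ) + 1) * wq k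

theorem wq_pos (k : ℕ) : 0 < wq k := by
  induction k with
  | zero => exact one_pos
  | succ k ih =>
    show 0 < 2 * (2 * (k : ℤ) + 1) * wq k
    positivity

theorem cT_even (n : ℤ) (k : ℕ) : cT n (2 * k) = wq k * n ^ k := by
  induction k with
  | zero =>
    show (1 : ℤ) = 1 * n ^ 0
    ring
  | succ k ih =>
    have e : 2 * (k + 1) = 2 * k + 2 := by ring
    rw [e]
    show 2 * n * (((2 * k : ℕ) : ℤ) + 1) * cT n (2 * k) = 2 * (2 * (k : ℤ) + 1) * wq k * n ^ (k + 1)
    rw [ih]
    push_cast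
    ring

end Pool.MP_f2058c_gt.Spl
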