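import Pool.Agent.Lib.MP_f2058c_gt_S.Diag

/-!
# The leading terms of the invariant of a splice
-/

set_option autoImplicit false

namespace Pool.MP_f2058c_gt.Spl

open Finset Complex

open scoped LaurentPolynomial

/-- The value at one. -/
noncomputable def ev1 (f : LaurentPolynomial ℤ) : ℤ := LaurentPolynomial.eval₂ (RingHom.id ℤ) 1 f

theorem Gr_ev {r : ℕ} [NeZero r] (f : LaurentPolynomial ℤ) : Gr r 0 (ev r f) (ev1 f) := by
  induction f using LaurentPolynomial.induction_on' with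
  | add p q hp hq =>
    have h1 : ev r (p + q) = ev r p + ev r q := by
      unfold ev
      rw [map_add]
    have h2 : ev1 (p + q) = ev1 p + ev1 q := by
      unfold ev1
      rw [map_add]
    rw [h1, h2]
    exact Gr_add hp hq
  | C_mul_T n a =>
    have h1 : ev r (LaurentPolynomial.C a * LaurentPolynomial.T n) = (a : ℂ) * qq r ^ n := by
      unfold ev
      rw [LaurentPolynomial.eval₂_C_mul_T]
      simp
    have h2 : ev1 (LaurentPolynomial.C a * LaurentPolynomial.T n) = a * 1 := by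
      unfold ev1
      rw [LaurentPolynomial.eval₂_C_mul_T]
      simp
    rw [h1, h2]
    have hg : Gr r 0 (qq r ^ n) 1 := by
      obtain ⟨m, rfl | rfl⟩ := n.eq_nat_or_neg
      · rw [zpow_natCast, ← ps_nat (r := r)]
        exact Gr_ps0 _
      · rw [zpow_neg, zpow_natCast, ← ps_nat (r := r), ← ps_neg]
        exact Gr_ps0 _
    exact Gr_mul (Gr_int (r := r) a) hg

theorem ev_lam (r n : ℕ) : ev r ((LaurentPolynomial.T 1 - 1) ^ n) = (qq r - 1) ^ n := by
  have h : ev r (LaurentPolynomial.T 1) = qq r := by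
    have h1 := ev_T_nat r 1
    rw [pow_one, Nat.cast_one] at h1
    exact h1
  unfold ev at h ⊢
  rw [map_pow, map_sub, map_one, h]

theorem Dv_mono {r : ℕ} [NeZero r] {m n : ℕ} (h : n ≤ m) {x : ℂ} (hx : Dv ((qq r - 1) ^ m) x) :
    Dv ((qq r - 1) ^ n) x := by
  obtain ⟨w, hw, e⟩ := hx
  refine ⟨(qq r - 1) ^ (m - n) * w, (int_lam.pow _).mul hw, ?_⟩
  rw [e, ← mul_assoc, ← pow_add]
  congr 2
  omega

theorem Dv_one_of_int {x : ℂ} (h : IsIntegral ℤ x) (ρ : ℂ) : Dv (ρ ^ 0) x := ⟨x, h, by rw [pow_zero, one_mul]⟩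

/-- The coefficients of the leading form. -/
def cc (k : ℕ) : ℤ := 4 ^ k * ((2 * k + 1).factorial : ℤ)

theorem cc_pos (k : ℕ) : 0 < cc k := by
  unfold cc
  positivity

theorem term_Gr {p : ℕ} [NeZero p] (hodd : Odd p) (h3 : 3 ≤ p) {a b : ℕ → LaurentPolynomial ℤ} {N : ℕ}
    {a' b' : ℕ → LaurentPolynomial ℤ}
    (hA : ∀ k, 1 ≤ k → k ≤ N → a k = (LaurentPolynomial.T 1 - 1) ^ (N - k) * a' k)
    (hB : ∀ k, 1 ≤ k → k ≤ N → b k = (LaurentPolynomial.T 1 - 1) ^ (N - k) * b' k)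
    {j k : ℕ} (hj : 1 ≤ j) (hk : 1 ≤ k) :
    Gr p (2 * N) (ev p (a j) * ev p (b k) * om p j k)
      (if j = k ∧ k ≤ N then cc k * (ev1 (a' k) * ev1 (b' k)) else 0) := by
  have hDa : ∀ (c c' : ℕ → LaurentPolynomial ℤ),
      (∀ k, 1 ≤ k → k ≤ N → c k = (LaurentPolynomial.T 1 - 1) ^ (N - k) * c' k) → ∀ k, 1 ≤ k →
      Dv ((qq p - 1) ^ (N - k)) (ev p (c k)) := by
    intro c c' hc k hk
    rcases Nat.lt_or_ge N k with h | h
    · have h0 : N - k = 0 := by omega
      rw [h0]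
      exact Dv_one_of_int (int_ev _) _
    · rw [hc k hk h, ev_mul, ev_lam]
      exact ⟨ev p (c' k), int_ev _, rfl⟩
  split_ifs with h
  · obtain ⟨rfl, hN⟩ := h
    rw [hA j hj hN, hB j hj hN, ev_mul, ev_mul, ev_lam]
    have g1 := Gr_mul (Gr_lam_pow (r := p) (N - j)) (Gr_ev (r := p) (a' j))
    have g2 := Gr_mul (Gr_lam_pow (r := p) (N - j)) (Gr_ev (r := p) (b' j))
    have g3 := Gr_mul (Gr_mul g1 g2) (Gr_om (r := p) hodd h3 j)
    have e1 : N - j + 0 + (N - j + 0) + 2 * j = 2 * N := by omega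
    have e2 : 1 * ev1 (a' j) * (1 * ev1 (b' j)) * (4 ^ j * ((2 * j + 1).factorial : ℤ)) =
        cc j * (ev1 (a' j) * ev1 (b' j)) := by
      unfold cc
      ring
    rw [e1, e2] at g3
    exact g3
  · refine Gr_of_Dv ?_
    have d1 := hDa a a' hA j hj
    have d2 := hDa b b' hB k hk
    have d3 := Dv_om (r := p) hodd h3 j k
    have d4 := Dv_mul_mul (Dv_mul_mul d1 d2) d3
    rw [← pow_add, ← pow_add] at d4
    refine Dv_mono ?_ d4
    rcases lt_trichotomy j k with h1 | h1 | h1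
    · rw [max_eq_right h1.le]
      omega
    · have h2 : N < k := by
        by_contra h3
        exact h ⟨h1, by omega⟩
      rw [h1, max_self]
      omega
    · rw [max_eq_left h1.le]
      omega

/-- The leading parts of two knots whose splice has trivial invariants are orthogonal. -/
theorem lead {a b : ℕ → LaurentPolynomial ℤ} (ha : a 0 = 1) (hb : b 0 = 1) (N : ℕ)
    (a' b' : ℕ → LaurentPolynomial ℤ)
    (hA : ∀ k, 1 ≤ k → k ≤ N → a k = (LaurentPolynomial.T 1 - 1) ^ (N - k) * a' k)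
    (hB : ∀ k, 1 ≤ k → k ≤ N → b k = (LaurentPolynomial.T 1 - 1) ^ (N - k) * b' k)
    (h : ∀ R : ℕ, ∃ p, R ≤ p ∧ p.Prime ∧ tau p a b = 1) :
    ∑ k ∈ Icc 1 N, cc k * (ev1 (a' k) * ev1 (b' k)) = 0 := by
  set S : ℤ := ∑ k ∈ Icc 1 N, cc k * (ev1 (a' k) * ev1 (b' k)) with hS
  obtain ⟨p, hp1, hp, ht⟩ := h (N + S.natAbs + 3)
  have : NeZero p := ⟨hp.ne_zero⟩
  have hodd : Odd p := hp.odd_of_ne_two (by omega)
  have h3 : 3 ≤ p := by omega
  have h1 := tau_sum (r := p) hodd h3 ha hb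
  rw [ht] at h1
  have h2 : Gr p (2 * N) (∑ j ∈ Ico 1 p, ∑ k ∈ Ico 1 p, ev p (a j) * ev p (b k) * om p j k)
      (∑ j ∈ Ico 1 p, ∑ k ∈ Ico 1 p,
        if j = k ∧ k ≤ N then cc k * (ev1 (a' k) * ev1 (b' k)) else 0) := by
    refine Gr_sum _ _ _ fun j hj => Gr_sum _ _ _ fun k hk => ?_
    rw [Finset.mem_Ico] at hj hk
    exact term_Gr hodd h3 hA hB hj.1 hk.1
  have h4 : ∑ j ∈ Ico 1 p, ∑ k ∈ Ico 1 p,
        (if j = k ∧ k ≤ N then cc k * (ev1 (a' k) * ev1 (b' k)) else 0) = S := by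
    rw [Finset.sum_comm]
    have h5 : ∀ k ∈ Ico 1 p, ∑ j ∈ Ico 1 p,
        (if j = k ∧ k ≤ N then cc k * (ev1 (a' k) * ev1 (b' k)) else 0) =
        if k ≤ N then cc k * (ev1 (a' k) * ev1 (b' k)) else 0 := by
      intro k hk
      rw [Finset.sum_eq_single k]
      · simp
      · intro j _ hj
        rw [if_neg fun h => hj h.1]
      · intro h
        exact absurd hk h
    rw [Finset.sum_congr rfl h5, ← Finset.sum_filter, hS]
    refine Finset.sum_congr ?_ fun _ _ => rfl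
    ext k
    rw [Finset.mem_filter, Finset.mem_Ico, Finset.mem_Icc]
    constructor
    · rintro ⟨h6, h7⟩
      exact ⟨h6.1, h7⟩
    · rintro ⟨h6, h7⟩
      exact ⟨⟨h6, by omega⟩, h7⟩
  rw [h4] at h2
  have h5 : ∑ j ∈ Ico 1 p, ∑ k ∈ Ico 1 p, ev p (a j) * ev p (b k) * om p j k = 0 := by
    linear_combination -h1
  rw [h5] at h2
  obtain ⟨w, hw, e⟩ := h2
  have hq1 : qq p ≠ 1 := by
    intro h6
    have h7 := (prim p).unique (by rw [h6]; exact IsPrimitiveRoot.one)
    omega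
  have hq1' : (qq p - 1) ^ (2 * N) ≠ 0 := pow_ne_zero _ (sub_ne_zero.2 hq1)
  have h6 : (S : ℂ) + (qq p - 1) * w = 0 := by
    rcases mul_eq_zero.1 e.symm with h7 | h7
    · exact absurd h7 hq1'
    · exact h7
  have h7 : (p : ℤ) ∣ S := by
    refine p_dvd hp ⟨-w, hw.neg, ?_⟩
    linear_combination h6
  refine Int.eq_zero_of_abs_lt_dvd h7 ?_
  rw [Int.abs_eq_natAbs]
  exact_mod_cast (by omega : S.natAbs < p)

/-! ### Divisibility by `T - 1` -/

theorem lam_dvd {f : LaurentPolynomial ℤ} (h : ev1 f = 0) : (LaurentPolynomial.T 1 - 1) ∣ f := by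
  obtain ⟨n, Q, hQ⟩ := LaurentPolynomial.exists_T_pow f
  have h1 : Q.eval 1 = 0 := by
    have h2 : ev1 (Polynomial.toLaurent Q) = Q.eval 1 := by
      unfold ev1
      rw [LaurentPolynomial.eval₂_toLaurent]
      exact Polynomial.eval₂_id
    rw [← h2, hQ]
    unfold ev1 at h ⊢
    rw [map_mul, h, zero_mul]
  obtain ⟨R, hR⟩ := Polynomial.dvd_iff_isRoot.2 h1
  refine ⟨Polynomial.toLaurent R * LaurentPolynomial.T (-n), ?_⟩
  have h2 : f = Polynomial.toLaurent Q * LaurentPolynomial.T (-n) := by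
    rw [hQ, mul_assoc, ← LaurentPolynomial.T_add, add_neg_cancel, LaurentPolynomial.T_zero, mul_one]
  rw [h2, hR, map_mul, map_sub, Polynomial.toLaurent_X, Polynomial.C_1, map_one, mul_assoc]

theorem eq_zero_of_lam {f : LaurentPolynomial ℤ}
    (h : ∀ M : ℕ, (LaurentPolynomial.T 1 - 1) ^ M ∣ f) : f = 0 := by
  obtain ⟨n, Q, hQ⟩ := LaurentPolynomial.exists_T_pow f
  by_contra hf
  have hQ0 : Q ≠ 0 := by
    intro h0
    rw [h0, map_zero] at hQ
    have h1 : f = 0 := by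
      have h2 : f * LaurentPolynomial.T n * LaurentPolynomial.T (-n) = f := by
        rw [mul_assoc, ← LaurentPolynomial.T_add, add_neg_cancel, LaurentPolynomial.T_zero, mul_one]
      rw [← h2, ← hQ, zero_mul]
    exact hf h1
  set M := Q.natDegree + 1 with hM
  obtain ⟨g, hg⟩ := h M
  obtain ⟨m, R, hR⟩ := LaurentPolynomial.exists_T_pow g
  -- `X ^ m * Q = (X - 1) ^ M * R * X ^ n`
  have h1 : Polynomial.toLaurent (Polynomial.X ^ m * Q) =
      Polynomial.toLaurent ((Polynomial.X - 1) ^ M * (R * Polynomial.X ^ n)) := by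
    have e1 : Polynomial.toLaurent ((Polynomial.X - 1 : Polynomial ℤ) ^ M) =
        (LaurentPolynomial.T 1 - 1) ^ M := by
      rw [map_pow, map_sub, map_one, Polynomial.toLaurent_X]
    rw [map_mul, map_mul, map_mul, e1, Polynomial.toLaurent_X_pow, Polynomial.toLaurent_X_pow, hQ,
      hR, hg]
    ring
  have h2 := Polynomial.toLaurent_injective h1
  have h3 : (Polynomial.X - 1) ^ M ∣ Polynomial.X ^ m * Q := ⟨_, h2⟩
  have h4 : IsCoprime ((Polynomial.X - 1 : Polynomial ℤ) ^ M) (Polynomial.X ^ m) := by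
    refine IsCoprime.pow ⟨-1, 1, ?_⟩
    ring
  have h5 : (Polynomial.X - 1 : Polynomial ℤ) ^ M ∣ Q := h4.dvd_of_dvd_mul_left h3
  have h6 := Polynomial.natDegree_le_of_dvd h5 hQ0
  have h7 : (Polynomial.X - 1 : Polynomial ℤ) = Polynomial.X - Polynomial.C 1 := by
    rw [Polynomial.C_1]
  rw [h7, Polynomial.natDegree_pow, Polynomial.natDegree_X_sub_C] at h6
  omega

/-- **Self-splices.** -/
theorem self {a : ℕ → LaurentPolynomial ℤ} (ha : a 0 = 1)
    (h : ∀ R : ℕ, ∃ p, R ≤ p ∧ p.Prime ∧ tau p a a = 1) : ∀ k, 1 ≤ k → a k = 0 := by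
  have hN : ∀ N : ℕ, ∀ k, 1 ≤ k → k ≤ N → (LaurentPolynomial.T 1 - 1) ^ (N - k) ∣ a k := by
    intro N
    induction N with
    | zero =>
      intro k h1 h2
      omega
    | succ N ih =>
      have h1 : ∀ k, ∃ g, 1 ≤ k → k ≤ N → a k = (LaurentPolynomial.T 1 - 1) ^ (N - k) * g := by
        intro k
        by_cases hk : 1 ≤ k ∧ k ≤ N
        · obtain ⟨g, hg⟩ := ih k hk.1 hk.2
          exact ⟨g, fun _ _ => hg⟩
        · exact ⟨0, fun h2 h3 => absurd ⟨h2, h3⟩ hk⟩
      choose a' ha' using h1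
      have h2 := lead ha ha N a' a' ha' ha' h
      have h3 : ∀ k ∈ Icc 1 N, cc k * (ev1 (a' k) * ev1 (a' k)) = 0 := by
        refine (Finset.sum_eq_zero_iff_of_nonneg fun k _ => ?_).1 h2
        exact mul_nonneg (cc_pos k).le (mul_self_nonneg _)
      intro k hk1 hk2
      rcases Nat.lt_or_ge N k with h4 | h4
      · have h5 : N + 1 - k = 0 := by omega
        rw [h5, pow_zero]
        exact one_dvd _
      · have h5 := h3 k (Finset.mem_Icc.2 ⟨hk1, h4⟩)
        have h6 : ev1 (a' k) = 0 := by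
          rcases mul_eq_zero.1 h5 with h7 | h7
          · exact absurd h7 (cc_pos k).ne'
          · exact mul_self_eq_zero.1 h7
        obtain ⟨g, hg⟩ := lam_dvd h6
        refine ⟨g, ?_⟩
        have h7 : N + 1 - k = (N - k) + 1 := by omega
        rw [ha' k hk1 h4, hg, h7, pow_succ]
        ring
  intro k hk
  refine eq_zero_of_lam fun M => ?_
  have h1 := hN (k + M) k hk (by omega)
  have h2 : k + M - k = M := by omega
  rwa [h2] at h1

end Pool.MP_f2058c_gt.Spl
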