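import Pool.Agent.Lib.MP_f2058c_gt_S.Tau

/-!
# Arithmetic of the roots of unity of prime order
-/

set_option autoImplicit false

namespace Pool.MP_f2058c_gt.Spl

open Finset Complex Polynomial

theorem prim (r : ℕ) [NeZero r] : IsPrimitiveRoot (qq r) r := by
  have h := Complex.isPrimitiveRoot_exp r (NeZero.ne r)
  exact h

theorem int_rat {W : ℂ} (hW : IsIntegral ℤ W) {N p : ℤ} (hp : p ≠ 0) (h : (N : ℂ) = p * W) : p ∣ N := by
  have hp' : (p : ℂ) ≠ 0 := Int.cast_ne_zero.2 hp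
  have h1 : W = algebraMap ℚ ℂ ((N : ℚ) / (p : ℚ)) := by
    rw [eq_ratCast]
    push_cast
    rw [h]
    field_simp
  rw [h1] at hW
  have h2 : IsIntegral ℤ ((N : ℚ) / (p : ℚ)) :=
    (isIntegral_algebraMap_iff (algebraMap ℚ ℂ).injective).1 hW
  obtain ⟨y, hy⟩ := IsIntegrallyClosed.isIntegral_iff.1 h2
  refine ⟨y, ?_⟩
  have hp2 : (p : ℚ) ≠ 0 := Int.cast_ne_zero.2 hp
  have h3 : (N : ℚ) = p * y := by
    rw [eq_intCast] at hy
    rw [hy]
    field_simp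
  exact_mod_cast h3

/-- An integer divisible by `q - 1` among the algebraic integers is divisible by `p`. -/
theorem p_dvd {p : ℕ} (hp : p.Prime) {N : ℤ} (h : Dv (qq p - 1) (N : ℂ)) : (p : ℤ) ∣ N := by
  have : NeZero p := ⟨hp.ne_zero⟩
  obtain ⟨w, hw, e⟩ := h
  obtain ⟨n, rfl⟩ : ∃ n, p = n + 1 := ⟨p - 1, by have := hp.pos; omega⟩
  have hprim := prim (n + 1)
  have h1 : ∀ i ∈ range n, ∃ u : ℂ, IsIntegral ℤ u ∧ (N : ℂ) = (1 - qq (n + 1) ^ (i + 1)) * u := by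
    intro i hi
    rw [Finset.mem_range] at hi
    have hc : Nat.Coprime (i + 1) (n + 1) := by
      refine (Nat.coprime_comm.1 ?_)
      exact (Nat.Prime.coprime_iff_not_dvd hp).2 fun hd => by
        have := Nat.le_of_dvd (Nat.succ_pos i) hd
        omega
    obtain ⟨j, hj⟩ := Nat.exists_mul_mod_eq_one_of_coprime hc hp.one_lt
    have h2 : qq (n + 1) = (qq (n + 1) ^ (i + 1)) ^ j := by
      rw [← pow_mul, pow_eq_pow_mod _ hprim.pow_eq_one, hj.2, pow_one]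
    have h3 := geom_sum_mul (qq (n + 1) ^ (i + 1)) j
    rw [← h2] at h3
    refine ⟨-(∑ k ∈ range j, (qq (n + 1) ^ (i + 1)) ^ k) * w, ?_, ?_⟩
    · exact (IsIntegral.sum _ fun k _ => (int_qq.pow _).pow _).neg.mul hw
    · rw [e, ← h3]
      ring
  choose! u hu1 hu2 using h1
  have h4 : (N : ℂ) ^ n = ((n + 1 : ℕ) : ℂ) * ∏ i ∈ range n, u i := by
    have h5 := hprim.prod_one_sub_pow_eq_order
    have h6 : (N : ℂ) ^ n = ∏ i ∈ range n, ((1 - qq (n + 1) ^ (i + 1)) * u i) := by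
      rw [← Finset.prod_congr rfl fun i hi => hu2 i hi, Finset.prod_const, Finset.card_range]
    rw [h6, Finset.prod_mul_distrib, h5]
    push_cast
    ring
  have h7 : (((n + 1 : ℕ) : ℤ)) ∣ N ^ n := by
    refine int_rat (W := ∏ i ∈ range n, u i) (IsIntegral.prod _ hu1) (by positivity) ?_
    push_cast
    rw [h4]
    push_cast
    ring
  exact Int.Prime.dvd_pow' hp h7

theorem int_aeval (r : ℕ) [NeZero r] (Q : ℤ[X]) : IsIntegral ℤ (aeval (qq r) Q) := by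
  rw [Polynomial.aeval_eq_sum_range]
  refine IsIntegral.sum _ fun i _ => ?_
  exact (int_qq.pow i).smul _

/-- A polynomial with values divisible by `q - 1` for all large primes vanishes at one. -/
theorem eval_one_zero (Q : ℤ[X]) (h : ∀ p : ℕ, p.Prime → 5 ≤ p → Dv (qq p - 1) (aeval (qq p) Q)) :
    Q.eval 1 = 0 := by
  have h1 : ∀ p : ℕ, p.Prime → 5 ≤ p → (p : ℤ) ∣ Q.eval 1 := by
    intro p hp h5
    have : NeZero p := ⟨hp.ne_zero⟩
    refine p_dvd hp ?_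
    obtain ⟨w, hw, e⟩ := h p hp h5
    have h2 : (X - C 1) ∣ Q - C (Q.eval 1) := by
      rw [dvd_iff_isRoot]
      simp
    obtain ⟨R, hR⟩ := h2
    have h3 : aeval (qq p) Q - ((Q.eval 1 : ℤ) : ℂ) = (qq p - 1) * aeval (qq p) R := by
      have h4 := congrArg (aeval (qq p)) hR
      simpa using h4
    refine ⟨w - aeval (qq p) R, hw.sub (int_aeval p R), ?_⟩
    rw [mul_sub, ← h3, ← e]
    ring
  obtain ⟨p, hp1, hp2⟩ := Nat.exists_infinite_primes (5 + (Q.eval 1).natAbs + 1)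
  have h2 := h1 p hp2 (by omega)
  refine Int.eq_zero_of_abs_lt_dvd h2 ?_
  rw [Int.abs_eq_natAbs]
  exact_mod_cast (by omega : (Q.eval 1).natAbs < p)

theorem ev_mul (r : ℕ) (f g : LaurentPolynomial ℤ) : ev r (f * g) = ev r f * ev r g := by
  unfold ev
  rw [map_mul]

theorem ev_T_nat (r n : ℕ) : ev r (LaurentPolynomial.T n) = qq r ^ n := by
  unfold ev
  rw [LaurentPolynomial.eval₂_T_n]
  rfl

theorem ev_toLaurent (r : ℕ) (Q : ℤ[X]) : ev r (toLaurent Q) = aeval (qq r) Q := by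
  unfold ev
  rw [LaurentPolynomial.eval₂_toLaurent, Polynomial.aeval_def]
  rfl

/-- The factor. -/
theorem factor_eq (r : ℕ) [NeZero r] :
    (1 + xx (1 : ZMod r)) * (xx (3 : ZMod r) - xx (1 : ZMod r)) * qq r ^ 4 =
      (qq r - 1) ^ 2 * ((qq r ^ 2 + qq r + 1) * (qq r + 1) ^ 2 * (qq r ^ 2 + 1)) := by
  have h1 : (qq r) * (qq r)⁻¹ = 1 := mul_inv_cancel₀ (Complex.exp_ne_zero _)
  have e1 : xx (1 : ZMod r) = qq r + (qq r)⁻¹ := by
    have h := xx_nat (r := r) 1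
    rwa [Nat.cast_one, pow_one] at h
  have e3 : xx (3 : ZMod r) = qq r ^ 3 + (qq r ^ 3)⁻¹ := by
    have h := xx_nat (r := r) 3
    have h' : ((3 : ℕ) : ZMod r) = 3 := by norm_num
    rwa [h'] at h
  have hq : qq r ≠ 0 := Complex.exp_ne_zero _
  rw [e1, e3]
  field_simp
  ring

/-- The polynomial of the leading coefficient. -/
theorem main_poly {a b : ℕ → LaurentPolynomial ℤ} (ha : a 0 = 1) (hb : b 0 = 1)
    (h : ∀ r : ℕ, Odd r → 3 ≤ r → tau r a b = 1) {n : ℕ} {Q : ℤ[X]}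
    (hQ : toLaurent Q = (a 1 * b 1) * LaurentPolynomial.T n) :
    (X - 1) ^ 2 * (X ^ 4 + X ^ 3 + X ^ 2 + X + 1) ∣ Q := by
  have hev : ∀ r : ℕ, aeval (qq r) Q = ev r (a 1) * ev r (b 1) * qq r ^ n := by
    intro r
    rw [← ev_toLaurent, hQ, ev_mul, ev_mul, ev_T_nat]
  set C0 : ℤ[X] := (X ^ 2 + X + 1) * (X + 1) ^ 2 * (X ^ 2 + 1) with hC
  have hC1 : C0.eval 1 = 24 := by
    rw [hC]
    norm_num
  have hCq : ∀ r : ℕ, aeval (qq r) C0 = (qq r ^ 2 + qq r + 1) * (qq r + 1) ^ 2 * (qq r ^ 2 + 1) := by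
    intro r
    rw [hC]
    simp
  -- the main congruence
  have key : ∀ p : ℕ, p.Prime → 5 ≤ p → ∃ w : ℂ, IsIntegral ℤ w ∧ qq p ≠ 1 ∧
      aeval (qq p) (C0 * Q) = (qq p - 1) ^ 2 * w := by
    intro p hp h5
    have : NeZero p := ⟨hp.ne_zero⟩
    have hodd : Odd p := hp.odd_of_ne_two (by omega)
    have hq1 : qq p ≠ 1 := by
      intro h1
      have h2 := (prim p).unique (by rw [h1]; exact IsPrimitiveRoot.one)
      omega
    obtain ⟨w, hw, e⟩ := tau_exp (r := p) hodd (by omega) ha hb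
    rw [h p hodd (by omega)] at e
    have hf := factor_eq p
    have hq1' : qq p - 1 ≠ 0 := sub_ne_zero.2 hq1
    refine ⟨-w * qq p ^ 4 * qq p ^ n, ((hw.neg.mul (int_qq.pow 4)).mul (int_qq.pow n)), hq1, ?_⟩
    rw [map_mul, hCq, hev]
    refine mul_left_cancel₀ (pow_ne_zero 2 hq1') ?_
    linear_combination (-(ev p (a 1) * ev p (b 1) * qq p ^ n)) * hf - qq p ^ 4 * qq p ^ n * e
  have hz1 : (C0 * Q).eval 1 = 0 := by
    refine eval_one_zero _ fun p hp h5 => ?_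
    have : NeZero p := ⟨hp.ne_zero⟩
    obtain ⟨w, hw, _, e⟩ := key p hp h5
    exact ⟨(qq p - 1) * w, (int_qq.sub isIntegral_one).mul hw, by rw [e]; ring⟩
  have hz2 : Q.eval 1 = 0 := by
    rw [eval_mul, hC1] at hz1
    omega
  obtain ⟨Q1, hQ1⟩ : (X - C 1) ∣ Q := dvd_iff_isRoot.2 hz2
  have hz3 : (C0 * Q1).eval 1 = 0 := by
    refine eval_one_zero _ fun p hp h5 => ?_
    obtain ⟨w, hw, hq1, e⟩ := key p hp h5
    refine ⟨w, hw, ?_⟩
    have hq1' : qq p - 1 ≠ 0 := sub_ne_zero.2 hq1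
    refine mul_left_cancel₀ hq1' ?_
    rw [hQ1] at e
    simp only [map_mul, map_sub, aeval_X, map_one] at e ⊢
    linear_combination e
  have hz4 : Q1.eval 1 = 0 := by
    rw [eval_mul, hC1] at hz3
    omega
  obtain ⟨Q2, hQ2⟩ : (X - C 1) ∣ Q1 := dvd_iff_isRoot.2 hz4
  have h5 := tau_five ha hb
  rw [h 5 (by decide) (by norm_num)] at h5
  have h6 : ev 5 (a 1) * ev 5 (b 1) = 0 := by
    have h7 : (1 + xx (1 : ZMod 5)) * (xx (3 : ZMod 5) - xx (1 : ZMod 5)) *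
        (ev 5 (a 1) * ev 5 (b 1)) = 0 := by linear_combination -h5
    exact (mul_eq_zero.1 h7).resolve_left factor_five
  have hq5 : qq 5 - 1 ≠ 0 := by
    intro h1
    have h2 := (prim 5).unique (by rw [sub_eq_zero.1 h1]; exact IsPrimitiveRoot.one)
    omega
  have h8 : aeval (qq 5) Q2 = 0 := by
    have h9 := hev 5
    rw [h6, zero_mul, hQ1, hQ2] at h9
    simp only [map_mul, map_sub, aeval_X, map_one] at h9
    have h10 := (mul_eq_zero.1 h9).resolve_left hq5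
    exact (mul_eq_zero.1 h10).resolve_left hq5
  have h9 : cyclotomic 5 ℤ ∣ Q2 := by
    rw [cyclotomic_eq_minpoly (prim 5) (by norm_num)]
    exact minpoly.isIntegrallyClosed_dvd ((prim 5).isIntegral (by norm_num)) h8
  have h10 : cyclotomic 5 ℤ = X ^ 4 + X ^ 3 + X ^ 2 + X + 1 := by
    have : Fact (Nat.Prime 5) := ⟨by norm_num⟩
    rw [cyclotomic_prime ℤ 5]
    simp only [Finset.sum_range_succ, Finset.sum_range_zero]
    ring
  obtain ⟨Q3, hQ3⟩ := h9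
  refine ⟨Q3, ?_⟩
  rw [hQ1, hQ2, hQ3, h10, C_1]
  ring

theorem main {a b : ℕ → LaurentPolynomial ℤ} (ha : a 0 = 1) (hb : b 0 = 1)
    (h : ∀ r : ℕ, Odd r → 3 ≤ r → tau r a b = 1) :
    (LaurentPolynomial.T 1 - 1) ^ 2 * (LaurentPolynomial.T 4 + LaurentPolynomial.T 3 +
      LaurentPolynomial.T 2 + LaurentPolynomial.T 1 + 1) ∣ a 1 * b 1 := by
  obtain ⟨n, Q, hQ⟩ := LaurentPolynomial.exists_T_pow (a 1 * b 1)
  obtain ⟨R, hR⟩ := main_poly ha hb h hQ
  refine ⟨toLaurent R * LaurentPolynomial.T (-n), ?_⟩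
  have h1 : a 1 * b 1 = toLaurent Q * LaurentPolynomial.T (-n) := by
    rw [hQ, mul_assoc, ← LaurentPolynomial.T_add, add_neg_cancel, LaurentPolynomial.T_zero, mul_one]
  rw [h1, hR]
  simp only [map_mul, map_pow, map_sub, map_add, map_one, toLaurent_X]
  have e2 : (LaurentPolynomial.T 2 : LaurentPolynomial ℤ) = LaurentPolynomial.T 1 ^ 2 := by
    rw [LaurentPolynomial.T_pow]
    norm_num
  have e3 : (LaurentPolynomial.T 3 : LaurentPolynomial ℤ) = LaurentPolynomial.T 1 ^ 3 := by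
    rw [LaurentPolynomial.T_pow]
    norm_num
  have e4 : (LaurentPolynomial.T 4 : LaurentPolynomial ℤ) = LaurentPolynomial.T 1 ^ 4 := by
    rw [LaurentPolynomial.T_pow]
    norm_num
  rw [e2, e3, e4, mul_assoc]

end Pool.MP_f2058c_gt.Spl
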