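import Pool.Agent.Lib.MP_f2058c_gt_S.Eval

/-!
# The invariant of a splice up to `(q - 1) ^ 4`, and exactly for `r = 5`
-/

set_option autoImplicit false

namespace Pool.MP_f2058c_gt.Spl

open Finset Complex

variable {r : ℕ} [NeZero r]

/-- The part of the expansion with indices at least two. -/
noncomputable def RR (a : ℕ → LaurentPolynomial ℤ) (x : ZMod r) : ℂ :=
  ∑ k ∈ Ico 2 r, ev r (a k) * PP k x

theorem RR_neg (a : ℕ → LaurentPolynomial ℤ) (x : ZMod r) : RR a (-x) = RR a x := by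
  unfold RR
  exact Finset.sum_congr rfl fun k _ => by rw [PP_neg]

omit [NeZero r] in
theorem ev_one : ev r 1 = 1 := by
  unfold ev
  rw [map_one]

theorem FF_eq {a : ℕ → LaurentPolynomial ℤ} (ha : a 0 = 1) (h3 : 3 ≤ r) (x : ZMod r) :
    FF a x = 1 + (ev r (a 1) * PP 1 x + RR a x) := by
  unfold FF RR
  rw [Finset.range_eq_Ico, Finset.sum_eq_sum_Ico_succ_bot (by omega),
    Finset.sum_eq_sum_Ico_succ_bot (by omega), ha, ev_one, PP_zero, one_mul]

theorem PP_at_one {k : ℕ} (hk : 1 ≤ k) : PP k (1 : ZMod r) = 0 := by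
  have h := PP_vanish (r := r) (le_refl 1) hk
  rwa [Nat.cast_one] at h

theorem RR_at_one (a : ℕ → LaurentPolynomial ℤ) : RR a (1 : ZMod r) = 0 := by
  unfold RR
  refine Finset.sum_eq_zero fun k hk => ?_
  rw [Finset.mem_Ico] at hk
  rw [PP_at_one (by omega), mul_zero]

theorem Sp_RR (hr : Odd r) (a : ℕ → LaurentPolynomial ℤ) : Sp (RR a : ZMod r → ℂ) :=
  Sp_sum _ _ fun k _ => Sp_smul (Sp_PP hr k) (int_ev (a k))

theorem Dv_RR (a : ℕ → LaurentPolynomial ℤ) (x : ZMod r) : Dv ((qq r - 1) ^ 4) (RR a x) := by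
  unfold RR
  refine Dv_sum _ _ _ fun k hk => ?_
  rw [Finset.mem_Ico] at hk
  exact Dv_mul_left (Dv_PP hk.1 x) (int_ev (a k))

theorem BB_congr {F G G' : ZMod r → ℂ} (h : ∀ x, G x = G' x) : BB F G = BB F G' := by
  have : G = G' := funext h
  rw [this]

/-- The value of the form. -/
theorem BB_FF (hr : Odd r) (h3 : 3 ≤ r) {a b : ℕ → LaurentPolynomial ℤ} (ha : a 0 = 1)
    (hb : b 0 = 1) :
    BB (r := r) (FF a) (FF b) = -4 * r * br (1 : ZMod r) +
      (-4 * r * br (3 : ZMod r)) * (ev r (a 1) * ev r (b 1) * (xx (3 : ZMod r) - xx (1 : ZMod r)) +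
        ev r (b 1) * RR a (3 : ZMod r) + ev r (a 1) * RR b (3 : ZMod r)) +
      BB (r := r) (RR b) (RR a) := by
  have h1 : BB (r := r) (FF a) (FF b) = BB (r := r) (FF a) (fun _ => 1) +
      (ev r (b 1) * BB (r := r) (FF a) (PP 1) + BB (r := r) (FF a) (RR b)) := by
    rw [BB_congr (F := FF a) (FF_eq hb h3), BB_add, BB_add, BB_smul]
  have h2 : BB (r := r) (FF a) (RR b) = BB (r := r) (RR b) (fun _ => 1) +
      (ev r (a 1) * BB (r := r) (RR b) (PP 1) + BB (r := r) (RR b) (RR a)) := by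
    rw [BB_comm, BB_congr (F := RR b) (FF_eq ha h3), BB_add, BB_add, BB_smul]
  have h4 : FF a (1 : ZMod r) = 1 := by
    rw [FF_eq ha h3, PP_at_one (le_refl 1), RR_at_one]
    ring
  rw [h1, h2, BB_one hr _ (FF_neg a), BB_PP_one hr _ (FF_neg a), BB_one hr _ (RR_neg b),
    BB_PP_one hr _ (RR_neg b), h4, RR_at_one, FF_eq ha h3 (3 : ZMod r), PP_one]
  ring

theorem tau_form (hr : Odd r) (h3 : 3 ≤ r) {a b : ℕ → LaurentPolynomial ℤ} (ha : a 0 = 1)
    (hb : b 0 = 1) {w : ℂ} (hw : BB (r := r) (RR b) (RR a) = -4 * r * br (1 : ZMod r) * w) :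
    tau r a b = 1 + (1 + xx (1 : ZMod r)) * (ev r (a 1) * ev r (b 1) * (xx (3 : ZMod r) - xx (1 : ZMod r)) +
        ev r (b 1) * RR a (3 : ZMod r) + ev r (a 1) * RR b (3 : ZMod r)) + w := by
  have h0 : (r : ℂ) ≠ 0 := Nat.cast_ne_zero.2 (NeZero.ne r)
  have hb1 := br_one_ne hr h3
  rw [tau_eq hr h3, BB_FF hr h3 ha hb, hw, br_three hr]
  field_simp
  ring

theorem tau_exp (hr : Odd r) (h3 : 3 ≤ r) {a b : ℕ → LaurentPolynomial ℤ} (ha : a 0 = 1)
    (hb : b 0 = 1) : ∃ w : ℂ, IsIntegral ℤ w ∧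
    tau r a b = 1 + (1 + xx (1 : ZMod r)) * (xx (3 : ZMod r) - xx (1 : ZMod r)) * (ev r (a 1) * ev r (b 1)) +
      (qq r - 1) ^ 4 * w := by
  obtain ⟨w1, i1, e1⟩ := Dv_BB (r := r) (ρ := (qq r - 1) ^ 4) hr (RR_neg b) (Sp_RR hr a) (Dv_RR b)
  obtain ⟨w2, i2, e2⟩ := Dv_RR a (3 : ZMod r)
  obtain ⟨w3, i3, e3⟩ := Dv_RR b (3 : ZMod r)
  have h1 : BB (r := r) (RR b) (RR a) = -4 * r * br (1 : ZMod r) * ((qq r - 1) ^ 4 * w1) := by
    rw [e1]
    ring
  refine ⟨(1 + xx (1 : ZMod r)) * (ev r (b 1) * w2 + ev r (a 1) * w3) + w1, ?_, ?_⟩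
  · exact ((isIntegral_one.add (int_xx _)).mul (((int_ev _).mul i2).add ((int_ev _).mul i3))).add i1
  · rw [tau_form hr h3 ha hb h1, e2, e3]
    ring

/-- The case `r = 5`. -/
theorem RR_five (a : ℕ → LaurentPolynomial ℤ) {x : ZMod 5} (hx : x ≠ 0) : RR (r := 5) a x = 0 := by
  have h : ∀ y : ZMod 5, y ≠ 0 → y = ((1 : ℕ) : ZMod 5) ∨ y = ((2 : ℕ) : ZMod 5) ∨
      y = -((1 : ℕ) : ZMod 5) ∨ y = -((2 : ℕ) : ZMod 5) := by decide
  unfold RR
  refine Finset.sum_eq_zero fun k hk => ?_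
  rw [Finset.mem_Ico] at hk
  have h1 : PP k x = 0 := by
    rcases h x hx with e | e | e | e
    · rw [e, PP_vanish (le_refl 1) (by omega)]
    · rw [e, PP_vanish (by omega) hk.1]
    · rw [e, PP_neg, PP_vanish (le_refl 1) (by omega)]
    · rw [e, PP_neg, PP_vanish (by omega) hk.1]
  rw [h1, mul_zero]

theorem tau_five {a b : ℕ → LaurentPolynomial ℤ} (ha : a 0 = 1) (hb : b 0 = 1) :
    tau 5 a b = 1 + (1 + xx (1 : ZMod 5)) * (xx (3 : ZMod 5) - xx (1 : ZMod 5)) * (ev 5 (a 1) * ev 5 (b 1)) := by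
  have hr : Odd 5 := by decide
  have h3 : (3 : ZMod 5) ≠ 0 := by decide
  have h1 : BB (r := 5) (RR b) (RR a) = -4 * ((5 : ℕ) : ℂ) * br (1 : ZMod 5) * 0 := by
    rw [mul_zero]
    unfold BB
    refine Finset.sum_eq_zero fun x _ => Finset.sum_eq_zero fun y _ => ?_
    by_cases hx : x = 0
    · rw [hx, br_zero]
      ring
    · rw [RR_five b hx]
      ring
  rw [tau_form hr (by norm_num) ha hb h1, RR_five a h3, RR_five b h3]
  ring

theorem factor_five : (1 + xx (1 : ZMod 5)) * (xx (3 : ZMod 5) - xx (1 : ZMod 5)) ≠ 0 := by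
  have hr : Odd 5 := by decide
  have hb1 := br_one_ne hr (by norm_num)
  have h3 := br_three hr
  refine mul_ne_zero ?_ ?_
  · intro h
    rw [h, zero_mul] at h3
    unfold br at h3
    rw [sub_eq_zero] at h3
    have h4 := ps_inj h3
    revert h4
    decide
  · rw [xx_sub]
    refine mul_ne_zero (ps_ne _) (mul_ne_zero ?_ ?_)
    · intro h
      rw [sub_eq_zero, ← ps_zero (r := 5)] at h
      have h4 := ps_inj h
      revert h4
      decide
    · intro h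
      rw [sub_eq_zero, ← ps_zero (r := 5)] at h
      have h4 := ps_inj h
      revert h4
      decide

end Pool.MP_f2058c_gt.Spl
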